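import Pool.Agent.Work.MP_833881_lb.Prob

/-!
# Block DEG: each pigeon has many samples that are not void
-/

namespace Pool.Agent.Work.MP_833881_lb

open Finset Pool.Agent.Work.MP_833881_lc
open scoped Classical

noncomputable section

/-- An event that depends only on one coordinate. -/
theorem pr_coord {ι : Type} [Fintype ι] [DecidableEq ι] {β : Type} [Fintype β] [Nonempty β] (i : ι) (p : β → Prop) :
    pr (fun ω : ι → β => p (ω i)) = pr p := by
  have h1 := pr_forall (fun (j : ι) (x : β) => j = i → p x)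
  have h2 : (fun ω : ι → β => ∀ j, j = i → p (ω j)) = (fun ω : ι → β => p (ω i)) := by
    funext ω
    exact propext ⟨fun h => h i rfl, fun h j hj => by rw [hj]; exact h⟩
  rw [h2] at h1
  rw [h1, Finset.prod_eq_single_of_mem i (Finset.mem_univ i)]
  · congr 1
    funext x
    exact propext ⟨fun h => h rfl, fun h _ => h⟩
  · intro j _ hj
    rw [pr_eq (fun x : β => j = i → p x), Finset.filter_true_of_mem (fun x _ h => absurd h hj), Finset.card_univ,
      div_self]
    exact_mod_cast Fintype.card_ne_zero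

theorem DEG_half (h : ℕ) (hh : 1 ≤ h) (q : Prop) :
    pr (fun x : Fin h × Bool => (x.2 = true ↔ q)) ≤ 1 / 2 := by
  have hne : Nonempty (Fin h) := ⟨⟨0, hh⟩⟩
  by_cases hq : q
  · have h1 : (fun x : Fin h × Bool => (x.2 = true ↔ q)) = (fun x : Fin h × Bool => x.2 = true) := by
      funext x
      exact propext ⟨fun hx => hx.2 hq, fun hx => ⟨fun _ => hq, fun _ => hx⟩⟩
    rw [h1, pr_eq (fun x : Fin h × Bool => x.2 = true)]
    have h2 : (univ.filter (fun x : Fin h × Bool => x.2 = true)) = (univ : Finset (Fin h)) ×ˢ {true} := by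
      ext x
      rw [Finset.mem_filter, Finset.mem_product, Finset.mem_singleton]
      exact ⟨fun hx => ⟨Finset.mem_univ _, hx.2⟩, fun hx => ⟨Finset.mem_univ _, hx.2⟩⟩
    rw [h2, Finset.card_product, Finset.card_singleton, Finset.card_univ, Fintype.card_prod, Fintype.card_fin,
      Fintype.card_bool]
    push_cast
    have h3 : (h : ℝ) ≠ 0 := by exact_mod_cast (Nat.one_le_iff_ne_zero.1 hh)
    apply le_of_eq
    field_simp
  · have h1 : (fun x : Fin h × Bool => (x.2 = true ↔ q)) = (fun x : Fin h × Bool => x.2 = false) := by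
      funext x
      refine propext ⟨fun hx => ?_, fun hx => ⟨fun h4 => ?_, fun h4 => absurd h4 hq⟩⟩
      · by_contra h4
        exact hq (hx.1 (by simpa using h4))
      · rw [hx] at h4
        exact absurd h4 (by decide)
    rw [h1, pr_eq (fun x : Fin h × Bool => x.2 = false)]
    have h2 : (univ.filter (fun x : Fin h × Bool => x.2 = false)) = (univ : Finset (Fin h)) ×ˢ {false} := by
      ext x
      rw [Finset.mem_filter, Finset.mem_product, Finset.mem_singleton]
      exact ⟨fun hx => ⟨Finset.mem_univ _, hx.2⟩, fun hx => ⟨Finset.mem_univ _, hx.2⟩⟩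
    rw [h2, Finset.card_product, Finset.card_singleton, Finset.card_univ, Fintype.card_prod, Fintype.card_fin,
      Fintype.card_bool]
    push_cast
    have h3 : (h : ℝ) ≠ 0 := by exact_mod_cast (Nat.one_le_iff_ne_zero.1 hh)
    apply le_of_eq
    field_simp

theorem DEG_one (h s k : ℕ) (hh : 1 ≤ h) (hs : 2 ≤ s) :
    pr (fun v : Fin s → Fin h × Bool => (univ.filter (fun l => (v l).2 = true)).card < k) ≤
      (s : ℝ) ^ k / 2 ^ s := by
  let Bs : Finset (Finset (Fin s)) := (Finset.range k).biUnion (fun u => univ.powersetCard u)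
  have h1 : pr (fun v : Fin s → Fin h × Bool => (univ.filter (fun l => (v l).2 = true)).card < k) ≤
      pr (fun v : Fin s → Fin h × Bool => ∃ B ∈ Bs, ∀ l, ((v l).2 = true ↔ l ∈ B)) := by
    refine pr_mono ?_
    intro v hv
    refine ⟨univ.filter (fun l => (v l).2 = true), ?_, ?_⟩
    · exact Finset.mem_biUnion.2 ⟨_, Finset.mem_range.2 hv,
        Finset.mem_powersetCard.2 ⟨Finset.subset_univ _, rfl⟩⟩
    · intro l
      simp
  refine h1.trans ?_
  have h2 : ∀ B ∈ Bs, pr (fun v : Fin s → Fin h × Bool => ∀ l, ((v l).2 = true ↔ l ∈ B)) ≤ (1 / 2) ^ s := by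
    intro B _
    rw [pr_forall (fun (l : Fin s) (x : Fin h × Bool) => (x.2 = true ↔ l ∈ B))]
    refine (Finset.prod_le_prod (fun l _ => pr_nonneg _) (fun l _ => DEG_half h hh (l ∈ B))).trans ?_
    rw [Finset.prod_const, Finset.card_univ, Fintype.card_fin]
  refine (pr_exists_le_card Bs _ _ h2).trans ?_
  have h3 : Bs.card ≤ s ^ k := by
    refine Finset.card_biUnion_le.trans ?_
    have h4 : ∀ u ∈ Finset.range k, ((univ : Finset (Fin s)).powersetCard u).card ≤ s ^ u := by
      intro u _
      rw [Finset.card_powersetCard, Finset.card_univ, Fintype.card_fin]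
      exact Nat.choose_le_pow s u
    refine (Finset.sum_le_sum h4).trans ?_
    exact (Nat.geomSum_lt hs (fun u hu => Finset.mem_range.1 hu)).le
  have h5 : ((Bs.card : ℕ) : ℝ) ≤ (s : ℝ) ^ k := by exact_mod_cast h3
  refine (mul_le_mul_of_nonneg_right h5 (by positivity)).trans (le_of_eq ?_)
  rw [one_div, inv_pow, div_eq_mul_inv]

theorem stmt_DEG : Stmt_DEG := by
  intro m n h s hl k hh hs _
  have hne : Nonempty (Fin h × Bool) := ⟨(⟨0, hh⟩, true)⟩
  have h1 : pr (fun ω : Fin m → Fin s → Fin h × Bool => ∃ i, alive hl (∅ : Finset (Edge m n)) ω i < k) ≤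
      pr (fun ω : Fin m → Fin s → Fin h × Bool => ∃ i ∈ (univ : Finset (Fin m)),
        (univ.filter (fun l => (ω i l).2 = true)).card < k) := by
    refine pr_mono ?_
    rintro ω ⟨i, hi⟩
    refine ⟨i, Finset.mem_univ _, lt_of_le_of_lt (le_of_eq ?_) hi⟩
    unfold alive
    congr 1
    ext l
    simp
  refine h1.trans ?_
  refine (pr_exists_le_card univ _ ((s : ℝ) ^ k / 2 ^ s) (fun i _ => ?_)).trans ?_
  · rw [pr_coord i (fun v : Fin s → Fin h × Bool => (univ.filter (fun l => (v l).2 = true)).card < k)]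
    exact DEG_one h s k hh hs
  · rw [Finset.card_univ, Fintype.card_fin, mul_div_assoc]

end

end Pool.Agent.Work.MP_833881_lb
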