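import Pool.Agent.Work.MP_833881_lb.DetB

/-!
# DET, part C: reduction of witnesses; no refutation in a world
-/

namespace Pool.Agent.Work.MP_833881_lb

open Finset Pool.Agent.Work.MP_833881_lc
open scoped Classical

noncomputable section

variable {m n : ℕ}

/-- The reduction of witnesses in a world. -/
theorem lf_main {L : Set (Line (Edge m n))} {z w c r d : ℕ} {E0 E1 : Finset (Edge m n)}
    (hW : World L z w c r (3 * (12 * (d + 2) * w)) (12 * (d + 2) * w) d E0 E1)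
    (hw : 1 ≤ w) (hz : 24 * z ≤ w) (hr : 3 * c + 1 ≤ r) (hp : Line (Edge m n) → Finset (Edge m n))
    (D : Line (Edge m n)) (hD : D ∈ L) (hp1 : (hp D).card ≤ 8 * z)
    (hp2 : ∀ t ∈ D, ∀ l ∈ t, ∀ l' ∈ t, l.1 ≠ l'.1 → l.1 ∈ E0 ∪ E1 → l'.1 ∈ E0 ∪ E1 →
      l.1 ∈ hp D ∨ l'.1 ∈ hp D) :
    LF E0 E1 hp z (12 * w) (12 * (d + 2) * w) D := by
  intro ζ hζ hM hZ hsz hwit
  by_contra hnot
  have hk2 : 24 * w ≤ 12 * (d + 2) * w := by nlinarith
  obtain ⟨ξ1, hξ1⟩ : ∃ x, x = (E0 ∪ ζ) ∩ hp D := ⟨_, rfl⟩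
  obtain ⟨ξ0, hξ0⟩ : ∃ x, x = (E1 ∩ hp D) \ ζ := ⟨_, rfl⟩
  have hξ1c : ξ1.card ≤ 8 * z := by
    rw [hξ1]; exact (Finset.card_le_card Finset.inter_subset_right).trans hp1
  have hξ0c : ξ0.card ≤ 8 * z := by
    rw [hξ0]
    exact (Finset.card_le_card (Finset.sdiff_subset.trans Finset.inter_subset_right)).trans hp1
  have F1 : ∀ v, v ∈ hp D → v ∈ E0 ∪ E1 → v ∈ ξ1 ∨ v ∈ ξ0 := by
    intro v hv hE
    by_cases hvζ : v ∈ ζ
    · left; rw [hξ1]; exact Finset.mem_inter.2 ⟨Finset.mem_union_right _ hvζ, hv⟩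
    · rcases Finset.mem_union.1 hE with h | h
      · left; rw [hξ1]; exact Finset.mem_inter.2 ⟨Finset.mem_union_left _ h, hv⟩
      · right; rw [hξ0]; exact Finset.mem_sdiff.2 ⟨Finset.mem_inter.2 ⟨h, hv⟩, hvζ⟩
  have F2 : ∀ v ∈ ξ0, ∃ e ∈ ζ, e ≠ v ∧ e.1 = v.1 := by
    intro v hv
    rw [hξ0] at hv
    obtain ⟨h1, h2⟩ := Finset.mem_sdiff.1 hv
    obtain ⟨h3, h4⟩ := Finset.mem_inter.1 h1
    have h5 : v.1 ∈ ζ.image Prod.fst :=
      hZ (Finset.mem_image.2 ⟨v, Finset.mem_inter.2 ⟨h4, h3⟩, rfl⟩)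
    obtain ⟨e, he, he2⟩ := Finset.mem_image.1 h5
    exact ⟨e, he, fun h => h2 (h ▸ he), he2⟩
  have F3 : ∀ M, IsM E0 E1 M → ζ ⊆ M → ξ1 ⊆ M := by
    intro M hM' hζM v hv
    rw [hξ1] at hv
    rcases Finset.mem_union.1 (Finset.mem_inter.1 hv).1 with h | h
    · exact hM'.sup h
    · exact hζM h
  have F4 : ∀ v ∈ E1, v.1 ∉ ζ.image Prod.fst → v ∉ hp D := by
    intro v hv hvζ hvp
    exact hvζ (hZ (Finset.mem_image.2 ⟨v, Finset.mem_inter.2 ⟨hvp, hv⟩, rfl⟩))
  have hξ1p : ξ1 ⊆ hp D := by rw [hξ1]; exact Finset.inter_subset_right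
  have hξ0p : ξ0 ⊆ hp D := by rw [hξ0]; exact Finset.sdiff_subset.trans Finset.inter_subset_right
  -- determined literals
  have hdet : ∀ t ∈ D, ∀ f ∈ E0 ∪ E1, f ∉ hp D → ∀ b, (f, b) ∈ t → ∀ l ∈ t, l.1 ≠ f →
      (l.2 = true → l.1 ∈ ξ1) → (l.2 = false → l.1 ∉ ξ1) → ∀ M, IsM E0 E1 M → ζ ⊆ M →
      satL (E0 ∪ E1) M l := by
    intro t ht f hf hfp b hfb l hl hlf h1 h2 M hM' hζM
    refine ⟨fun h => F3 M hM' hζM (h1 h), fun h => ?_⟩
    by_cases hlE : l.1 ∈ E0 ∪ E1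
    · right
      have h3 : l.1 ∈ hp D := by
        rcases hp2 t ht l hl (f, b) hfb hlf hlE hf with h4 | h4
        · exact h4
        · exact absurd h4 hfp
      rcases F1 l.1 h3 hlE with h4 | h4
      · exact absurd h4 (h2 h)
      · obtain ⟨e, he, he2, he3⟩ := F2 l.1 h4
        exact ⟨e, hζM he, he2, Or.inl he3⟩
    · exact Or.inl hlE
  have hPos : ∀ f ∈ Pos D ξ1, f ∈ E0 ∪ E1 → f ∉ hp D → ∀ M, IsM E0 E1 M → ζ ⊆ M → f ∈ M →
      satD (E0 ∪ E1) M D := by
    intro f hf hfE hfp M hM' hζM hfM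
    obtain ⟨t, ht, hft, h1⟩ := (Finset.mem_filter.1 hf).2
    refine ⟨t, ht, fun l hl => ?_⟩
    by_cases hlf : l = (f, true)
    · rw [hlf]
      exact ⟨fun _ => hfM, fun h => by simp at h⟩
    · obtain ⟨h2, h3, h4⟩ := h1 l hl hlf
      exact hdet t ht f hfE hfp true hft l hl h2 h3 h4 M hM' hζM
  -- step 1
  have hXP : (XP E0 E1 D ξ1 r).card < w := by
    rcases hW.posP D hD ξ1 hξ1c with h | h
    · exact h
    · exfalso
      obtain ⟨i, hi1, hi2⟩ : ∃ i ∈ AD E0 E1 D ξ1, i ∉ ζ.image Prod.fst := by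
        by_contra hcon
        push Not at hcon
        have h1 := Finset.card_le_card (fun i hi => hcon i hi : AD E0 E1 D ξ1 ⊆ ζ.image Prod.fst)
        have h2 : (ζ.image Prod.fst).card ≤ ζ.card := Finset.card_image_le
        omega
      obtain ⟨hi3, hi4⟩ := (Finset.mem_filter.1 hi1).2
      refine hnot (Wit.mono (k := 1) ⟨{i}, ∅, by simp, fun M hM' hζM hc => ?_⟩ (by omega))
      obtain ⟨e, he, hei⟩ := hc.1 i (Finset.mem_singleton_self _)
      have heE : e ∈ E1 := by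
        rcases Finset.mem_union.1 (hM'.sub he) with h1 | h1
        · exact absurd (Finset.mem_image.2 ⟨e, h1, hei⟩) hi3
        · exact h1
      have hee : e = (i, e.2) := by rw [← hei]
      have h1 := hi4 e.2 (mem_opts.2 (hee ▸ heE))
      rw [← hee] at h1
      exact hPos e h1 (Finset.mem_union_right _ heE) (F4 e heE (by rw [hei]; exact hi2)) M hM' hζM he
  -- step 2
  have hXH : (XH E0 E1 D ξ1 (3 * (12 * (d + 2) * w))).card < w := by
    rcases hW.posH D hD ξ1 hξ1c with h | h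
    · exact h
    · exfalso
      obtain ⟨f, hf1, hf2⟩ : ∃ f ∈ E0.filter (fun e => e ∈ Pos D ξ1), f ∉ hp D := by
        by_contra hcon
        push Not at hcon
        have h1 := Finset.card_le_card (fun i hi => hcon i hi : E0.filter (fun e => e ∈ Pos D ξ1) ⊆ hp D)
        omega
      obtain ⟨hf3, hf4⟩ := Finset.mem_filter.1 hf1
      exact hnot (Wit.mono (k := 0) ⟨∅, ∅, by simp, fun M hM' hζM _ =>
        hPos f hf4 (Finset.mem_union_left _ hf3) hf2 M hM' hζM (hM'.sup hf3)⟩ (by omega))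
  -- step 3
  obtain ⟨NS, hNS⟩ : ∃ x, x = NSf E0 E1 (NT D ξ1 ξ0) := ⟨_, rfl⟩
  have hNSc : NS.card ≤ w := by
    rcases hW.neg D hD ξ1 ξ0 hξ1c hξ0c with h | h
    · exfalso
      obtain ⟨T, hT, hTd⟩ := h
      obtain ⟨t, ht, rfl⟩ := Finset.mem_image.1 hT
      obtain ⟨ht1, ht2⟩ := Finset.mem_filter.1 ht
      refine hnot (Wit.mono (k := 0) ⟨∅, ∅, by simp, fun M hM' hζM _ => ⟨t, ht1, fun l hl => ?_⟩⟩ (by omega))
      obtain ⟨h1, h2⟩ := ht2 l hl
      refine ⟨fun h => F3 M hM' hζM (h1 h), fun h => ?_⟩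
      by_cases h0 : l.1 ∈ ξ0
      · obtain ⟨e, he, he2, he3⟩ := F2 l.1 h0
        exact Or.inr ⟨e, hζM he, he2, Or.inl he3⟩
      · left
        intro hlE
        have h3 : l.1 ∈ (t.filter (fun l => l.2 = false ∧ l.1 ∉ ξ0)).image Prod.fst :=
          Finset.mem_image.2 ⟨l, Finset.mem_filter.2 ⟨hl, h, h0⟩, rfl⟩
        exact (Finset.disjoint_left.1 hTd h3) hlE
    · rw [hNS]; exact h
  -- step 4
  obtain ⟨XPs, hXPs⟩ : ∃ x, x = XP E0 E1 D ξ1 r := ⟨_, rfl⟩
  obtain ⟨XHs, hXHs⟩ : ∃ x, x = XH E0 E1 D ξ1 (3 * (12 * (d + 2) * w)) := ⟨_, rfl⟩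
  rw [← hXPs] at hXP
  rw [← hXHs] at hXH
  have hζ1 : (ζ.image Prod.fst).card ≤ w := Finset.card_image_le.trans (hsz.trans hz)
  have hζ2 : (ζ.image Prod.snd).card ≤ w := Finset.card_image_le.trans (hsz.trans hz)
  have hNS1 : (NS.image Prod.fst).card ≤ w := Finset.card_image_le.trans hNSc
  have hNS2 : (NS.image Prod.snd).card ≤ w := Finset.card_image_le.trans hNSc
  have hBP : (ζ.image Prod.fst ∪ (XPs ∪ NS.image Prod.fst)).card ≤ 3 * w := by
    have e1 := Finset.card_union_le (ζ.image Prod.fst) (XPs ∪ NS.image Prod.fst)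
    have e2 := Finset.card_union_le XPs (NS.image Prod.fst)
    omega
  have hBH : (ζ.image Prod.snd ∪ (XHs ∪ NS.image Prod.snd)).card ≤ 3 * w := by
    have e1 := Finset.card_union_le (ζ.image Prod.snd) (XHs ∪ NS.image Prod.snd)
    have e2 := Finset.card_union_le XHs (NS.image Prod.snd)
    omega
  obtain ⟨I, hI1, hI2, hI3⟩ := closure_exists hW.exp (ζ.image Prod.fst ∪ (XPs ∪ NS.image Prod.fst))
    (ζ.image Prod.snd ∪ (XHs ∪ NS.image Prod.snd)) (by omega)
  obtain ⟨KH', hKH'⟩ : ∃ x, x = XHs ∪ NS.image Prod.snd := ⟨_, rfl⟩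
  have hKH'c : KH'.card ≤ 2 * w := by
    rw [hKH']
    have := Finset.card_union_le XHs (NS.image Prod.snd)
    omega
  have hM' : ∃ M, IsM E0 E1 M ∧ ζ ⊆ M ∧ Cov M I KH' ∧ ¬ satD (E0 ∪ E1) M D := by
    by_contra hcon
    push Not at hcon
    exact hnot ⟨I, KH', by omega, fun M h1 h2 h3 => hcon M h1 h2 h3⟩
  obtain ⟨M', hM'1, hM'2, hM'3, hM'4⟩ := hM'
  obtain ⟨M2, hM2⟩ : ∃ x, x = M'.filter (fun e => e ∈ E0 ∨ e ∈ ζ ∨ e.1 ∈ I ∨ e.2 ∈ KH') := ⟨_, rfl⟩
  have hM2s : M2 ⊆ M' := by rw [hM2]; exact Finset.filter_subset _ _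
  have hM2m : ∀ e, e ∈ M2 ↔ e ∈ M' ∧ (e ∈ E0 ∨ e ∈ ζ ∨ e.1 ∈ I ∨ e.2 ∈ KH') := by
    intro e; rw [hM2, Finset.mem_filter]
  have hM2M : IsM E0 E1 M2 :=
    ⟨hM2s.trans hM'1.sub, fun e he => (hM2m e).2 ⟨hM'1.sup he, Or.inl he⟩,
      fun e he f hf => hM'1.mat e (hM2s he) f (hM2s hf)⟩
  have hM2ζ : ζ ⊆ M2 := fun e he => (hM2m e).2 ⟨hM'2 he, Or.inr (Or.inl he)⟩
  have hM2c : Cov M2 I KH' := by
    refine ⟨fun i hi => ?_, fun j hj => ?_⟩
    · obtain ⟨e, he, h1⟩ := hM'3.1 i hi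
      exact ⟨e, (hM2m e).2 ⟨he, Or.inr (Or.inr (Or.inl (h1 ▸ hi)))⟩, h1⟩
    · obtain ⟨e, he, h1⟩ := hM'3.2 j hj
      exact ⟨e, (hM2m e).2 ⟨he, Or.inr (Or.inr (Or.inr (h1 ▸ hj)))⟩, h1⟩
  have hM2n : ¬ satD (E0 ∪ E1) M2 D := fun h => hM'4 (satD_mono hM2s h)
  have hM2card : (M2 \ E0).card ≤ 12 * w := by
    have h1 : M2 \ E0 ⊆ ζ ∪ (M'.filter (fun e => e.1 ∈ I) ∪ M'.filter (fun e => e.2 ∈ KH')) := by
      intro e he
      obtain ⟨he1, he2⟩ := Finset.mem_sdiff.1 he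
      obtain ⟨he3, he4⟩ := (hM2m e).1 he1
      rcases he4 with h | h | h | h
      · exact absurd h he2
      · exact Finset.mem_union_left _ h
      · exact Finset.mem_union_right _ (Finset.mem_union_left _ (Finset.mem_filter.2 ⟨he3, h⟩))
      · exact Finset.mem_union_right _ (Finset.mem_union_right _ (Finset.mem_filter.2 ⟨he3, h⟩))
    have h2 : (M'.filter (fun e => e.1 ∈ I)).card ≤ I.card := by
      refine Finset.card_le_card_of_injOn Prod.fst (fun e he => (Finset.mem_filter.1 he).2) ?_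
      intro e he f hf hef
      exact hM'1.mat e (Finset.mem_filter.1 he).1 f (Finset.mem_filter.1 hf).1 (Or.inl hef)
    have h3 : (M'.filter (fun e => e.2 ∈ KH')).card ≤ KH'.card := by
      refine Finset.card_le_card_of_injOn Prod.snd (fun e he => (Finset.mem_filter.1 he).2) ?_
      intro e he f hf hef
      exact hM'1.mat e (Finset.mem_filter.1 he).1 f (Finset.mem_filter.1 hf).1 (Or.inr hef)
    have h4 := Finset.card_le_card h1
    have h5 := Finset.card_union_le ζ (M'.filter (fun e => e.1 ∈ I) ∪ M'.filter (fun e => e.2 ∈ KH'))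
    have h6 := Finset.card_union_le (M'.filter (fun e => e.1 ∈ I)) (M'.filter (fun e => e.2 ∈ KH'))
    omega
  -- the extension
  obtain ⟨KP, KH, hK, hKsat⟩ := hwit
  obtain ⟨M, hMM, hM2M', hMc, hMnew⟩ := ext_exists (P := Pos D ξ1)
    (FH := I.biUnion (opts E1) ∪ (ζ.image Prod.snd ∪ (XHs ∪ NS.image Prod.snd)))
    (T := 3 * (12 * (d + 2) * w)) hM2M hW.sep hW.exp (by
      intro e he
      obtain ⟨he1, he2⟩ := (hM2m e).1 he
      by_cases h0 : e ∈ E0
      · exact Or.inl h0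
      · right
        have heE : e ∈ E1 := (Finset.mem_union.1 (hM'1.sub he1)).resolve_left h0
        rcases he2 with h | h | h | h
        · exact absurd h h0
        · exact Finset.mem_union_right _ (Finset.mem_union_left _ (Finset.mem_image.2 ⟨e, h, rfl⟩))
        · exact Finset.mem_union_left _ (Finset.mem_biUnion.2 ⟨e.1, h, mem_opts.2 heE⟩)
        · rw [hKH'] at h
          exact Finset.mem_union_right _ (Finset.mem_union_right _ h)) KP KH (by omega) (by
      intro i _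
      by_cases hcov : ∃ e ∈ M2, e.1 = i
      · exact Or.inl hcov
      · right
        have hiI : i ∉ I := fun h => hcov (hM2c.1 i h)
        have hi0 : i ∉ E0.image Prod.fst := by
          intro h
          obtain ⟨e, he, h1⟩ := Finset.mem_image.1 h
          exact hcov ⟨e, hM2M.sup he, h1⟩
        have hiX : i ∉ XPs := fun h =>
          hiI (hI1 (Finset.mem_union_right _ (Finset.mem_union_left _ h)))
        have h1 : r ≤ ((opts E1 i).filter (fun j => (i, j) ∉ Pos D ξ1)).card := by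
          by_contra hcon
          exact hiX (by rw [hXPs]; exact Finset.mem_filter.2 ⟨Finset.mem_univ _, hi0, not_le.1 hcon⟩)
        have h2 := hI3 i hiI
        have h3 : (opts E1 i).filter (fun j => (i, j) ∉ Pos D ξ1) ⊆
            (opts E1 i).filter (fun j => (i, j) ∉ Pos D ξ1 ∧
              j ∉ I.biUnion (opts E1) ∪ (ζ.image Prod.snd ∪ (XHs ∪ NS.image Prod.snd))) ∪
            (opts E1 i ∩ (I.biUnion (opts E1) ∪ (ζ.image Prod.snd ∪ (XHs ∪ NS.image Prod.snd)))) := by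
          intro j hj
          obtain ⟨hj1, hj2⟩ := Finset.mem_filter.1 hj
          by_cases hj3 : j ∈ I.biUnion (opts E1) ∪ (ζ.image Prod.snd ∪ (XHs ∪ NS.image Prod.snd))
          · exact Finset.mem_union_right _ (Finset.mem_inter.2 ⟨hj1, hj3⟩)
          · exact Finset.mem_union_left _ (Finset.mem_filter.2 ⟨hj1, hj2, hj3⟩)
        have h4 := (Finset.card_le_card h3).trans (Finset.card_union_le _ _)
        omega) (by
      intro j _
      by_cases hcov : ∃ e ∈ M2, e.2 = j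
      · exact Or.inl hcov
      · right
        have hj0 : j ∉ E0.image Prod.snd := by
          intro h
          obtain ⟨e, he, h1⟩ := Finset.mem_image.1 h
          exact hcov ⟨e, hM2M.sup he, h1⟩
        have hjX : j ∉ XHs := fun h =>
          hcov (hM2c.2 j (by rw [hKH']; exact Finset.mem_union_left _ h))
        by_contra hcon
        exact hjX (by rw [hXHs]; exact Finset.mem_filter.2 ⟨Finset.mem_univ _, hj0, not_le.1 hcon⟩))
      (by omega)
  -- the contradiction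
  obtain ⟨t, ht, htM⟩ := hKsat M hMM (hM2ζ.trans hM2M') hMc
  obtain ⟨l1, hl1, hl1n⟩ : ∃ l ∈ t, ¬ satL (E0 ∪ E1) M2 l := by
    by_contra hcon
    push Not at hcon
    exact hM2n ⟨t, ht, hcon⟩
  have hl1s := htM l1 hl1
  obtain ⟨v, b⟩ := l1
  -- the variable of the new literal is free
  have hv : v ∈ E1 ∧ v.1 ∉ ζ.image Prod.fst ∧ (b = true → v ∉ Pos D ξ1) ∧
      (b = false → (∀ g ∈ M2, g.1 = v.1 → g = v) ∧ ∃ e ∈ M, e ≠ v ∧ (e.1 = v.1 ∨ e.2 = v.2)) := by
    cases b with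
    | true =>
      have h1 : v ∈ M := hl1s.1 rfl
      have h2 : v ∉ M2 := fun h => hl1n ⟨fun _ => h, fun h' => by simp at h'⟩
      obtain ⟨h3, h4⟩ := hMnew v h1 h2
      refine ⟨h3, ?_, fun _ => h4, fun h => by simp at h⟩
      intro h5
      obtain ⟨e, he, he2⟩ := Finset.mem_image.1 h5
      have := hMM.mat e (hM2M' (hM2ζ he)) v h1 (Or.inl he2)
      exact h2 (this ▸ hM2ζ he)
    | false =>
      have hvE : v ∈ E0 ∪ E1 := by
        by_contra h
        exact hl1n ⟨fun h' => by simp at h', fun _ => Or.inl h⟩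
      have hno : ∀ g ∈ M2, (g.1 = v.1 ∨ g.2 = v.2) → g = v := by
        intro g hg hgv
        by_contra hne
        exact hl1n ⟨fun h' => by simp at h', fun _ => Or.inr ⟨g, hg, hne, hgv⟩⟩
      obtain ⟨e, he, he2, he3⟩ := (hl1s.2 rfl).resolve_left (fun h => h hvE)
      have hvE1 : v ∈ E1 := by
        rcases Finset.mem_union.1 hvE with h | h
        · exact absurd (hMM.mat e he v (hMM.sup h) he3) he2
        · exact h
      refine ⟨hvE1, ?_, fun h => by simp at h, fun _ => ⟨fun g hg h => hno g hg (Or.inl h), e, he, he2, he3⟩⟩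
      intro h5
      obtain ⟨g, hg, hg2⟩ := Finset.mem_image.1 h5
      have h6 := hno g (hM2ζ hg) (Or.inl hg2)
      have h7 : v ∈ M := h6 ▸ hM2M' (hM2ζ hg)
      exact he2 (hMM.mat e he v h7 he3)
  obtain ⟨hv1, hv2, hv3, hv4⟩ := hv
  have hvp : v ∉ hp D := F4 v hv1 hv2
  have hvE : v ∈ E0 ∪ E1 := Finset.mem_union_right _ hv1
  -- the other literals are determined
  have hoth : ∀ l ∈ t, l ≠ (v, b) → l.1 ≠ v ∧ (l.2 = true → l.1 ∈ ξ1) ∧ (l.2 = false → l.1 ∉ ξ1) := by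
    intro l hl hlne
    have hls := htM l hl
    have hlv : l.1 ≠ v := by
      intro h
      have hb : l.2 = !b := by
        rcases Bool.eq_false_or_eq_true l.2 with h1 | h1 <;> rcases Bool.eq_false_or_eq_true b with h2 | h2
        · exact absurd (Prod.ext h (h1.trans h2.symm)) hlne
        · rw [h1, h2]; rfl
        · rw [h1, h2]; rfl
        · exact absurd (Prod.ext h (h1.trans h2.symm)) hlne
      have hneg : l = neg (v, b) := Prod.ext h hb
      exact not_sat_both hMM (v, b) hl1s (hneg ▸ hls)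
    refine ⟨hlv, fun h => ?_, fun h hin => ?_⟩
    · have h1 : l.1 ∈ M := hls.1 h
      have h2 : l.1 ∈ E0 ∪ E1 := hMM.sub h1
      have h3 : l.1 ∈ hp D := by
        rcases hp2 t ht l hl (v, b) hl1 hlv h2 hvE with h4 | h4
        · exact h4
        · exact absurd h4 hvp
      rcases F1 l.1 h3 h2 with h4 | h4
      · exact h4
      · exfalso
        obtain ⟨e, he, he2, he3⟩ := F2 l.1 h4
        exact he2 (hMM.mat e (hM2M' (hM2ζ he)) l.1 h1 (Or.inl he3))
    · have h1 : l.1 ∈ M := F3 M hMM (hM2ζ.trans hM2M') hin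
      rcases hls.2 h with h2 | ⟨e, he, he2, he3⟩
      · exact h2 (hMM.sub h1)
      · exact he2 (hMM.mat e he l.1 h1 he3)
  cases b with
  | true =>
    refine hv3 rfl (Finset.mem_filter.2 ⟨Finset.mem_univ _, t, ht, hl1, hoth⟩)
  | false =>
    obtain ⟨hv5, e, he, he2, he3⟩ := hv4 rfl
    have hvNS : v ∈ NS := by
      rw [hNS]
      refine Finset.mem_filter.2 ⟨hv1, (t.filter (fun l => l.2 = false ∧ l.1 ∉ ξ0)).image Prod.fst,
        Finset.mem_image.2 ⟨t, Finset.mem_filter.2 ⟨ht, ?_⟩, rfl⟩, ?_⟩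
      · intro l hl
        by_cases hlv : l = (v, false)
        · rw [hlv]
          exact ⟨fun h => by simp at h, fun _ h => hvp (hξ1p h)⟩
        · exact (hoth l hl hlv).2
      · ext x
        rw [Finset.mem_inter, Finset.mem_singleton]
        constructor
        · rintro ⟨hx1, hx2⟩
          obtain ⟨l, hl, rfl⟩ := Finset.mem_image.1 hx1
          obtain ⟨hl2, hl3, hl4⟩ := Finset.mem_filter.1 hl
          by_contra hne
          have hlne : l ≠ (v, false) := fun h => hne (by rw [h])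
          obtain ⟨h5, -, h6⟩ := hoth l hl2 hlne
          have h7 : l.1 ∈ hp D := by
            rcases hp2 t ht l hl2 (v, false) hl1 h5 hx2 hvE with h8 | h8
            · exact h8
            · exact absurd h8 hvp
          rcases F1 l.1 h7 hx2 with h8 | h8
          · exact h6 hl3 h8
          · exact hl4 h8
        · rintro rfl
          exact ⟨Finset.mem_image.2 ⟨(x, false), Finset.mem_filter.2 ⟨hl1, rfl, fun h => hvp (hξ0p h)⟩, rfl⟩,
            hvE⟩
    have hvI : v.1 ∈ I :=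
      hI1 (Finset.mem_union_right _ (Finset.mem_union_right _ (Finset.mem_image.2 ⟨v, hvNS, rfl⟩)))
    obtain ⟨g, hg, hg2⟩ := hM2c.1 v.1 hvI
    have hgv := hv5 g hg hg2
    exact he2 (hMM.mat e he v (hM2M' (hgv ▸ hg)) he3)

theorem stmt_DET : Stmt_DET := by
  intro m n L z w c r d E0 E1 hW hw hz hr π hπ hL
  have hex : ∀ D : Line (Edge m n), ∃ H : Finset (Edge m n), D ∈ L → (H.card ≤ 8 * z ∧
      (∀ t ∈ D, ∀ l ∈ t, ∀ l' ∈ t, l.1 ≠ l'.1 → l.1 ∈ E0 ∪ E1 → l'.1 ∈ E0 ∪ E1 → l.1 ∈ H ∨ l'.1 ∈ H) ∧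
      (D = ∅ → H = ∅)) := by
    intro D
    by_cases hD : D ∈ L
    · by_cases h0 : D = ∅
      · refine ⟨∅, fun _ => ⟨by simp, ?_, fun _ => rfl⟩⟩
        intro t ht
        rw [h0] at ht
        exact absurd ht (Finset.notMem_empty _)
      · obtain ⟨H, h1, h2⟩ := hW.cover D hD
        exact ⟨H, fun _ => ⟨h1, h2, fun h => absurd h h0⟩⟩
    · exact ⟨∅, fun h => absurd h hD⟩
  choose hp hhp using hex
  have hk2 : 24 * w ≤ 12 * (d + 2) * w := by nlinarith
  have hk2' : 1 + d * (12 * w) ≤ 12 * (d + 2) * w := by nlinarith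
  have htru := all_true (E0 := E0) (E1 := E1) (hp := hp) (z := z) (k1 := 12 * w)
    (k2 := 12 * (d + 2) * w) (d := d) hW.sep hW.deg_le (by omega) (by omega) hk2' hπ
    (fun D hD => lf_main hW hw hz hr hp D (hL D hD) (hhp D (hL D hD)).1 (hhp D (hL D hD)).2.1)
    (fun D hD => Finset.card_image_le.trans
      ((Finset.card_le_card Finset.inter_subset_left).trans (hhp D (hL D hD)).1))
  have h0 := htru ∅ hπ.bot
  have hM0 : IsM E0 E1 E0 := ⟨Finset.subset_union_left, subset_rfl, hW.mat⟩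
  have hZ0 : (∅ : Finset (Edge m n)).image Prod.fst = ZZ E1 hp ∅ := by
    unfold ZZ
    rw [(hhp ∅ (hL ∅ hπ.bot)).2.2 rfl, Finset.empty_inter]
  obtain ⟨KP, KH, hK, hsat⟩ := h0 ∅ (Finset.empty_subset _) (by rw [Finset.union_empty]; exact hM0) hZ0
  obtain ⟨M, hM1, -, hM3, -⟩ := ext_exists (P := ∅) (FH := ∅) (T := 3 * (12 * (d + 2) * w)) hM0 hW.sep
    hW.exp (fun e he => Or.inl he) KP KH (by omega) (by
      intro i _
      by_cases h : ∃ e ∈ E0, e.1 = i
      · exact Or.inl h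
      · right
        have h1 := hW.deg_ge i (fun h' => by
          obtain ⟨e, he, h2⟩ := Finset.mem_image.1 h'
          exact h ⟨e, he, h2⟩)
        have h2 : (opts E1 i).filter (fun j => (i, j) ∉ (∅ : Finset (Edge m n)) ∧
            j ∉ (∅ : Finset (Fin n))) = opts E1 i :=
          Finset.filter_true_of_mem (fun j _ => ⟨Finset.notMem_empty _, Finset.notMem_empty _⟩)
        rw [h2]
        omega) (by
      intro j _
      by_cases h : ∃ e ∈ E0, e.2 = j
      · exact Or.inl h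
      · right
        have h1 := hW.hole_ge j (fun h' => by
          obtain ⟨e, he, h2⟩ := Finset.mem_image.1 h'
          exact h ⟨e, he, h2⟩)
        have h2 : E1.filter (fun e => e.2 = j ∧ e ∉ (∅ : Finset (Edge m n))) =
            E1.filter (fun e => e.2 = j) :=
          Finset.filter_congr (fun e _ => ⟨fun h => h.1, fun h => ⟨h, Finset.notMem_empty _⟩⟩)
        rw [h2]
        exact h1) (by
      rw [Finset.sdiff_self, Finset.card_empty]
      omega)
  obtain ⟨t, ht, -⟩ := hsat M hM1 (Finset.empty_subset _) hM3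
  exact absurd ht (Finset.notMem_empty _)

end

end Pool.Agent.Work.MP_833881_lb
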