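import Pool.Agent.Work.MP_833881_lb.Interface

/-!
# DET, part A: satisfaction by matchings, witnesses, propagation along the refutation
-/

namespace Pool.Agent.Work.MP_833881_lb

open Finset Pool.Agent.Work.MP_833881_lc
open scoped Classical

noncomputable section

variable {m n : ℕ}

/-- The literal `l` is satisfied by the matching `M` (edges outside `E` are false). -/
def satL (E M : Finset (Edge m n)) (l : Lit (Edge m n)) : Prop :=
  (l.2 = true → l.1 ∈ M) ∧ (l.2 = false → l.1 ∉ E ∨ ∃ e ∈ M, e ≠ l.1 ∧ (e.1 = l.1.1 ∨ e.2 = l.1.2))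

/-- The term `t` is satisfied. -/
def satT (E M : Finset (Edge m n)) (t : Term (Edge m n)) : Prop := ∀ l ∈ t, satL E M l

/-- The line `D` is satisfied. -/
def satD (E M : Finset (Edge m n)) (D : Line (Edge m n)) : Prop := ∃ t ∈ D, satT E M t

/-- `M` is a matching with `E0 ⊆ M ⊆ E0 ∪ E1`. -/
structure IsM (E0 E1 M : Finset (Edge m n)) : Prop where
  sub : M ⊆ E0 ∪ E1
  sup : E0 ⊆ M
  mat : ∀ e ∈ M, ∀ f ∈ M, (e.1 = f.1 ∨ e.2 = f.2) → e = f

/-- `M` covers the pigeons of `KP` and the holes of `KH`. -/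
def Cov (M : Finset (Edge m n)) (KP : Finset (Fin m)) (KH : Finset (Fin n)) : Prop :=
  (∀ i ∈ KP, ∃ e ∈ M, e.1 = i) ∧ ∀ j ∈ KH, ∃ e ∈ M, e.2 = j

/-- There is a witness of size at most `k` for `D` in the context `ζ`. -/
def Wit (E0 E1 : Finset (Edge m n)) (D : Line (Edge m n)) (ζ : Finset (Edge m n)) (k : ℕ) : Prop :=
  ∃ (KP : Finset (Fin m)) (KH : Finset (Fin n)), KP.card + KH.card ≤ k ∧
    ∀ M, IsM E0 E1 M → ζ ⊆ M → Cov M KP KH → satD (E0 ∪ E1) M D

theorem satL_mono {E M M' : Finset (Edge m n)} (h : M ⊆ M') {l : Lit (Edge m n)} (hl : satL E M l) :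
    satL E M' l := by
  refine ⟨fun h1 => h (hl.1 h1), fun h1 => ?_⟩
  rcases hl.2 h1 with h2 | ⟨e, he, h3⟩
  · exact Or.inl h2
  · exact Or.inr ⟨e, h he, h3⟩

theorem satD_mono {E M M' : Finset (Edge m n)} (h : M ⊆ M') {D : Line (Edge m n)} (hD : satD E M D) :
    satD E M' D := by
  obtain ⟨t, ht, h1⟩ := hD
  exact ⟨t, ht, fun l hl => satL_mono h (h1 l hl)⟩

theorem Cov.mono {M M' : Finset (Edge m n)} (h : M ⊆ M') {KP : Finset (Fin m)} {KH : Finset (Fin n)}
    (hc : Cov M KP KH) : Cov M' KP KH := by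
  refine ⟨fun i hi => ?_, fun j hj => ?_⟩
  · obtain ⟨e, he, h1⟩ := hc.1 i hi
    exact ⟨e, h he, h1⟩
  · obtain ⟨e, he, h1⟩ := hc.2 j hj
    exact ⟨e, h he, h1⟩

theorem Cov.anti {M : Finset (Edge m n)} {KP KP' : Finset (Fin m)} {KH KH' : Finset (Fin n)}
    (h1 : KP' ⊆ KP) (h2 : KH' ⊆ KH) (hc : Cov M KP KH) : Cov M KP' KH' :=
  ⟨fun i hi => hc.1 i (h1 hi), fun j hj => hc.2 j (h2 hj)⟩

theorem Wit.mono {E0 E1 : Finset (Edge m n)} {D : Line (Edge m n)} {ζ : Finset (Edge m n)} {k k' : ℕ}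
    (h : Wit E0 E1 D ζ k) (hk : k ≤ k') : Wit E0 E1 D ζ k' := by
  obtain ⟨KP, KH, h1, h2⟩ := h
  exact ⟨KP, KH, h1.trans hk, h2⟩

/-- A literal and its negation are not both satisfied. -/
theorem not_sat_both {E0 E1 M : Finset (Edge m n)} (hM : IsM E0 E1 M) (l : Lit (Edge m n))
    (h1 : satL (E0 ∪ E1) M l) (h2 : satL (E0 ∪ E1) M (neg l)) : False := by
  obtain ⟨v, b⟩ := l
  have key : satL (E0 ∪ E1) M (v, true) → satL (E0 ∪ E1) M (v, false) → False := by
    intro h3 h4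
    have h5 : v ∈ M := h3.1 rfl
    rcases h4.2 rfl with h6 | ⟨e, he, h6, h7⟩
    · exact h6 (hM.sub h5)
    · exact h6 (hM.mat e he v h5 h7)
  cases b with
  | false => exact key h2 h1
  | true => exact key h1 h2

theorem sound_and {E M : Finset (Edge m n)} {C C' : Line (Edge m n)} {s t : Term (Edge m n)}
    (h1 : satD E M (insert s C)) (h2 : satD E M (insert t C')) : satD E M (insert (s ∪ t) (C ∪ C')) := by
  obtain ⟨u, hu, hu2⟩ := h1
  obtain ⟨v, hv, hv2⟩ := h2
  rcases Finset.mem_insert.1 hu with rfl | hu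
  · rcases Finset.mem_insert.1 hv with rfl | hv
    · refine ⟨u ∪ v, Finset.mem_insert_self _ _, fun l hl => ?_⟩
      rcases Finset.mem_union.1 hl with h | h
      · exact hu2 l h
      · exact hv2 l h
    · exact ⟨v, Finset.mem_insert_of_mem (Finset.mem_union_right _ hv), hv2⟩
  · exact ⟨u, Finset.mem_insert_of_mem (Finset.mem_union_left _ hu), hu2⟩

theorem sound_cut {E0 E1 M : Finset (Edge m n)} (hM : IsM E0 E1 M) {C C' : Line (Edge m n)}
    {t : Term (Edge m n)} (h1 : satD (E0 ∪ E1) M (insert t C)) (h2 : satD (E0 ∪ E1) M (C' ∪ negTerm t)) :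
    satD (E0 ∪ E1) M (C ∪ C') := by
  obtain ⟨u, hu, hu2⟩ := h1
  obtain ⟨v, hv, hv2⟩ := h2
  rcases Finset.mem_insert.1 hu with rfl | hu
  · rcases Finset.mem_union.1 hv with hv | hv
    · exact ⟨v, Finset.mem_union_right _ hv, hv2⟩
    · exfalso
      obtain ⟨l, hl, rfl⟩ := Finset.mem_image.1 hv
      exact not_sat_both hM l (hu2 l hl) (hv2 (neg l) (Finset.mem_singleton_self _))
  · exact ⟨u, Finset.mem_union_left _ hu, hu2⟩

theorem sound_weak {E M : Finset (Edge m n)} {A D : Line (Edge m n)} (h : A ⊆ D) (h1 : satD E M A) :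
    satD E M D := by
  obtain ⟨t, ht, h2⟩ := h1
  exact ⟨t, h ht, h2⟩

/-- Axioms have witnesses of size one. -/
theorem wit_axiom {E0 E1 : Finset (Edge m n)} {D : Line (Edge m n)} (hD : D ∈ ontoFPHP m n)
    (ζ : Finset (Edge m n)) : Wit E0 E1 D ζ 1 := by
  have excl : ∀ (e f : Edge m n) (M : Finset (Edge m n)), IsM E0 E1 M → e ≠ f →
      (∃ g ∈ M, (g.1 = e.1 ∧ g.1 = f.1) ∨ (g.2 = e.2 ∧ g.2 = f.2)) → satD (E0 ∪ E1) M (exclAx e f) := by
    intro e f M hM hef hg
    obtain ⟨g, hg, hgef⟩ := hg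
    by_cases hge : g = e
    · refine ⟨{(f, false)}, by simp [exclAx], ?_⟩
      intro l hl
      rw [Finset.mem_singleton.1 hl]
      refine ⟨fun h => by simp at h, fun _ => Or.inr ⟨g, hg, fun h => hef (hge.symm.trans h), ?_⟩⟩
      rcases hgef with h | h
      · exact Or.inl h.2
      · exact Or.inr h.2
    · refine ⟨{(e, false)}, by simp [exclAx], ?_⟩
      intro l hl
      rw [Finset.mem_singleton.1 hl]
      refine ⟨fun h => by simp at h, fun _ => Or.inr ⟨g, hg, hge, ?_⟩⟩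
      rcases hgef with h | h
      · exact Or.inl h.1
      · exact Or.inr h.1
  rcases hD with (⟨i, rfl⟩ | ⟨i, i', j, hne, rfl⟩) | (⟨i, j, j', hne, rfl⟩ | ⟨j, rfl⟩)
  · refine ⟨{i}, ∅, by simp, fun M hM _ hc => ?_⟩
    obtain ⟨e, he, h1⟩ := hc.1 i (Finset.mem_singleton_self _)
    refine ⟨{(e, true)}, Finset.mem_image.2 ⟨e.2, Finset.mem_univ _, by rw [← h1]⟩, ?_⟩
    intro l hl
    rw [Finset.mem_singleton.1 hl]
    exact ⟨fun _ => he, fun h => by simp at h⟩
  · refine ⟨∅, {j}, by simp, fun M hM _ hc => ?_⟩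
    obtain ⟨g, hg, h1⟩ := hc.2 j (Finset.mem_singleton_self _)
    exact excl _ _ M hM (fun h => hne (congrArg Prod.fst h)) ⟨g, hg, Or.inr ⟨h1, h1⟩⟩
  · refine ⟨{i}, ∅, by simp, fun M hM _ hc => ?_⟩
    obtain ⟨g, hg, h1⟩ := hc.1 i (Finset.mem_singleton_self _)
    exact excl _ _ M hM (fun h => hne (congrArg Prod.snd h)) ⟨g, hg, Or.inl ⟨h1, h1⟩⟩
  · refine ⟨∅, {j}, by simp, fun M hM _ hc => ?_⟩
    obtain ⟨e, he, h1⟩ := hc.2 j (Finset.mem_singleton_self _)
    refine ⟨{(e, true)}, Finset.mem_image.2 ⟨e.1, Finset.mem_univ _, by rw [← h1]⟩, ?_⟩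
    intro l hl
    rw [Finset.mem_singleton.1 hl]
    exact ⟨fun _ => he, fun h => by simp at h⟩

/-- The pigeons of the critical variables of `D`. -/
def ZZ (E1 : Finset (Edge m n)) (hp : Line (Edge m n) → Finset (Edge m n)) (D : Line (Edge m n)) :
    Finset (Fin m) := (hp D ∩ E1).image Prod.fst

/-- `D` is true: it has a small witness in all contexts on its critical pigeons. -/
def Tru (E0 E1 : Finset (Edge m n)) (hp : Line (Edge m n) → Finset (Edge m n)) (k1 : ℕ)
    (D : Line (Edge m n)) : Prop :=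
  ∀ ζ : Finset (Edge m n), ζ ⊆ E1 → IsM E0 E1 (E0 ∪ ζ) → ζ.image Prod.fst = ZZ E1 hp D → Wit E0 E1 D ζ k1

/-- The reduction of witnesses. -/
def LF (E0 E1 : Finset (Edge m n)) (hp : Line (Edge m n) → Finset (Edge m n)) (z k1 k2 : ℕ)
    (D : Line (Edge m n)) : Prop :=
  ∀ ζ : Finset (Edge m n), ζ ⊆ E1 → IsM E0 E1 (E0 ∪ ζ) → ZZ E1 hp D ⊆ ζ.image Prod.fst → ζ.card ≤ 24 * z →
    Wit E0 E1 D ζ k2 → Wit E0 E1 D ζ k1

theorem IsM.of_subset {E0 E1 M ζ : Finset (Edge m n)} (hM : IsM E0 E1 M) (hζ : ζ ⊆ M) :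
    IsM E0 E1 (E0 ∪ ζ) := by
  have h : E0 ∪ ζ ⊆ M := Finset.union_subset hM.sup hζ
  exact ⟨h.trans hM.sub, Finset.subset_union_left, fun e he f hf => hM.mat e (h he) f (h hf)⟩

theorem card_of_matching {ζ : Finset (Edge m n)} (h : ∀ e ∈ ζ, ∀ f ∈ ζ, (e.1 = f.1 ∨ e.2 = f.2) → e = f) :
    (ζ.image Prod.fst).card = ζ.card :=
  Finset.card_image_of_injOn (fun e he f hf hef => h e he f hf (Or.inl hef))

theorem restrict_image {ζ : Finset (Edge m n)} {Z : Finset (Fin m)} (h : Z ⊆ ζ.image Prod.fst) :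
    (ζ.filter (fun e => e.1 ∈ Z)).image Prod.fst = Z := by
  ext i
  constructor
  · intro hi
    obtain ⟨e, he, rfl⟩ := Finset.mem_image.1 hi
    exact (Finset.mem_filter.1 he).2
  · intro hi
    obtain ⟨e, he, rfl⟩ := Finset.mem_image.1 (h hi)
    exact Finset.mem_image.2 ⟨e, Finset.mem_filter.2 ⟨he, hi⟩, rfl⟩

/-- Propagation of truth. -/
theorem propagate {E0 E1 : Finset (Edge m n)} {hp : Line (Edge m n) → Finset (Edge m n)} {z k1 k2 d : ℕ}
    (hsep : ∀ e ∈ E0, ∀ f ∈ E1, e.1 ≠ f.1 ∧ e.2 ≠ f.2) (hd : ∀ i, (opts E1 i).card ≤ d)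
    (hk2 : 2 * k1 ≤ k2) (hk2' : 1 + d * k1 ≤ k2) {A B D : Line (Edge m n)} (hLF : LF E0 E1 hp z k1 k2 D)
    (hzA : (ZZ E1 hp A).card ≤ 8 * z) (hzB : (ZZ E1 hp B).card ≤ 8 * z) (hzD : (ZZ E1 hp D).card ≤ 8 * z)
    (hA : Tru E0 E1 hp k1 A) (hB : Tru E0 E1 hp k1 B)
    (hs : ∀ M, IsM E0 E1 M → satD (E0 ∪ E1) M A → satD (E0 ∪ E1) M B → satD (E0 ∪ E1) M D) :
    Tru E0 E1 hp k1 D := by
  have key : ∀ (k : ℕ) (ζ : Finset (Edge m n)), ζ ⊆ E1 → IsM E0 E1 (E0 ∪ ζ) →
      ZZ E1 hp D ⊆ ζ.image Prod.fst →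
      ((ZZ E1 hp A ∪ ZZ E1 hp B) \ ζ.image Prod.fst).card = k → ζ.card + k ≤ 24 * z → Wit E0 E1 D ζ k1 := by
    intro k
    induction k with
    | zero =>
      intro ζ hζ hM hZ hk hsz
      have hsub : ZZ E1 hp A ∪ ZZ E1 hp B ⊆ ζ.image Prod.fst := by
        rw [Finset.card_eq_zero, Finset.sdiff_eq_empty_iff_subset] at hk
        exact hk
      have hsubA := Finset.subset_union_left.trans hsub
      have hsubB := Finset.subset_union_right.trans hsub
      have hfil : ∀ Z : Finset (Fin m), ζ.filter (fun e => e.1 ∈ Z) ⊆ E0 ∪ ζ := fun Z =>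
        (Finset.filter_subset _ _).trans Finset.subset_union_right
      obtain ⟨KPA, KHA, h1, h2⟩ := hA (ζ.filter (fun e => e.1 ∈ ZZ E1 hp A))
        ((Finset.filter_subset _ _).trans hζ) (hM.of_subset (hfil _)) (restrict_image hsubA)
      obtain ⟨KPB, KHB, h3, h4⟩ := hB (ζ.filter (fun e => e.1 ∈ ZZ E1 hp B))
        ((Finset.filter_subset _ _).trans hζ) (hM.of_subset (hfil _)) (restrict_image hsubB)
      refine hLF ζ hζ hM hZ (by omega) ?_
      refine ⟨KPA ∪ KPB, KHA ∪ KHB, ?_, ?_⟩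
      · have e1 := Finset.card_union_le KPA KPB
        have e2 := Finset.card_union_le KHA KHB
        omega
      · intro M hM' hζM hc
        refine hs M hM' (h2 M hM' ((Finset.filter_subset _ _).trans hζM) ?_)
          (h4 M hM' ((Finset.filter_subset _ _).trans hζM) ?_)
        · exact hc.anti Finset.subset_union_left Finset.subset_union_left
        · exact hc.anti Finset.subset_union_right Finset.subset_union_right
    | succ k ih =>
      intro ζ hζ hM hZ hk hsz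
      obtain ⟨v, hv⟩ : ((ZZ E1 hp A ∪ ZZ E1 hp B) \ ζ.image Prod.fst).Nonempty := by
        rw [← Finset.card_pos]; omega
      obtain ⟨hv1, hv2⟩ := Finset.mem_sdiff.1 hv
      have hvE : v ∈ E1.image Prod.fst := by
        rcases Finset.mem_union.1 hv1 with h | h
        · exact Finset.image_subset_image Finset.inter_subset_right h
        · exact Finset.image_subset_image Finset.inter_subset_right h
      have hv0 : ∀ e ∈ E0, e.1 ≠ v := by
        intro e he h
        obtain ⟨f, hf, hf2⟩ := Finset.mem_image.1 hvE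
        exact (hsep e he f hf).1 (h.trans hf2.symm)
      -- witnesses for the options
      have hopt : ∀ j : Fin n, ∃ (KP : Finset (Fin m)) (KH : Finset (Fin n)), KP.card + KH.card ≤ k1 ∧
          ((v, j) ∈ E1 → IsM E0 E1 (E0 ∪ insert (v, j) ζ) → ∀ M, IsM E0 E1 M → insert (v, j) ζ ⊆ M →
            Cov M KP KH → satD (E0 ∪ E1) M D) := by
        intro j
        by_cases h : (v, j) ∈ E1 ∧ IsM E0 E1 (E0 ∪ insert (v, j) ζ)
        · have hc1 : ((ZZ E1 hp A ∪ ZZ E1 hp B) \ (insert (v, j) ζ).image Prod.fst).card = k := by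
            rw [Finset.image_insert, Finset.sdiff_insert, Finset.card_erase_of_mem hv, hk]
            rfl
          have hc2 : (insert (v, j) ζ).card ≤ ζ.card + 1 := Finset.card_insert_le _ _
          obtain ⟨KP, KH, h1, h2⟩ := ih (insert (v, j) ζ) (Finset.insert_subset h.1 hζ) h.2
            (hZ.trans (Finset.image_subset_image (Finset.subset_insert _ _))) hc1 (by omega)
          exact ⟨KP, KH, h1, fun _ _ M hM' hi hc => h2 M hM' hi hc⟩
        · exact ⟨∅, ∅, by simp, fun h1 h2 => absurd ⟨h1, h2⟩ h⟩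
      choose KP KH hK1 hK2 using hopt
      refine hLF ζ hζ hM hZ (by omega) ?_
      refine ⟨insert v ((opts E1 v).biUnion KP), (opts E1 v).biUnion KH, ?_, ?_⟩
      · have e1 : (insert v ((opts E1 v).biUnion KP)).card ≤ ((opts E1 v).biUnion KP).card + 1 :=
          Finset.card_insert_le _ _
        have e2 : ((opts E1 v).biUnion KP).card + ((opts E1 v).biUnion KH).card ≤ d * k1 := by
          have f1 := Finset.card_biUnion_le (s := opts E1 v) (t := KP)
          have f2 := Finset.card_biUnion_le (s := opts E1 v) (t := KH)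
          have f3 : ∑ j ∈ opts E1 v, (KP j).card + ∑ j ∈ opts E1 v, (KH j).card ≤ (opts E1 v).card * k1 := by
            rw [← Finset.sum_add_distrib, ← smul_eq_mul]
            exact Finset.sum_le_card_nsmul _ _ _ (fun j _ => hK1 j)
          have f4 : (opts E1 v).card * k1 ≤ d * k1 := Nat.mul_le_mul_right _ (hd v)
          omega
        omega
      · intro M hM' hζM hc
        obtain ⟨e, he, hev⟩ := hc.1 v (Finset.mem_insert_self _ _)
        have heE : e ∈ E1 := by
          rcases Finset.mem_union.1 (hM'.sub he) with h | h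
          · exact absurd hev (hv0 e h)
          · exact h
        have hee : e = (v, e.2) := by rw [← hev]
        have hins : insert (v, e.2) ζ ⊆ M := Finset.insert_subset (hee ▸ he) hζM
        have hopt : e.2 ∈ opts E1 v := by
          rw [opts, Finset.mem_filter]
          exact ⟨Finset.mem_univ _, hee ▸ heE⟩
        refine hK2 e.2 (hee ▸ heE) (hM'.of_subset hins) M hM' hins ?_
        exact hc.anti ((Finset.subset_biUnion_of_mem KP hopt).trans (Finset.subset_insert _ _))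
          (Finset.subset_biUnion_of_mem KH hopt)
  intro ζ hζ hM hZ
  have hcard : ζ.card = (ZZ E1 hp D).card := by
    rw [← hZ, card_of_matching (fun e he f hf => hM.mat e (Finset.mem_union_right _ he) f
      (Finset.mem_union_right _ hf))]
  refine key _ ζ hζ hM hZ.symm.subset rfl ?_
  have h1 : ((ZZ E1 hp A ∪ ZZ E1 hp B) \ ζ.image Prod.fst).card ≤ 16 * z := by
    refine (Finset.card_le_card Finset.sdiff_subset).trans ?_
    have := Finset.card_union_le (ZZ E1 hp A) (ZZ E1 hp B)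
    omega
  omega

/-- All lines of the refutation are true. -/
theorem all_true {E0 E1 : Finset (Edge m n)} {hp : Line (Edge m n) → Finset (Edge m n)} {z k1 k2 d : ℕ}
    (hsep : ∀ e ∈ E0, ∀ f ∈ E1, e.1 ≠ f.1 ∧ e.2 ≠ f.2) (hd : ∀ i, (opts E1 i).card ≤ d)
    (hk1 : 1 ≤ k1) (hk2 : 2 * k1 ≤ k2) (hk2' : 1 + d * k1 ≤ k2) {π : List (Line (Edge m n))}
    (hπ : IsRefutation 2 (ontoFPHP m n) π) (hLF : ∀ D ∈ π, LF E0 E1 hp z k1 k2 D)
    (hz : ∀ D ∈ π, (ZZ E1 hp D).card ≤ 8 * z) : ∀ D ∈ π, Tru E0 E1 hp k1 D := by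
  have key : ∀ (k : ℕ) (pre : List (Line (Edge m n))) (D : Line (Edge m n)) (suf : List (Line (Edge m n))),
      pre.length = k → π = pre ++ D :: suf → Tru E0 E1 hp k1 D := by
    intro k
    induction k using Nat.strong_induction_on with
    | _ k ih =>
      intro pre D suf hk hsplit
      have hDπ : D ∈ π := by rw [hsplit]; simp
      have hpre : ∀ E ∈ pre, Tru E0 E1 hp k1 E ∧ E ∈ π := by
        intro E hE
        obtain ⟨p, q, hpq⟩ := List.append_of_mem hE
        refine ⟨ih p.length ?_ p E (q ++ D :: suf) rfl ?_, ?_⟩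
        · rw [← hk, hpq]; simp
        · rw [hsplit, hpq]; simp
        · rw [hsplit]; exact List.mem_append_left _ hE
      have hinf := hπ.step pre D suf hsplit
      cases hinf with
      | ax h => exact fun ζ _ _ _ => (wit_axiom h ζ).mono hk1
      | @weak A D h1 h2 =>
        obtain ⟨t1, t2⟩ := hpre A h1
        exact propagate hsep hd hk2 hk2' (hLF D hDπ) (hz A t2) (hz A t2) (hz D hDπ) t1 t1
          (fun M _ h _ => sound_weak h2 h)
      | @andI C C' s t h1 h2 =>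
        obtain ⟨t1, t2⟩ := hpre _ h1
        obtain ⟨t3, t4⟩ := hpre _ h2
        exact propagate hsep hd hk2 hk2' (hLF _ hDπ) (hz _ t2) (hz _ t4) (hz _ hDπ) t1 t3
          (fun M _ h h' => sound_and h h')
      | @cut C C' t h1 h2 =>
        obtain ⟨t1, t2⟩ := hpre _ h1
        obtain ⟨t3, t4⟩ := hpre _ h2
        exact propagate hsep hd hk2 hk2' (hLF _ hDπ) (hz _ t2) (hz _ t4) (hz _ hDπ) t1 t3
          (fun M hM h h' => sound_cut hM h h')
  intro D hD
  obtain ⟨p, q, hpq⟩ := List.append_of_mem hD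
  exact key p.length p D q rfl hpq

end

end Pool.Agent.Work.MP_833881_lb
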