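import Pool.Agent.Work.MP_833881_lb.DetA

/-!
# DET, part B: closure and extension of matchings
-/

namespace Pool.Agent.Work.MP_833881_lb

open Finset Pool.Agent.Work.MP_833881_lc
open scoped Classical

noncomputable section

variable {m n : ℕ}

theorem mem_opts {E : Finset (Edge m n)} {i : Fin m} {j : Fin n} : j ∈ opts E i ↔ (i, j) ∈ E := by
  unfold opts
  rw [Finset.mem_filter]
  exact ⟨fun h => h.2, fun h => ⟨Finset.mem_univ _, h⟩⟩

/-- Closure under pigeons with many holes in the neighbourhood. -/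
theorem closure_exists {E1 : Finset (Edge m n)} {c S : ℕ}
    (hexp : ∀ A : Finset (Fin m), A.card ≤ S →
      ∑ i ∈ A, (opts E1 i).card ≤ (A.biUnion (opts E1)).card + c * A.card)
    (BP : Finset (Fin m)) (BH : Finset (Fin n)) (hS : 2 * BP.card + BH.card + 1 ≤ S) :
    ∃ I : Finset (Fin m), BP ⊆ I ∧ I.card ≤ 2 * BP.card + BH.card ∧
      ∀ i, i ∉ I → (opts E1 i ∩ (I.biUnion (opts E1) ∪ BH)).card ≤ 2 * c := by
  let Q : Finset (Fin m) → Prop := fun J => BP ⊆ J ∧ J.card ≤ S ∧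
    (J.biUnion (opts E1) ∪ BH).card + (2 * c + 1) * (J.card - BP.card) ≤
      ∑ i ∈ J, (opts E1 i).card + BH.card
  have hQB : Q BP := by
    refine ⟨subset_rfl, by omega, ?_⟩
    rw [Nat.sub_self, Nat.mul_zero, Nat.add_zero]
    refine (Finset.card_union_le _ _).trans (Nat.add_le_add_right ?_ _)
    exact Finset.card_biUnion_le
  obtain ⟨I, hI, hmax⟩ := Finset.exists_max_image (univ.filter Q) Finset.card
    ⟨BP, Finset.mem_filter.2 ⟨Finset.mem_univ _, hQB⟩⟩
  obtain ⟨hI1, hI2, hI3⟩ := (Finset.mem_filter.1 hI).2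
  have hc1 := Finset.card_le_card hI1
  have hcard : I.card ≤ 2 * BP.card + BH.card := by
    have h1 := hexp I hI2
    have h2 : (I.biUnion (opts E1)).card ≤ (I.biUnion (opts E1) ∪ BH).card :=
      Finset.card_le_card Finset.subset_union_left
    obtain ⟨s, hs⟩ := Nat.exists_eq_add_of_le hc1
    rw [hs] at h1 hI3 ⊢
    rw [Nat.add_sub_cancel_left] at hI3
    have h3 : (c + 1) * s ≤ c * BP.card + BH.card := by nlinarith
    have h4 : (c + 1) * s ≤ (c + 1) * (BP.card + BH.card) := by nlinarith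
    have h5 := Nat.le_of_mul_le_mul_left h4 (by omega)
    omega
  refine ⟨I, hI1, hcard, ?_⟩
  intro i hi
  by_contra hcon
  have hcon' : 2 * c + 1 ≤ (opts E1 i ∩ (I.biUnion (opts E1) ∪ BH)).card := by omega
  have hQ' : Q (insert i I) := by
    refine ⟨hI1.trans (Finset.subset_insert _ _), ?_, ?_⟩
    · rw [Finset.card_insert_of_notMem hi]
      omega
    · rw [Finset.card_insert_of_notMem hi, Finset.sum_insert hi, Finset.biUnion_insert,
        Finset.union_assoc]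
      have h1 := Finset.card_union_add_card_inter (opts E1 i) (I.biUnion (opts E1) ∪ BH)
      obtain ⟨s, hs⟩ := Nat.exists_eq_add_of_le hc1
      rw [hs, Nat.add_sub_cancel_left] at hI3
      rw [hs, Nat.add_assoc, Nat.add_sub_cancel_left]
      nlinarith
  have h1 := hmax (insert i I) (Finset.mem_filter.2 ⟨Finset.mem_univ _, hQ'⟩)
  rw [Finset.card_insert_of_notMem hi] at h1
  omega

theorem sub_exp {E1 : Finset (Edge m n)} {c S : ℕ}
    (hexp : ∀ A : Finset (Fin m), A.card ≤ S →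
      ∑ i ∈ A, (opts E1 i).card ≤ (A.biUnion (opts E1)).card + c * A.card)
    (O : Fin m → Finset (Fin n)) (A : Finset (Fin m)) (hA : A.card ≤ S) (hO : ∀ i ∈ A, O i ⊆ opts E1 i)
    (hc : ∀ i ∈ A, c + 1 ≤ (O i).card) : A.card ≤ (A.biUnion O).card := by
  have h1 := hexp A hA
  have h2 : A.biUnion (opts E1) ⊆ A.biUnion O ∪ A.biUnion (fun i => opts E1 i \ O i) := by
    intro j hj
    obtain ⟨i, hi, hji⟩ := Finset.mem_biUnion.1 hj
    by_cases h : j ∈ O i
    · exact Finset.mem_union_left _ (Finset.mem_biUnion.2 ⟨i, hi, h⟩)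
    · exact Finset.mem_union_right _ (Finset.mem_biUnion.2 ⟨i, hi, Finset.mem_sdiff.2 ⟨hji, h⟩⟩)
  have h3 := (Finset.card_le_card h2).trans (Finset.card_union_le _ _)
  have h4 : (A.biUnion (fun i => opts E1 i \ O i)).card ≤ ∑ i ∈ A, (opts E1 i \ O i).card :=
    Finset.card_biUnion_le
  have h5 : ∑ i ∈ A, (opts E1 i \ O i).card + ∑ i ∈ A, (O i).card = ∑ i ∈ A, (opts E1 i).card := by
    rw [← Finset.sum_add_distrib]
    refine Finset.sum_congr rfl (fun i hi => ?_)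
    rw [Finset.card_sdiff_of_subset (hO i hi)]
    exact Nat.sub_add_cancel (Finset.card_le_card (hO i hi))
  have h6 : A.card * (c + 1) ≤ ∑ i ∈ A, (O i).card := by
    rw [← smul_eq_mul]
    exact Finset.card_nsmul_le_sum _ _ _ hc
  nlinarith

theorem IsM.union {E0 E1 M N : Finset (Edge m n)} (hM : IsM E0 E1 M) (hN : N ⊆ E1)
    (hNm : ∀ e ∈ N, ∀ f ∈ N, (e.1 = f.1 ∨ e.2 = f.2) → e = f)
    (hd : ∀ e ∈ M, ∀ f ∈ N, e.1 ≠ f.1 ∧ e.2 ≠ f.2) : IsM E0 E1 (M ∪ N) := by
  refine ⟨Finset.union_subset hM.sub (hN.trans Finset.subset_union_right),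
    hM.sup.trans Finset.subset_union_left, ?_⟩
  intro e he f hf hef
  rcases Finset.mem_union.1 he with he | he <;> rcases Finset.mem_union.1 hf with hf | hf
  · exact hM.mat e he f hf hef
  · rcases hef with h | h
    · exact absurd h (hd e he f hf).1
    · exact absurd h (hd e he f hf).2
  · rcases hef with h | h
    · exact absurd h.symm (hd f hf e he).1
    · exact absurd h.symm (hd f hf e he).2
  · exact hNm e he f hf hef

/-- Cover the pigeons. -/
theorem cover_pigeons {E0 E1 M2 P : Finset (Edge m n)} {FH : Finset (Fin n)} {c S : ℕ}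
    (hM2 : IsM E0 E1 M2) (hsep : ∀ e ∈ E0, ∀ f ∈ E1, e.1 ≠ f.1 ∧ e.2 ≠ f.2)
    (hexp : ∀ A : Finset (Fin m), A.card ≤ S →
      ∑ i ∈ A, (opts E1 i).card ≤ (A.biUnion (opts E1)).card + c * A.card)
    (hFH : ∀ e ∈ M2, e ∈ E0 ∨ e.2 ∈ FH) (KP : Finset (Fin m)) (hKP : KP.card ≤ S)
    (hP : ∀ i ∈ KP, (∃ e ∈ M2, e.1 = i) ∨
      c + 1 ≤ ((opts E1 i).filter (fun j => (i, j) ∉ P ∧ j ∉ FH)).card) :
    ∃ N : Finset (Edge m n), N ⊆ E1 ∧ N.card ≤ KP.card ∧ (∀ e ∈ N, e ∉ P) ∧ IsM E0 E1 (M2 ∪ N) ∧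
      ∀ i ∈ KP, ∃ e ∈ M2 ∪ N, e.1 = i := by
  set A := KP.filter (fun i => ¬ ∃ e ∈ M2, e.1 = i) with hA
  let O : Fin m → Finset (Fin n) := fun i => (opts E1 i).filter (fun j => (i, j) ∉ P ∧ j ∉ FH)
  have hO : ∀ i ∈ A, c + 1 ≤ (O i).card := by
    intro i hi
    obtain ⟨h1, h2⟩ := Finset.mem_filter.1 hi
    exact (hP i h1).resolve_left h2
  have hall : ∀ s : Finset {i // i ∈ A}, s.card ≤ (s.biUnion (fun i => O i.1)).card := by
    intro s
    have h1 : (s.map (Function.Embedding.subtype _)).card ≤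
        ((s.map (Function.Embedding.subtype _)).biUnion O).card := by
      refine sub_exp hexp O _ ?_ (fun i _ => Finset.filter_subset _ _) ?_
      · refine le_trans (Finset.card_le_card ?_) hKP
        intro i hi
        obtain ⟨x, _, rfl⟩ := Finset.mem_map.1 hi
        exact (Finset.mem_filter.1 x.2).1
      · intro i hi
        obtain ⟨x, _, rfl⟩ := Finset.mem_map.1 hi
        exact hO _ x.2
    rw [Finset.card_map] at h1
    refine h1.trans (Finset.card_le_card ?_)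
    intro j hj
    obtain ⟨i, hi, hji⟩ := Finset.mem_biUnion.1 hj
    obtain ⟨x, hx, rfl⟩ := Finset.mem_map.1 hi
    exact Finset.mem_biUnion.2 ⟨x, hx, hji⟩
  obtain ⟨f, hf1, hf2⟩ := (Finset.all_card_le_biUnion_card_iff_exists_injective _).1 hall
  let N : Finset (Edge m n) := univ.image (fun x : {i // i ∈ A} => ((x.1, f x) : Edge m n))
  have hN : ∀ e ∈ N, ∃ x : {i // i ∈ A}, e = (x.1, f x) := by
    intro e he
    obtain ⟨x, _, hx⟩ := Finset.mem_image.1 he
    exact ⟨x, hx.symm⟩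
  have hNE : N ⊆ E1 := by
    intro e he
    obtain ⟨x, rfl⟩ := hN e he
    exact mem_opts.1 (Finset.mem_filter.1 (hf2 x)).1
  refine ⟨N, hNE, ?_, ?_, ?_, ?_⟩
  · refine Finset.card_image_le.trans ?_
    rw [Finset.card_univ, Fintype.card_coe]
    exact Finset.card_filter_le _ _
  · intro e he
    obtain ⟨x, rfl⟩ := hN e he
    exact (Finset.mem_filter.1 (hf2 x)).2.1
  · refine hM2.union hNE ?_ ?_
    · intro e he e' he' hee
      obtain ⟨x, rfl⟩ := hN e he
      obtain ⟨y, rfl⟩ := hN e' he'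
      rcases hee with h | h
      · have : x = y := Subtype.ext h
        rw [this]
      · have : x = y := hf1 h
        rw [this]
    · intro e he e' he'
      obtain ⟨x, rfl⟩ := hN e' he'
      refine ⟨fun h => (Finset.mem_filter.1 x.2).2 ⟨e, he, h⟩, fun h => ?_⟩
      rcases hFH e he with h0 | h0
      · exact (hsep e h0 _ (hNE he')).2 h
      · have h' : e.2 = f x := h
        exact (Finset.mem_filter.1 (hf2 x)).2.2 (by rw [← h']; exact h0)
  · intro i hi
    by_cases h : ∃ e ∈ M2, e.1 = i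
    · obtain ⟨e, he, h1⟩ := h
      exact ⟨e, Finset.mem_union_left _ he, h1⟩
    · have hiA : i ∈ A := Finset.mem_filter.2 ⟨hi, h⟩
      exact ⟨(i, f ⟨i, hiA⟩), Finset.mem_union_right _ (Finset.mem_image.2 ⟨⟨i, hiA⟩, Finset.mem_univ _, rfl⟩),
        rfl⟩

/-- Cover the holes. -/
theorem cover_holes {E0 E1 M3 P : Finset (Edge m n)} {T : ℕ}
    (hM3 : IsM E0 E1 M3) (hsep : ∀ e ∈ E0, ∀ f ∈ E1, e.1 ≠ f.1 ∧ e.2 ≠ f.2) (KH : Finset (Fin n))
    (hH : ∀ j ∈ KH, (∃ e ∈ M3, e.2 = j) ∨ T ≤ (E1.filter (fun e => e.2 = j ∧ e ∉ P)).card)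
    (hT : (M3 \ E0).card + KH.card ≤ T) :
    ∃ N : Finset (Edge m n), N ⊆ E1 ∧ (∀ e ∈ N, e ∉ P) ∧ IsM E0 E1 (M3 ∪ N) ∧
      ∀ j ∈ KH, ∃ e ∈ M3 ∪ N, e.2 = j := by
  set B := KH.filter (fun j => ¬ ∃ e ∈ M3, e.2 = j) with hB
  let O : Fin n → Finset (Fin m) := fun j =>
    ((E1.filter (fun e => e.2 = j ∧ e ∉ P)).image Prod.fst) \ ((M3 \ E0).image Prod.fst)
  have hO : ∀ j ∈ B, KH.card ≤ (O j).card := by
    intro j hj
    obtain ⟨h1, h2⟩ := Finset.mem_filter.1 hj
    have h3 := (hH j h1).resolve_left h2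
    have h4 : ((E1.filter (fun e => e.2 = j ∧ e ∉ P)).image Prod.fst).card =
        (E1.filter (fun e => e.2 = j ∧ e ∉ P)).card := by
      refine Finset.card_image_of_injOn ?_
      intro e he f hf hef
      have he' := (Finset.mem_filter.1 he).2.1
      have hf' := (Finset.mem_filter.1 hf).2.1
      exact Prod.ext hef (he'.trans hf'.symm)
    have h5 : ((M3 \ E0).image Prod.fst).card ≤ (M3 \ E0).card := Finset.card_image_le
    have h6 := Finset.le_card_sdiff ((M3 \ E0).image Prod.fst)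
      ((E1.filter (fun e => e.2 = j ∧ e ∉ P)).image Prod.fst)
    have h7 : (O j).card = (((E1.filter (fun e => e.2 = j ∧ e ∉ P)).image Prod.fst) \
      ((M3 \ E0).image Prod.fst)).card := rfl
    omega
  have hall : ∀ s : Finset {j // j ∈ B}, s.card ≤ (s.biUnion (fun j => O j.1)).card := by
    intro s
    rcases s.eq_empty_or_nonempty with rfl | ⟨x, hx⟩
    · simp
    · have h1 : s.card ≤ B.card := by
        have := Finset.card_le_univ s
        rwa [Fintype.card_coe] at this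
      have h2 : B.card ≤ KH.card := Finset.card_filter_le _ _
      have h3 := Finset.card_le_card (Finset.subset_biUnion_of_mem (fun j : {j // j ∈ B} => O j.1) hx)
      exact h1.trans (h2.trans ((hO x.1 x.2).trans h3))
  obtain ⟨g, hg1, hg2⟩ := (Finset.all_card_le_biUnion_card_iff_exists_injective _).1 hall
  have hg3 : ∀ x : {j // j ∈ B}, (g x, x.1) ∈ E1 ∧ (g x, x.1) ∉ P ∧ ∀ e ∈ M3, e ∉ E0 → e.1 ≠ g x := by
    intro x
    obtain ⟨h1, h2⟩ := Finset.mem_sdiff.1 (hg2 x)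
    obtain ⟨e, he, he2⟩ := Finset.mem_image.1 h1
    obtain ⟨he3, he4, he5⟩ := Finset.mem_filter.1 he
    have hee : e = (g x, x.1) := Prod.ext he2 he4
    refine ⟨hee ▸ he3, hee ▸ he5, fun e' he' h0 h => h2 ?_⟩
    exact Finset.mem_image.2 ⟨e', Finset.mem_sdiff.2 ⟨he', h0⟩, h⟩
  let N : Finset (Edge m n) := univ.image (fun x : {j // j ∈ B} => ((g x, x.1) : Edge m n))
  have hN : ∀ e ∈ N, ∃ x : {j // j ∈ B}, e = (g x, x.1) := by
    intro e he
    obtain ⟨x, _, hx⟩ := Finset.mem_image.1 he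
    exact ⟨x, hx.symm⟩
  have hNE : N ⊆ E1 := by
    intro e he
    obtain ⟨x, rfl⟩ := hN e he
    exact (hg3 x).1
  refine ⟨N, hNE, ?_, ?_, ?_⟩
  · intro e he
    obtain ⟨x, rfl⟩ := hN e he
    exact (hg3 x).2.1
  · refine hM3.union hNE ?_ ?_
    · intro e he e' he' hee
      obtain ⟨x, rfl⟩ := hN e he
      obtain ⟨y, rfl⟩ := hN e' he'
      rcases hee with h | h
      · have : x = y := hg1 h
        rw [this]
      · have : x = y := Subtype.ext h
        rw [this]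
    · intro e he e' he'
      obtain ⟨x, rfl⟩ := hN e' he'
      refine ⟨fun h => ?_, fun h => (Finset.mem_filter.1 x.2).2 ⟨e, he, h⟩⟩
      by_cases h0 : e ∈ E0
      · exact (hsep e h0 _ (hNE he')).1 h
      · exact (hg3 x).2.2 e he h0 h
  · intro j hj
    by_cases h : ∃ e ∈ M3, e.2 = j
    · obtain ⟨e, he, h1⟩ := h
      exact ⟨e, Finset.mem_union_left _ he, h1⟩
    · have hjB : j ∈ B := Finset.mem_filter.2 ⟨hj, h⟩
      exact ⟨(g ⟨j, hjB⟩, j), Finset.mem_union_right _ (Finset.mem_image.2 ⟨⟨j, hjB⟩, Finset.mem_univ _, rfl⟩),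
        rfl⟩

/-- Extension of a matching by good edges. -/
theorem ext_exists {E0 E1 M2 P : Finset (Edge m n)} {FH : Finset (Fin n)} {c S T : ℕ}
    (hM2 : IsM E0 E1 M2) (hsep : ∀ e ∈ E0, ∀ f ∈ E1, e.1 ≠ f.1 ∧ e.2 ≠ f.2)
    (hexp : ∀ A : Finset (Fin m), A.card ≤ S →
      ∑ i ∈ A, (opts E1 i).card ≤ (A.biUnion (opts E1)).card + c * A.card)
    (hFH : ∀ e ∈ M2, e ∈ E0 ∨ e.2 ∈ FH) (KP : Finset (Fin m)) (KH : Finset (Fin n)) (hKP : KP.card ≤ S)
    (hP : ∀ i ∈ KP, (∃ e ∈ M2, e.1 = i) ∨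
      c + 1 ≤ ((opts E1 i).filter (fun j => (i, j) ∉ P ∧ j ∉ FH)).card)
    (hH : ∀ j ∈ KH, (∃ e ∈ M2, e.2 = j) ∨ T ≤ (E1.filter (fun e => e.2 = j ∧ e ∉ P)).card)
    (hT : (M2 \ E0).card + KP.card + KH.card ≤ T) :
    ∃ M : Finset (Edge m n), IsM E0 E1 M ∧ M2 ⊆ M ∧ Cov M KP KH ∧ ∀ e ∈ M, e ∉ M2 → e ∈ E1 ∧ e ∉ P := by
  obtain ⟨N, hN1, hN2, hN3, hN4, hN5⟩ := cover_pigeons hM2 hsep hexp hFH KP hKP hP
  have hcard : ((M2 ∪ N) \ E0).card ≤ (M2 \ E0).card + KP.card := by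
    rw [Finset.union_sdiff_distrib]
    refine (Finset.card_union_le _ _).trans (Nat.add_le_add_left ?_ _)
    exact (Finset.card_le_card Finset.sdiff_subset).trans hN2
  obtain ⟨N', hN1', hN3', hN4', hN5'⟩ := cover_holes (P := P) (T := T) hN4 hsep KH (by
    intro j hj
    rcases hH j hj with ⟨e, he, h1⟩ | h1
    · exact Or.inl ⟨e, Finset.mem_union_left _ he, h1⟩
    · exact Or.inr h1) (by omega)
  refine ⟨M2 ∪ N ∪ N', hN4', ?_, ⟨?_, hN5'⟩, ?_⟩
  · exact Finset.subset_union_left.trans Finset.subset_union_left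
  · intro i hi
    obtain ⟨e, he, h1⟩ := hN5 i hi
    exact ⟨e, Finset.mem_union_left _ he, h1⟩
  · intro e he he2
    rcases Finset.mem_union.1 he with h | h
    · rcases Finset.mem_union.1 h with h | h
      · exact absurd h he2
      · exact ⟨hN1 h, hN3 e h⟩
    · exact ⟨hN1' h, hN3' e h⟩

end

end Pool.Agent.Work.MP_833881_lb
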