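import Pool.Agent.Work.MP_833881_lb.Prob

/-!
# Block EXP: few repetitions among the samples of a small set of pigeons
-/

namespace Pool.Agent.Work.MP_833881_lb

open Finset Pool.Agent.Work.MP_833881_lc
open scoped Classical

/-- On a set `R` of coordinates the values are copied from coordinates outside `R`. -/
lemma exp_copy {m h s : ℕ} (hh : 1 ≤ h) (R : Finset (Fin m × Fin s))
    (φ : ∀ r ∈ R, Fin m × Fin s) :
    pr (fun ω : Fin m → Fin s → Fin h × Bool => ∀ r (hr : r ∈ R), φ r hr ∉ R ∧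
      ω r.1 r.2 = ω (φ r hr).1 (φ r hr).2) ≤ (1 / (2 * (h : ℝ))) ^ R.card := by
  have hne : Nonempty (Fin h) := ⟨⟨0, hh⟩⟩
  obtain ⟨p, hp⟩ : ∃ p : (Fin m → Fin s → Fin h × Bool) → Prop, p =
    (fun ω => ∀ r (hr : r ∈ R), φ r hr ∉ R ∧ ω r.1 r.2 = ω (φ r hr).1 (φ r hr).2) := ⟨_, rfl⟩
  have hinj : ((univ.filter p) ×ˢ (univ : Finset ({r // r ∈ R} → Fin h × Bool))).card ≤
      (univ : Finset (Fin m → Fin s → Fin h × Bool)).card := by
    refine Finset.card_le_card_of_injOn
      (fun w : (Fin m → Fin s → Fin h × Bool) × ({r // r ∈ R} → Fin h × Bool) =>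
        fun i l => if hr : (i, l) ∈ R then w.2 ⟨(i, l), hr⟩ else w.1 i l)
      (fun _ _ => by simp) ?_
    rintro ⟨ω, v⟩ h1 ⟨ω', v'⟩ h2 h
    simp only [Finset.coe_product, Finset.coe_filter, Finset.mem_univ, true_and, Finset.coe_univ,
      Set.mem_prod, Set.mem_ofPred_eq, Set.mem_univ, and_true] at h1 h2
    rw [hp] at h1 h2
    simp only at h
    have hout : ∀ r : Fin m × Fin s, r ∉ R → ω r.1 r.2 = ω' r.1 r.2 := by
      intro r hr
      have := congrFun (congrFun h r.1) r.2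
      have hr' : ¬ (r.1, r.2) ∈ R := hr
      rwa [dif_neg hr', dif_neg hr'] at this
    have hv : v = v' := by
      funext r
      obtain ⟨r, hr⟩ := r
      have := congrFun (congrFun h r.1) r.2
      have hr' : (r.1, r.2) ∈ R := hr
      rw [dif_pos hr', dif_pos hr'] at this
      exact this
    refine Prod.ext ?_ hv
    funext i l
    by_cases hr : (i, l) ∈ R
    · have e1 := (h1 (i, l) hr).2
      have e2 := (h2 (i, l) hr).2
      have e3 := hout _ (h1 (i, l) hr).1
      simp only at e1 e2 e3 ⊢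
      rw [e1, e2, e3]
    · exact hout (i, l) hr
  rw [Finset.card_product, Finset.card_univ, Finset.card_univ, Fintype.card_fun, Fintype.card_prod,
    Fintype.card_fin, Fintype.card_bool, Fintype.card_coe] at hinj
  have hpos : (0 : ℝ) < Fintype.card (Fin m → Fin s → Fin h × Bool) := by
    exact_mod_cast Fintype.card_pos
  have hh' : (0 : ℝ) < (2 * (h : ℝ)) ^ R.card := by
    have : (0 : ℝ) < h := by exact_mod_cast hh
    positivity
  have hfin : pr p ≤ (1 / (2 * (h : ℝ))) ^ R.card := by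
    rw [pr_eq, one_div, inv_pow, div_le_iff₀ hpos, inv_mul_eq_div, le_div_iff₀ hh']
    have e : ((2 * (h : ℝ)) ^ R.card) = (((h * 2) ^ R.card : ℕ) : ℝ) := by
      push_cast
      ring
    rw [e]
    exact_mod_cast hinj
  rw [hp] at hfin
  exact hfin

/-- The deterministic part: representatives of the fibres. -/
lemma exp_repr {α β : Type} [DecidableEq α] [DecidableEq β] (S : Finset α) (f : α → β) (k : ℕ)
    (hk : (S.image f).card + k < S.card) :
    ∃ R ⊆ S, R.card = k ∧ ∃ φ : α → α, ∀ r ∈ R, φ r ∈ S ∧ φ r ∉ R ∧ f r = f (φ r) := by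
  have hSne : S.Nonempty := Finset.card_pos.mp (by omega)
  have hα : Nonempty α := ⟨hSne.choose⟩
  have hrep : ∀ b ∈ S.image f, ∃ a ∈ S, f a = b := by
    intro b hb
    exact Finset.mem_image.mp hb
  choose! g hg1 hg2 using hrep
  have hcard : k ≤ (S \ (S.image f).image g).card := by
    have h1 := Finset.le_card_sdiff ((S.image f).image g) S
    have h2 : ((S.image f).image g).card ≤ (S.image f).card := Finset.card_image_le
    omega
  obtain ⟨R, hR1, hR2⟩ := Finset.exists_subset_card_eq hcard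
  refine ⟨R, hR1.trans Finset.sdiff_subset, hR2, fun a => g (f a), ?_⟩
  intro r hr
  have hrS : r ∈ S := (Finset.mem_sdiff.mp (hR1 hr)).1
  have hfr : f r ∈ S.image f := Finset.mem_image_of_mem f hrS
  refine ⟨hg1 _ hfr, ?_, (hg2 _ hfr).symm⟩
  intro hcon
  exact (Finset.mem_sdiff.mp (hR1 hcon)).2 (Finset.mem_image_of_mem g hfr)

/-- One set of pigeons. -/
lemma exp_one {m n h s : ℕ} (hl : Fin h → Fin n) (c q : ℕ) (hinj : Function.Injective hl) (hh : 1 ≤ h)
    (A : Finset (Fin m)) (hA : A.card = q) :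
    pr (fun ω : Fin m → Fin s → Fin h × Bool =>
      (univ.filter (fun j => ∃ i ∈ A, ∃ l, (ω i l).2 = true ∧ hl (ω i l).1 = j)).card + c * q <
        ∑ i ∈ A, alive hl ∅ ω i) ≤
      2 ^ (q * s) * (((q * s : ℕ) : ℝ) ^ (c * q) * (1 / (2 * (h : ℝ))) ^ (c * q)) := by
  have hAs : (A ×ˢ (univ : Finset (Fin s))).card = q * s := by
    rw [Finset.card_product, hA, Finset.card_univ, Fintype.card_fin]
  have h1 : pr (fun ω : Fin m → Fin s → Fin h × Bool =>
      (univ.filter (fun j => ∃ i ∈ A, ∃ l, (ω i l).2 = true ∧ hl (ω i l).1 = j)).card + c * q <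
        ∑ i ∈ A, alive hl ∅ ω i) ≤
      pr (fun ω : Fin m → Fin s → Fin h × Bool =>
        ∃ R ∈ (A ×ˢ (univ : Finset (Fin s))).powerset, R.card = c * q ∧
          ∃ φ ∈ R.pi (fun _ => A ×ˢ (univ : Finset (Fin s))), ∀ r (hr : r ∈ R), φ r hr ∉ R ∧
            ω r.1 r.2 = ω (φ r hr).1 (φ r hr).2) := by
    refine pr_mono ?_
    intro ω hω
    obtain ⟨S, hS⟩ : ∃ S : Finset (Fin m × Fin s), S =
      (A ×ˢ (univ : Finset (Fin s))).filter (fun r => (ω r.1 r.2).2 = true) := ⟨_, rfl⟩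
    have hSc : S.card = ∑ i ∈ A, alive hl ∅ ω i := by
      rw [hS, Finset.card_filter, Finset.sum_product]
      refine Finset.sum_congr rfl (fun i _ => ?_)
      unfold alive
      rw [Finset.card_filter]
      refine Finset.sum_congr rfl (fun l _ => ?_)
      simp
    have hSi : (S.image (fun r => hl (ω r.1 r.2).1)) =
        (univ.filter (fun j => ∃ i ∈ A, ∃ l, (ω i l).2 = true ∧ hl (ω i l).1 = j)) := by
      ext j
      rw [hS]
      simp only [Finset.mem_image, Finset.mem_filter, Finset.mem_product, Finset.mem_univ, and_true,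
        true_and, Prod.exists]
      constructor
      · rintro ⟨i, l, ⟨hi, hb⟩, rfl⟩
        exact ⟨i, hi, l, hb, rfl⟩
      · rintro ⟨i, hi, l, hb, rfl⟩
        exact ⟨i, l, ⟨hi, hb⟩, rfl⟩
    rw [← hSi, ← hSc] at hω
    obtain ⟨R, hR1, hR2, φ, hφ⟩ := exp_repr S _ _ hω
    have hSA : S ⊆ A ×ˢ (univ : Finset (Fin s)) := by
      rw [hS]; exact Finset.filter_subset _ _
    refine ⟨R, Finset.mem_powerset.mpr (hR1.trans hSA), hR2, fun r _ => φ r, ?_, ?_⟩
    · rw [Finset.mem_pi]
      intro r hr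
      exact hSA (hφ r hr).1
    · intro r hr
      obtain ⟨h2, h3, h4⟩ := hφ r hr
      refine ⟨h3, ?_⟩
      have hr' := hR1 hr
      rw [hS] at h2 hr'
      refine Prod.ext (hinj h4) ?_
      rw [(Finset.mem_filter.mp hr').2, (Finset.mem_filter.mp h2).2]
  refine h1.trans ((pr_exists_le_card _ _
    (((q * s : ℕ) : ℝ) ^ (c * q) * (1 / (2 * (h : ℝ))) ^ (c * q)) ?_).trans (le_of_eq ?_))
  · intro R hR
    by_cases hRc : R.card = c * q
    · have h2 : pr (fun ω : Fin m → Fin s → Fin h × Bool => R.card = c * q ∧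
          ∃ φ ∈ R.pi (fun _ => A ×ˢ (univ : Finset (Fin s))), ∀ r (hr : r ∈ R), φ r hr ∉ R ∧
            ω r.1 r.2 = ω (φ r hr).1 (φ r hr).2) ≤
          pr (fun ω : Fin m → Fin s → Fin h × Bool =>
          ∃ φ ∈ R.pi (fun _ => A ×ˢ (univ : Finset (Fin s))), ∀ r (hr : r ∈ R), φ r hr ∉ R ∧
            ω r.1 r.2 = ω (φ r hr).1 (φ r hr).2) := pr_mono (fun ω hω => hω.2)
      refine h2.trans ((pr_exists_le_card _ _ ((1 / (2 * (h : ℝ))) ^ (c * q)) ?_).trans (le_of_eq ?_))
      · intro φ _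
        rw [← hRc]
        exact exp_copy hh R φ
      · rw [Finset.card_pi, Finset.prod_const, hAs, hRc]
        push_cast
        ring
    · rw [pr_false (fun ω hω => hRc hω.1)]
      positivity
  · rw [Finset.card_powerset, hAs]
    push_cast
    ring

/-- **EXP** -/
theorem stmt_EXP : Stmt_EXP := by
  intro m n h s hl c q hinj hh
  have h1 : pr (fun ω : Fin m → Fin s → Fin h × Bool => ∃ A : Finset (Fin m), A.card = q ∧
      (univ.filter (fun j => ∃ i ∈ A, ∃ l, (ω i l).2 = true ∧ hl (ω i l).1 = j)).card + c * q <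
        ∑ i ∈ A, alive hl ∅ ω i) ≤
      pr (fun ω : Fin m → Fin s → Fin h × Bool => ∃ A ∈ (univ : Finset (Fin m)).powersetCard q,
      (univ.filter (fun j => ∃ i ∈ A, ∃ l, (ω i l).2 = true ∧ hl (ω i l).1 = j)).card + c * q <
        ∑ i ∈ A, alive hl ∅ ω i) := by
    refine pr_mono ?_
    rintro ω ⟨A, hA, hω⟩
    exact ⟨A, Finset.mem_powersetCard.mpr ⟨Finset.subset_univ _, hA⟩, hω⟩
  refine h1.trans ((pr_exists_le_card _ _
    (2 ^ (q * s) * (((q * s : ℕ) : ℝ) ^ (c * q) * (1 / (2 * (h : ℝ))) ^ (c * q))) ?_).trans ?_)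
  · intro A hA
    exact exp_one hl c q hinj hh A (Finset.mem_powersetCard.mp hA).2
  · rw [Finset.card_powersetCard, Finset.card_univ, Fintype.card_fin]
    have h2 : ((m.choose q : ℕ) : ℝ) ≤ (m : ℝ) ^ q := by
      exact_mod_cast Nat.choose_le_pow m q
    refine (mul_le_mul_of_nonneg_right h2 (by positivity)).trans (le_of_eq ?_)
    rw [mul_pow, mul_pow, ← pow_mul, ← pow_mul, ← mul_pow, mul_comm q s, mul_assoc]
    congr 2
    congr 1
    push_cast
    ring

end Pool.Agent.Work.MP_833881_lb
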