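import Pool.Agent.Work.MP_833881_lb.Interface

/-!
# Block FIN: the final assembly
-/

namespace Pool.Agent.Work.MP_833881_lb

open Finset Pool.Agent.Work.MP_833881_lc
open scoped Classical

noncomputable section

/-- The bound for the number of lines in terms of the integer parameters. -/
theorem FIN_exp (n a : ℕ) (x y : ℝ) (ha : 3 ≤ a) (hax : (a : ℝ) ≤ x) (h6 : a ^ 6 ≤ n) (hy : y * x ^ 4 ≤ n) :
    Real.exp y ≤ 2 ^ (n / a ^ 3) := by
  have ha3 : 0 < a ^ 3 := by positivity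
  have h36 : a ^ 3 ≤ n := le_trans (Nat.pow_le_pow_right (by omega) (by norm_num)) h6
  have hq1 : 1 ≤ n / a ^ 3 := (Nat.one_le_div_iff ha3).2 h36
  have hq2 : n ≤ 2 * (a ^ 3 * (n / a ^ 3)) := by
    have h1 := Nat.div_add_mod n (a ^ 3)
    have h2 := Nat.mod_lt n ha3
    have h3 : a ^ 3 * 1 ≤ a ^ 3 * (n / a ^ 3) := Nat.mul_le_mul_left _ hq1
    omega
  have hx3 : (3 : ℝ) ≤ x := le_trans (by exact_mod_cast ha) hax
  have hx0 : (0 : ℝ) < x := by linarith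
  have ha0 : (0 : ℝ) ≤ a := Nat.cast_nonneg _
  have hq3 : (n : ℝ) ≤ 2 * (x ^ 3 * ((n / a ^ 3 : ℕ) : ℝ)) := by
    have h1 : (n : ℝ) ≤ 2 * ((a : ℝ) ^ 3 * ((n / a ^ 3 : ℕ) : ℝ)) := by exact_mod_cast hq2
    have h2 : (a : ℝ) ^ 3 ≤ x ^ 3 := pow_le_pow_left₀ ha0 hax 3
    have h3 : (0 : ℝ) ≤ ((n / a ^ 3 : ℕ) : ℝ) := Nat.cast_nonneg _
    nlinarith [mul_le_mul_of_nonneg_right h2 h3]
  have hlog : (0.6931471803 : ℝ) < Real.log 2 := Real.log_two_gt_d9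
  have hy2 : y ≤ Real.log 2 * ((n / a ^ 3 : ℕ) : ℝ) := by
    have h3 : (0 : ℝ) ≤ ((n / a ^ 3 : ℕ) : ℝ) := Nat.cast_nonneg _
    have h4 : y * x ^ 4 ≤ (Real.log 2 * ((n / a ^ 3 : ℕ) : ℝ)) * x ^ 4 := by
      refine hy.trans (hq3.trans ?_)
      have h5 : 2 ≤ Real.log 2 * x := by nlinarith
      have h6 : 0 ≤ x ^ 3 * ((n / a ^ 3 : ℕ) : ℝ) := by positivity
      calc 2 * (x ^ 3 * ((n / a ^ 3 : ℕ) : ℝ)) ≤ (Real.log 2 * x) * (x ^ 3 * ((n / a ^ 3 : ℕ) : ℝ)) :=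
            mul_le_mul_of_nonneg_right h5 h6
        _ = (Real.log 2 * ((n / a ^ 3 : ℕ) : ℝ)) * x ^ 4 := by ring
    exact le_of_mul_le_mul_right h4 (by positivity)
  refine (Real.exp_le_exp.2 hy2).trans (le_of_eq ?_)
  rw [mul_comm, Real.exp_nat_mul, Real.exp_log (by norm_num)]

theorem stmt_FIN (hDET : Stmt_DET) (hWLD : Stmt_WLD) : Stmt_MAIN := by
  intro ε δ hε hδ
  obtain ⟨K0, hK0⟩ := exists_nat_gt (max (5 / ε) (4 / δ))
  let K : ℕ := max 6 K0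
  have hK6 : 6 ≤ K := le_max_left _ _
  have hKK : (K0 : ℝ) ≤ (K : ℝ) := by exact_mod_cast le_max_right 6 K0
  have hKpos : (0 : ℝ) < (K : ℝ) := by exact_mod_cast (by omega : 0 < K)
  have hKε : (K : ℝ)⁻¹ * ((5 : ℕ) : ℝ) ≤ ε := by
    have h1 : 5 / ε ≤ (K : ℝ) := (le_max_left _ _).trans (hK0.le.trans hKK)
    rw [div_le_iff₀ hε] at h1
    rw [inv_mul_le_iff₀ hKpos]
    push_cast
    exact h1
  have hKδ : (K : ℝ)⁻¹ * ((4 : ℕ) : ℝ) ≤ δ := by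
    have h1 : 4 / δ ≤ (K : ℝ) := (le_max_right _ _).trans (hK0.le.trans hKK)
    rw [div_le_iff₀ hδ] at h1
    rw [inv_mul_le_iff₀ hKpos]
    push_cast
    exact h1
  obtain ⟨a0, ha0⟩ := hWLD (2 * K) (by omega)
  let B : ℕ := max a0 24
  have hB24 : 24 ≤ B := le_max_right _ _
  have hBa0 : a0 ≤ B := le_max_left _ _
  refine ⟨B ^ K, fun n hn π hπ hU => ?_⟩
  have hK0' : K ≠ 0 := by omega
  have hn1 : 1 ≤ n := le_trans (Nat.one_le_pow _ _ (by omega)) hn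
  have hnR : (1 : ℝ) ≤ (n : ℝ) := by exact_mod_cast hn1
  have hn0 : (0 : ℝ) < (n : ℝ) := by linarith
  let x : ℝ := (n : ℝ) ^ ((K : ℝ)⁻¹)
  have hx0 : 0 ≤ x := Real.rpow_nonneg hn0.le _
  have hxK : x ^ K = n := Real.rpow_inv_natCast_pow hn0.le hK0'
  let a : ℕ := ⌊x⌋₊
  have hax : (a : ℝ) ≤ x := Nat.floor_le hx0
  have hxa : x < (a : ℝ) + 1 := Nat.lt_floor_add_one x
  have hBx : (B : ℝ) ≤ x := by
    by_contra hcon
    push Not at hcon
    have h1 : x ^ K < (B : ℝ) ^ K := pow_lt_pow_left₀ hcon hx0 hK0'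
    rw [hxK] at h1
    have h2 : ((B ^ K : ℕ) : ℝ) ≤ (n : ℝ) := by exact_mod_cast hn
    push_cast at h2
    linarith
  have hBa : B ≤ a := Nat.le_floor hBx
  have ha24 : 24 ≤ a := hB24.trans hBa
  have haK : a ^ K ≤ n := by
    have h1 : (a : ℝ) ^ K ≤ x ^ K := pow_le_pow_left₀ (Nat.cast_nonneg _) hax K
    rw [hxK] at h1
    exact_mod_cast h1
  have ha6 : a ^ 6 ≤ n := (Nat.pow_le_pow_right (by omega) hK6).trans haK
  have hnaC : n ≤ a ^ (2 * K) := by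
    have h1 : x ^ K ≤ ((a : ℝ) + 1) ^ K := pow_le_pow_left₀ hx0 hxa.le K
    rw [hxK] at h1
    have h2 : n ≤ (a + 1) ^ K := by exact_mod_cast h1
    have h3 : a + 1 ≤ a ^ 2 := by nlinarith
    exact h2.trans (by rw [pow_mul]; exact Nat.pow_le_pow_left h3 K)
  by_contra hcon
  push Not at hcon
  have hx5 : x ^ 5 ≤ (n : ℝ) ^ ε := by
    change ((n : ℝ) ^ ((K : ℝ)⁻¹)) ^ 5 ≤ (n : ℝ) ^ ε
    rw [← Real.rpow_mul_natCast hn0.le]
    exact Real.rpow_le_rpow_of_exponent_le hnR hKε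
  have hx4 : x ^ 4 ≤ (n : ℝ) ^ δ := by
    change ((n : ℝ) ^ ((K : ℝ)⁻¹)) ^ 4 ≤ (n : ℝ) ^ δ
    rw [← Real.rpow_mul_natCast hn0.le]
    exact Real.rpow_le_rpow_of_exponent_le hnR hKδ
  have ha5 : ((a ^ 5 : ℕ) : ℝ) ≤ (n : ℝ) ^ ε := by
    push_cast
    exact (pow_le_pow_left₀ (Nat.cast_nonneg _) hax 5).trans hx5
  have hexp : Real.exp ((n : ℝ) ^ (1 - δ)) ≤ 2 ^ (n / a ^ 3) := by
    refine FIN_exp n a x _ (by omega) hax ha6 ?_
    refine (mul_le_mul_of_nonneg_left hx4 (Real.rpow_nonneg hn0.le _)).trans ?_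
    rw [← Real.rpow_add hn0]
    simp
  choose! U hU1 hU2 using hU
  let L : Finset (Line (Edge (n ^ 2) n)) := π.toFinset
  have hLc : L.card ≤ 2 ^ (n / a ^ 3) := by
    have h1 : L.card ≤ π.length := List.toFinset_card_le π
    have h2 : (π.length : ℝ) ≤ 2 ^ (n / a ^ 3) := hcon.le.trans hexp
    have h3 : π.length ≤ 2 ^ (n / a ^ 3) := by exact_mod_cast h2
    exact h1.trans h3
  have hsp : Sparse L a U := by
    refine ⟨fun D hD t ht => (hπ.dnf D (List.mem_toFinset.1 hD) t ht).2, fun D hD => ⟨?_, ?_⟩⟩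
    · have h1 := hU1 D (List.mem_toFinset.1 hD)
      have h2 : (((U D).card * a ^ 5 : ℕ) : ℝ) ≤ ((n ^ 2 : ℕ) : ℝ) := by
        rw [Nat.cast_mul]
        refine (mul_le_mul h1 ha5 (Nat.cast_nonneg _) (Real.rpow_nonneg hn0.le _)).trans ?_
        rw [← Real.rpow_add hn0]
        have h3 : (2 : ℝ) - ε + ε = ((2 : ℕ) : ℝ) := by
          push_cast
          ring
        rw [h3, Real.rpow_natCast]
        push_cast
        exact le_rfl
      exact_mod_cast h2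
    · have h1 := hU2 D (List.mem_toFinset.1 hD)
      have h2 : (((QU D (U D)).card * a ^ 5 : ℕ) : ℝ) ≤ ((n ^ 3 : ℕ) : ℝ) := by
        rw [Nat.cast_mul]
        have h4 : ((QU D (U D)).card : ℝ) ≤ (n : ℝ) ^ (3 - ε) := by
          refine le_trans ?_ h1
          exact_mod_cast Finset.card_image_le
        refine (mul_le_mul h4 ha5 (Nat.cast_nonneg _) (Real.rpow_nonneg hn0.le _)).trans ?_
        rw [← Real.rpow_add hn0]
        have h3 : (3 : ℝ) - ε + ε = ((3 : ℕ) : ℝ) := by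
          push_cast
          ring
        rw [h3, Real.rpow_natCast]
        push_cast
        exact le_rfl
      exact_mod_cast h2
  obtain ⟨E0, E1, hW⟩ := ha0 a n (hBa0.trans hBa) ha6 hnaC L U hLc hsp
  refine hDET (n ^ 2) n L (n / a ^ 3) (n / a ^ 2) (cc (2 * K)) (rr (2 * K)) (sa (2 * K) a) E0 E1 hW ?_ ?_ ?_ π hπ ?_
  · have h2 : a ^ 2 ≤ n := (Nat.pow_le_pow_right (by omega) (by norm_num)).trans ha6
    exact (Nat.one_le_div_iff (by positivity)).2 h2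
  · have h1 : n / a ^ 3 = n / a ^ 2 / a := by
      rw [Nat.div_div_eq_div_mul, ← pow_succ]
    rw [h1]
    calc 24 * (n / a ^ 2 / a) ≤ a * (n / a ^ 2 / a) := Nat.mul_le_mul_right _ ha24
      _ ≤ n / a ^ 2 := Nat.mul_div_le _ _
  · exact le_rfl
  · intro D hD
    exact List.mem_toFinset.2 hD

end

end Pool.Agent.Work.MP_833881_lb
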