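import Pool.Agent.Work.MP_833881_lb.Prob

/-!
# Block HOL: many free pigeons outside `A` at a free hole are sampled
-/

namespace Pool.Agent.Work.MP_833881_lb

open Finset Pool.Agent.Work.MP_833881_lc
open scoped Classical

noncomputable section

/-- The probability that some sample is `(x, true)`. -/
theorem HOL_one {h s : ℕ} (x : Fin h) (hs : 1 ≤ s) :
    1 / (2 * (h : ℝ)) ≤ pr (fun v : Fin s → Fin h × Bool => ∃ l, v l = (x, true)) := by
  have hh : 1 ≤ h := Nat.one_le_iff_ne_zero.2 (fun h0 => by subst h0; exact x.elim0)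
  have : Nonempty (Fin h × Bool) := ⟨(x, true)⟩
  have key := pr_prescribed (ι := Fin s) (α := Fin h × Bool) {⟨0, hs⟩} (fun _ => (x, true))
  rw [Finset.card_singleton, pow_one, Fintype.card_prod, Fintype.card_fin, Fintype.card_bool] at key
  have h2 : (1 / (2 * (h : ℝ))) = 1 / (((h * 2 : ℕ) : ℝ)) := by
    push_cast
    rw [mul_comm]
  rw [h2, ← key]
  refine pr_mono ?_
  intro v hv
  exact ⟨⟨0, hs⟩, hv _ (Finset.mem_singleton_self _)⟩

/-- The average of a function which is `a` on `p` and `b` outside. -/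
theorem avg_ite {α : Type} [Fintype α] [Nonempty α] (p : α → Prop) [DecidablePred p] (a b : ℝ) :
    (∑ x : α, if p x then a else b) / Fintype.card α = b + (a - b) * pr p := by
  have h1 : ∀ x : α, (if p x then a else b) = b + (a - b) * (if p x then 1 else 0) := by
    intro x
    by_cases h : p x
    · rw [if_pos h, if_pos h]
      ring
    · rw [if_neg h, if_neg h]
      ring
  rw [Finset.sum_congr rfl (fun x _ => h1 x), Finset.sum_add_distrib, ← Finset.mul_sum, Finset.sum_const,
    Finset.card_univ, nsmul_eq_mul, ← Finset.sum_filter, Finset.sum_const, nsmul_eq_mul, mul_one, add_div,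
    mul_div_assoc]
  have h2 : (Fintype.card α : ℝ) ≠ 0 := by exact_mod_cast Fintype.card_ne_zero
  rw [pr_eq p]
  congr 1
  · field_simp
  · rw [mul_div_assoc]

theorem stmt_HOL : Stmt_HOL := by
  intro m n h s hl P0 A x N t hs hN
  have hh : 1 ≤ h := Nat.one_le_iff_ne_zero.2 (fun h0 => by subst h0; exact x.elim0)
  have hne : Nonempty (Fin h × Bool) := ⟨(x, true)⟩
  let G : Finset (Fin m) := univ.filter (fun i : Fin m => i ∉ P0 ∧ (i, hl x) ∉ A)
  let f : Fin m → (Fin s → Fin h × Bool) → ℝ := fun i v =>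
    if i ∈ G then (if ∃ l, v l = (x, true) then 1 / 2 else 1) else 1
  have key := pr_le_of_prod (p := fun ω : Fin m → Fin s → Fin h × Bool =>
    ((E1 hl P0 ω).filter (fun e => e.2 = hl x ∧ e ∉ A)).card ≤ t) f ((1 / 2) ^ t) (by positivity)
    (by
      intro i v
      change 0 ≤ (if i ∈ G then (if ∃ l, v l = (x, true) then (1 / 2 : ℝ) else 1) else 1)
      split_ifs <;> norm_num)
    (by
      intro ω hω
      have h1 : ∏ i, f i (ω i) = (1 / 2) ^ (G.filter (fun i => ∃ l, ω i l = (x, true))).card := by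
        rw [← Finset.prod_const, Finset.prod_filter]
        change ∏ i, (if i ∈ G then (if ∃ l, ω i l = (x, true) then (1 / 2 : ℝ) else 1) else 1) = _
        rw [← Finset.prod_filter]
        rw [Finset.filter_mem_eq_inter, Finset.univ_inter]
      rw [h1]
      refine pow_le_pow_of_le_one (by norm_num) (by norm_num) ?_
      refine le_trans ?_ hω
      refine Finset.card_le_card_of_injOn (fun i => (i, hl x)) ?_ ?_
      · intro i hi
        obtain ⟨hiG, l, hl'⟩ := Finset.mem_filter.1 hi
        obtain ⟨_, hP, hA⟩ := Finset.mem_filter.1 hiG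
        refine Finset.mem_filter.2 ⟨Finset.mem_filter.2 ⟨Finset.mem_univ _, hP, l, ?_, ?_⟩, rfl, hA⟩
        · rw [hl']
        · rw [hl']
      · intro a _ b _ hab
        exact (Prod.mk.inj hab).1)
  refine key.trans ?_
  have h0 : (0 : ℝ) ≤ 1 - 1 / (4 * (h : ℝ)) := by
    have : (1 : ℝ) ≤ h := by exact_mod_cast hh
    have h4 : 1 / (4 * (h : ℝ)) ≤ 1 := by
      rw [div_le_one (by positivity)]
      linarith
    linarith
  have h0' : (1 : ℝ) - 1 / (4 * (h : ℝ)) ≤ 1 := by
    have : (0 : ℝ) ≤ 1 / (4 * (h : ℝ)) := by positivity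
    linarith
  have h2 : ∀ i, ((∑ v, f i v) / (Fintype.card (Fin s → Fin h × Bool) : ℝ)) ≤
      if i ∈ G then (1 - 1 / (4 * (h : ℝ))) else 1 := by
    intro i
    by_cases hi : i ∈ G
    · rw [if_pos hi]
      have h3 : ∀ v, f i v = if ∃ l, v l = (x, true) then (1 / 2 : ℝ) else 1 := by
        intro v
        exact if_pos hi
      rw [Finset.sum_congr rfl (fun v _ => h3 v), avg_ite]
      have h5 := HOL_one x hs
      have h6 : 1 / (4 * (h : ℝ)) = (1 / (2 * (h : ℝ))) / 2 := by
        field_simp
        norm_num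
      rw [h6]
      linarith
    · rw [if_neg hi]
      have h3 : ∀ v, f i v = 1 := by
        intro v
        exact if_neg hi
      rw [Finset.sum_congr rfl (fun v _ => h3 v)]
      simp only [Finset.sum_const, Finset.card_univ, nsmul_eq_mul, mul_one]
      exact div_self_le_one _
  have h7 : ∏ i, ((∑ v, f i v) / (Fintype.card (Fin s → Fin h × Bool) : ℝ)) ≤
      (1 - 1 / (4 * (h : ℝ))) ^ N := by
    refine (Finset.prod_le_prod (fun i _ => ?_) (fun i _ => h2 i)).trans ?_
    · refine div_nonneg (Finset.sum_nonneg (fun v _ => ?_)) (Nat.cast_nonneg _)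
      change 0 ≤ (if i ∈ G then (if ∃ l, v l = (x, true) then (1 / 2 : ℝ) else 1) else 1)
      split_ifs <;> norm_num
    · rw [← Finset.prod_filter, Finset.filter_mem_eq_inter, Finset.univ_inter, Finset.prod_const]
      exact pow_le_pow_of_le_one h0 h0' hN
  rw [div_le_iff₀ (by positivity)]
  refine h7.trans (le_of_eq ?_)
  rw [mul_comm (2 ^ t : ℝ), mul_assoc, ← mul_pow]
  norm_num

end

end Pool.Agent.Work.MP_833881_lb
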