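import Pool.Agent.Work.MP_833881_lc.Defs

/-!
# Lower bound for `R(2)` refutations of `onto-FPHP_n^{n^2}` with sparse lines: definitions and statements of
the blocks

Pigeons are `Fin m`, holes are `Fin n`, variables (edges) are `Fin m × Fin n`.
-/

namespace Pool.Agent.Work.MP_833881_lb

open Finset Pool.Agent.Work.MP_833881_lc
open scoped Classical

set_option linter.unusedSectionVars false

noncomputable section

/-- The edges (variables). -/
abbrev Edge (m n : ℕ) := Fin m × Fin n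

section defs

variable {m n : ℕ}

/-- The holes of pigeon `i` in the edge set `E`. -/
def opts (E : Finset (Edge m n)) (i : Fin m) : Finset (Fin n) := univ.filter (fun j => (i, j) ∈ E)

/-- The effective positive literals of `D`, if the edges of `ξ` are true (and the other partners false). -/
def Pos (D : Line (Edge m n)) (ξ : Finset (Edge m n)) : Finset (Edge m n) :=
  univ.filter (fun f => ∃ t ∈ D, (f, true) ∈ t ∧ ∀ l ∈ t, l ≠ (f, true) →
    l.1 ≠ f ∧ (l.2 = true → l.1 ∈ ξ) ∧ (l.2 = false → l.1 ∉ ξ))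

/-- Free pigeons with fewer than `r` edges outside the positive literals of `D`. -/
def XP (E0 E1 : Finset (Edge m n)) (D : Line (Edge m n)) (ξ : Finset (Edge m n)) (r : ℕ) : Finset (Fin m) :=
  univ.filter (fun i => i ∉ E0.image Prod.fst ∧
    ((opts E1 i).filter (fun j => (i, j) ∉ Pos D ξ)).card < r)

/-- Free pigeons with all edges in the positive literals of `D`. -/
def AD (E0 E1 : Finset (Edge m n)) (D : Line (Edge m n)) (ξ : Finset (Edge m n)) : Finset (Fin m) :=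
  univ.filter (fun i => i ∉ E0.image Prod.fst ∧ ∀ j ∈ opts E1 i, (i, j) ∈ Pos D ξ)

/-- Free holes with fewer than `T` edges outside the positive literals of `D`. -/
def XH (E0 E1 : Finset (Edge m n)) (D : Line (Edge m n)) (ξ : Finset (Edge m n)) (T : ℕ) : Finset (Fin n) :=
  univ.filter (fun j => j ∉ E0.image Prod.snd ∧ (E1.filter (fun e => e.2 = j ∧ e ∉ Pos D ξ)).card < T)

/-- The effective negative terms of `D` (as sets of variables), if the edges of `ξ1` are true and those of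
`ξ0` are false. -/
def NT (D : Line (Edge m n)) (ξ1 ξ0 : Finset (Edge m n)) : Finset (Finset (Edge m n)) :=
  (D.filter (fun t => ∀ l ∈ t, (l.2 = true → l.1 ∈ ξ1) ∧ (l.2 = false → l.1 ∉ ξ1))).image
    (fun t => (t.filter (fun l => l.2 = false ∧ l.1 ∉ ξ0)).image Prod.fst)

/-- The edges of `E1` which are the only survivor of a set of the family `F`. -/
def NSf (E0 E1 : Finset (Edge m n)) (F : Finset (Finset (Edge m n))) : Finset (Edge m n) :=
  E1.filter (fun f => ∃ T ∈ F, T ∩ (E0 ∪ E1) = {f})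

/-- The properties of a good pair of edge sets: `E0` is a matching whose edges are true, `E1` is the set
of the free edges, all other edges are false; `L` is the set of lines. -/
structure World (L : Set (Line (Edge m n))) (z w c r T S d : ℕ) (E0 E1 : Finset (Edge m n)) : Prop where
  mat : ∀ e ∈ E0, ∀ f ∈ E0, (e.1 = f.1 ∨ e.2 = f.2) → e = f
  sep : ∀ e ∈ E0, ∀ f ∈ E1, e.1 ≠ f.1 ∧ e.2 ≠ f.2
  deg_le : ∀ i, (opts E1 i).card ≤ d
  deg_ge : ∀ i, i ∉ E0.image Prod.fst → r ≤ (opts E1 i).card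
  hole_ge : ∀ j, j ∉ E0.image Prod.snd → T ≤ (E1.filter (fun e => e.2 = j)).card
  exp : ∀ A : Finset (Fin m), A.card ≤ S → ∑ i ∈ A, (opts E1 i).card ≤ (A.biUnion (opts E1)).card + c * A.card
  posP : ∀ D ∈ L, ∀ ξ : Finset (Edge m n), ξ.card ≤ 8 * z →
    (XP E0 E1 D ξ r).card < w ∨ 24 * z < (AD E0 E1 D ξ).card
  posH : ∀ D ∈ L, ∀ ξ : Finset (Edge m n), ξ.card ≤ 8 * z →
    (XH E0 E1 D ξ T).card < w ∨ 8 * z < (E0.filter (fun e => e ∈ Pos D ξ)).card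
  neg : ∀ D ∈ L, ∀ ξ1 ξ0 : Finset (Edge m n), ξ1.card ≤ 8 * z → ξ0.card ≤ 8 * z →
    (∃ T ∈ NT D ξ1 ξ0, Disjoint T (E0 ∪ E1)) ∨ (NSf E0 E1 (NT D ξ1 ξ0)).card ≤ w
  cover : ∀ D ∈ L, ∃ H : Finset (Edge m n), H.card ≤ 8 * z ∧ ∀ t ∈ D, ∀ l ∈ t, ∀ l' ∈ t, l.1 ≠ l'.1 →
    l.1 ∈ E0 ∪ E1 → l'.1 ∈ E0 ∪ E1 → l.1 ∈ H ∨ l'.1 ∈ H

/-- The 2-terms of `D` without a variable of `U`, as sets of variables. -/
def QU (D : Line (Edge m n)) (U : Finset (Edge m n)) : Finset (Finset (Edge m n)) :=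
  (D.filter (fun t => t.card = 2 ∧ ∀ l ∈ t, l.1 ∉ U)).image (fun t => t.image Prod.fst)

/-- There are `z` pairwise disjoint sets in the family `Q` with property `p`. -/
def HasDisj (Q : Finset (Finset (Edge m n))) (z : ℕ) (p : Finset (Edge m n) → Prop) : Prop :=
  ∃ R : Finset (Finset (Edge m n)), R ⊆ Q ∧ R.card = z ∧ (∀ A ∈ R, ∀ B ∈ R, A ≠ B → Disjoint A B) ∧
    ∀ A ∈ R, p A

end defs

/-- The probability of `p` under the uniform distribution on the finite type `Ω`. -/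
def pr {Ω : Type} [Fintype Ω] (p : Ω → Prop) : ℝ :=
  ((univ.filter p).card : ℝ) / Fintype.card Ω

/-! ## The deterministic part -/

/-- DET: no refutation in a world. -/
def Stmt_DET : Prop :=
  ∀ (m n : ℕ) (L : Set (Line (Edge m n))) (z w c r d : ℕ) (E0 E1 : Finset (Edge m n)),
    World L z w c r (3 * (12 * (d + 2) * w)) (12 * (d + 2) * w) d E0 E1 →
    1 ≤ w → 24 * z ≤ w → 3 * c + 1 ≤ r →
    ∀ π : List (Line (Edge m n)), IsRefutation 2 (ontoFPHP m n) π → ¬ ∀ D ∈ π, D ∈ L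

/-! ## Stage 1: `H₀`, `H₁` and the forced edges

`ω j = (b, i)`: the hole `j` is in `H₁` if `b = true`; otherwise it is forced to the pigeon `i`. -/

section stage1

variable {m n : ℕ}

/-- The edges `(τ j, j)` for all holes. -/
def Mt (ω : Fin n → Bool × Fin m) : Finset (Edge m n) := univ.image (fun j => ((ω j).2, j))

/-- The forced edges. -/
def M0 (ω : Fin n → Bool × Fin m) : Finset (Edge m n) :=
  (univ.filter (fun j => (ω j).1 = false)).image (fun j => ((ω j).2, j))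

end stage1

/-- S1A: with probability at least `1/2` at least half of the holes are in `H₁`. -/
def Stmt_S1A : Prop := ∀ (m n : ℕ), 1 ≤ m →
  pr (fun ω : Fin n → Bool × Fin m => 2 * (univ.filter (fun j => (ω j).1 = true)).card < n) ≤ 1 / 2

/-- S1B: the probability that `τ` is not injective. -/
def Stmt_S1B : Prop := ∀ (m n : ℕ), 1 ≤ m →
  pr (fun ω : Fin n → Bool × Fin m => ¬ Function.Injective (fun j => (ω j).2)) ≤
    ((n : ℝ) * (n - 1)) / (2 * m)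

/-- S1K: if `A` contains almost all edges at many holes, then many forced edges are in `A`. -/
def Stmt_S1K : Prop := ∀ (m n : ℕ) (A : Finset (Edge m n)) (a w t : ℕ), 1 ≤ m → 4 ≤ a →
  pr (fun ω : Fin n → Bool × Fin m =>
    w ≤ (univ.filter (fun j : Fin n => a * (univ.filter (fun i : Fin m => (i, j) ∉ A)).card < m)).card ∧
    (univ.filter (fun j : Fin n => (ω j).1 = false ∧ ((ω j).2, j) ∈ A)).card ≤ t) ≤
    4 ^ t * (3 / 4) ^ w

/-- S1M: few disjoint sets of a small family meet the forced edges. -/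
def Stmt_S1M : Prop := ∀ (m n : ℕ) (Q : Finset (Finset (Edge m n))) (z : ℕ), 1 ≤ m → 1 ≤ z →
  (∀ A ∈ Q, A.card ≤ 2) →
  pr (fun ω : Fin n → Bool × Fin m => HasDisj Q z (fun A => ¬ Disjoint A (Mt ω))) ≤
    (6 * (Q.card : ℝ) / (z * m)) ^ z

/-! ## Stage 2: the samples

`hl` enumerates the holes of `H₁`, `P0` is the set of the pigeons of the forced edges; `ω i l = (x, b)`:
the `l`-th sample of pigeon `i` is the hole `hl x` if `b = true` (it is void otherwise). -/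

section stage2

variable {m n h s : ℕ}

/-- The sampled edges. -/
def E1 (hl : Fin h → Fin n) (P0 : Finset (Fin m)) (ω : Fin m → Fin s → Fin h × Bool) :
    Finset (Edge m n) :=
  univ.filter (fun e => e.1 ∉ P0 ∧ ∃ l, (ω e.1 l).2 = true ∧ hl (ω e.1 l).1 = e.2)

/-- The number of samples of pigeon `i` that are not void and not in `A`. -/
def alive (hl : Fin h → Fin n) (A : Finset (Edge m n)) (ω : Fin m → Fin s → Fin h × Bool) (i : Fin m) : ℕ :=
  (univ.filter (fun l => (ω i l).2 = true ∧ (i, hl (ω i l).1) ∉ A)).card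

end stage2

/-- RSN: the probability that all edges of `F` are sampled. -/
def Stmt_RSN : Prop := ∀ (m n h s : ℕ) (hl : Fin h → Fin n) (P0 : Finset (Fin m))
  (F : Finset (Edge m n)), Function.Injective hl → 1 ≤ h →
  pr (fun ω : Fin m → Fin s → Fin h × Bool => F ⊆ E1 hl P0 ω) ≤ ((s : ℝ) / (2 * h)) ^ F.card

/-- MUL: few disjoint sets of a small family of `k`-element sets consist of sampled edges. -/
def Stmt_MUL : Prop := ∀ (m n h s : ℕ) (hl : Fin h → Fin n) (P0 : Finset (Fin m))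
  (Q : Finset (Finset (Edge m n))) (z k : ℕ), Function.Injective hl → 1 ≤ h → 1 ≤ z →
  (∀ A ∈ Q, A.card = k) →
  pr (fun ω : Fin m → Fin s → Fin h × Bool => HasDisj Q z (fun A => A ⊆ E1 hl P0 ω)) ≤
    (3 * (Q.card : ℝ) / z * ((s : ℝ) / (2 * h)) ^ k) ^ z

/-- EXP: few repetitions among the samples of a small set of pigeons. -/
def Stmt_EXP : Prop := ∀ (m n h s : ℕ) (hl : Fin h → Fin n) (c q : ℕ), Function.Injective hl → 1 ≤ h →
  pr (fun ω : Fin m → Fin s → Fin h × Bool => ∃ A : Finset (Fin m), A.card = q ∧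
    (univ.filter (fun j => ∃ i ∈ A, ∃ l, (ω i l).2 = true ∧ hl (ω i l).1 = j)).card + c * q <
      ∑ i ∈ A, alive hl ∅ ω i) ≤
    ((m : ℝ) * 2 ^ s * ((s : ℝ) * q / (2 * h)) ^ c) ^ q

/-- DEG: each pigeon has many samples that are not void. -/
def Stmt_DEG : Prop := ∀ (m n h s : ℕ) (hl : Fin h → Fin n) (k : ℕ), 1 ≤ h → 2 ≤ s → 1 ≤ k →
  pr (fun ω : Fin m → Fin s → Fin h × Bool => ∃ i, alive hl (∅ : Finset (Edge m n)) ω i < k) ≤
    (m : ℝ) * s ^ k / 2 ^ s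

/-- MGF: if many pigeons have few samples outside `A`, then many pigeons have no sample outside `A`. -/
def Stmt_MGF : Prop := ∀ (m n h s : ℕ) (hl : Fin h → Fin n) (P0 : Finset (Fin m))
  (A : Finset (Edge m n)) (k w t : ℕ), 1 ≤ h → 2 ≤ s → 1 ≤ k →
  pr (fun ω : Fin m → Fin s → Fin h × Bool =>
    w ≤ (univ.filter (fun i => i ∉ P0 ∧ alive hl A ω i < k)).card ∧
    (univ.filter (fun i => i ∉ P0 ∧ alive hl A ω i = 0)).card ≤ t) ≤
    4 ^ t / (1 + 1 / (2 * (s : ℝ) ^ k)) ^ w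

/-- NEG: if every set of the family `F` (sets with at most two elements) meets `E0 ∪ E1`, then few edges are
the only survivor of a set of `F`. -/
def Stmt_NEG : Prop := ∀ (m n h s : ℕ) (hl : Fin h → Fin n) (P0 : Finset (Fin m))
  (E0 : Finset (Edge m n)) (F : Finset (Finset (Edge m n))) (u : ℕ), Function.Injective hl → 1 ≤ h → 1 ≤ u →
  (∀ e ∈ E0, e.1 ∈ P0) → (∀ A ∈ F, A.card ≤ 2) →
  pr (fun ω : Fin m → Fin s → Fin h × Bool =>
    (∀ A ∈ F, ¬ Disjoint A (E0 ∪ E1 hl P0 ω)) ∧ 3 * u < (NSf E0 (E1 hl P0 ω) F).card) ≤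
    (2 * ((s : ℝ) / (2 * h))) ^ u + (4 * ((s : ℝ) / (2 * h))) ^ u

/-- HOL: many free pigeons outside `A` at the hole `hl x` are sampled. -/
def Stmt_HOL : Prop := ∀ (m n h s : ℕ) (hl : Fin h → Fin n) (P0 : Finset (Fin m))
  (A : Finset (Edge m n)) (x : Fin h) (N t : ℕ), 1 ≤ s →
  N ≤ (univ.filter (fun i : Fin m => i ∉ P0 ∧ (i, hl x) ∉ A)).card →
  pr (fun ω : Fin m → Fin s → Fin h × Bool =>
    ((E1 hl P0 ω).filter (fun e => e.2 = hl x ∧ e ∉ A)).card ≤ t) ≤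
    2 ^ t * (1 - 1 / (4 * (h : ℝ))) ^ N

/-! ## Assembly

The parameters: `n ≤ a ^ C`; `s = 10 C (log₂ a + 1)` samples, `c = 22 C + 1`, `r = 3 c + 1`, `z = n / a ^ 3`,
`w = n / a ^ 2`, `S = 12 (s + 2) w`, `T = 3 S`. -/

/-- The number of samples. -/
def sa (C a : ℕ) : ℕ := 10 * C * (Nat.log 2 a + 1)

/-- The bound for the repetitions. -/
def cc (C : ℕ) : ℕ := 22 * C + 1

/-- The number of good edges of a pigeon. -/
def rr (C : ℕ) : ℕ := 3 * cc C + 1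

/-- The size of the sets of pigeons with few repetitions. -/
def SS (C a n : ℕ) : ℕ := 12 * (sa C a + 2) * (n / a ^ 2)

/-- The lines of `L` are sparse: `U D` is the exceptional set of variables of `D`. -/
def Sparse {m n : ℕ} (L : Finset (Line (Edge m n))) (a : ℕ) (U : Line (Edge m n) → Finset (Edge m n)) : Prop :=
  (∀ D ∈ L, ∀ t ∈ D, t.card ≤ 2) ∧
    ∀ D ∈ L, (U D).card * a ^ 5 ≤ n ^ 2 ∧ (QU D (U D)).card * a ^ 5 ≤ n ^ 3

/-- ST1: the choice of `H₀`, `H₁` and the forced edges. -/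
def Stmt_ST1 : Prop := ∀ C : ℕ, 1 ≤ C → ∃ a0 : ℕ, ∀ a n : ℕ, a0 ≤ a → a ^ 6 ≤ n → n ≤ a ^ C →
  ∀ (L : Finset (Line (Edge (n ^ 2) n))) (U : Line (Edge (n ^ 2) n) → Finset (Edge (n ^ 2) n)),
  L.card ≤ 2 ^ (n / a ^ 3) → Sparse L a U →
  ∃ ω : Fin n → Bool × Fin (n ^ 2),
    n ≤ 2 * (univ.filter (fun j => (ω j).1 = true)).card ∧
    Function.Injective (fun j => (ω j).2) ∧
    (∀ D ∈ L, ∀ ξ : Finset (Edge (n ^ 2) n), ξ.card ≤ 8 * (n / a ^ 3) →
      (univ.filter (fun j : Fin n =>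
        a * (univ.filter (fun i : Fin (n ^ 2) => (i, j) ∉ Pos D ξ)).card < n ^ 2)).card < n / a ^ 2 ∨
      8 * (n / a ^ 3) < (univ.filter (fun j : Fin n => (ω j).1 = false ∧ ((ω j).2, j) ∈ Pos D ξ)).card) ∧
    ∀ D ∈ L, ¬ HasDisj (QU D (U D)) (n / a ^ 3) (fun A => ¬ Disjoint A (Mt ω)) ∧
      (U D ∩ Mt ω).card < n / a ^ 3

/-- ST2: the choice of the samples. -/
def Stmt_ST2 : Prop := ∀ C : ℕ, 1 ≤ C → ∃ a0 : ℕ, ∀ a n : ℕ, a0 ≤ a → a ^ 6 ≤ n → n ≤ a ^ C →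
  ∀ (L : Finset (Line (Edge (n ^ 2) n))) (U : Line (Edge (n ^ 2) n) → Finset (Edge (n ^ 2) n)),
  L.card ≤ 2 ^ (n / a ^ 3) → Sparse L a U →
  ∀ (h : ℕ) (hl : Fin h → Fin n) (P0 : Finset (Fin (n ^ 2))) (E0 : Finset (Edge (n ^ 2) n)),
  Function.Injective hl → n ≤ 2 * h → P0.card ≤ n → (∀ e ∈ E0, e.1 ∈ P0) →
  ∃ ω : Fin (n ^ 2) → Fin (sa C a) → Fin h × Bool,
    (∀ i, rr C + cc C ≤ alive hl (∅ : Finset (Edge (n ^ 2) n)) ω i) ∧
    (∀ A : Finset (Fin (n ^ 2)), A.card ≤ SS C a n → ∑ i ∈ A, alive hl (∅ : Finset (Edge (n ^ 2) n)) ω i ≤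
      (univ.filter (fun j => ∃ i ∈ A, ∃ l, (ω i l).2 = true ∧ hl (ω i l).1 = j)).card + cc C * A.card) ∧
    (∀ x : Fin h, 3 * SS C a n ≤ ((E1 hl P0 ω).filter (fun e => e.2 = hl x)).card) ∧
    (∀ D ∈ L, ∀ ξ : Finset (Edge (n ^ 2) n), ξ.card ≤ 8 * (n / a ^ 3) →
      (univ.filter (fun i => i ∉ P0 ∧ alive hl (Pos D ξ) ω i < rr C + cc C)).card < n / a ^ 2 ∨
      24 * (n / a ^ 3) < (univ.filter (fun i => i ∉ P0 ∧ alive hl (Pos D ξ) ω i = 0)).card) ∧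
    (∀ D ∈ L, ∀ ξ1 ξ0 : Finset (Edge (n ^ 2) n), ξ1.card ≤ 8 * (n / a ^ 3) → ξ0.card ≤ 8 * (n / a ^ 3) →
      (∃ A ∈ NT D ξ1 ξ0, Disjoint A (E0 ∪ E1 hl P0 ω)) ∨
      (NSf E0 (E1 hl P0 ω) (NT D ξ1 ξ0)).card ≤ n / a ^ 2) ∧
    (∀ D ∈ L, ∀ ξ : Finset (Edge (n ^ 2) n), ξ.card ≤ 8 * (n / a ^ 3) → ∀ x : Fin h,
      n ^ 2 ≤ 2 * a * (univ.filter (fun i : Fin (n ^ 2) => i ∉ P0 ∧ (i, hl x) ∉ Pos D ξ)).card →
      3 * SS C a n ≤ ((E1 hl P0 ω).filter (fun e => e.2 = hl x ∧ e ∉ Pos D ξ)).card) ∧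
    ∀ D ∈ L, ¬ HasDisj ((QU D (U D)).filter (fun A => A.card = 2)) (n / a ^ 3) (fun A => A ⊆ E1 hl P0 ω) ∧
      (U D ∩ E1 hl P0 ω).card < n / a ^ 3

/-- WLD: existence of a world. -/
def Stmt_WLD : Prop := ∀ C : ℕ, 1 ≤ C → ∃ a0 : ℕ, ∀ a n : ℕ, a0 ≤ a → a ^ 6 ≤ n → n ≤ a ^ C →
  ∀ (L : Finset (Line (Edge (n ^ 2) n))) (U : Line (Edge (n ^ 2) n) → Finset (Edge (n ^ 2) n)),
  L.card ≤ 2 ^ (n / a ^ 3) → Sparse L a U →
  ∃ E0 E1 : Finset (Edge (n ^ 2) n),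
    World (L : Set (Line (Edge (n ^ 2) n))) (n / a ^ 3) (n / a ^ 2) (cc C) (rr C) (3 * SS C a n) (SS C a n)
      (sa C a) E0 E1

/-- MAIN: the lower bound. -/
def Stmt_MAIN : Prop := ∀ ε δ : ℝ, 0 < ε → 0 < δ → ∃ n0 : ℕ, ∀ n ≥ n0,
  ∀ π : List (Line (Fin (n ^ 2) × Fin n)), IsRefutation 2 (ontoFPHP (n ^ 2) n) π →
    (∀ D ∈ π, ∃ U : Finset (Fin (n ^ 2) × Fin n), (U.card : ℝ) ≤ (n : ℝ) ^ (2 - ε) ∧
      ((D.filter (fun t => t.card = 2 ∧ ∀ l ∈ t, l.1 ∉ U)).card : ℝ) ≤ (n : ℝ) ^ (3 - ε)) →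
    Real.exp ((n : ℝ) ^ (1 - δ)) ≤ π.length

end

end Pool.Agent.Work.MP_833881_lb
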