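import Pool.Agent.Work.MP_833881_lb.Prob

/-! Block MGF. -/

namespace Pool.Agent.Work.MP_833881_lb

open Finset Pool.Agent.Work.MP_833881_lc
open scoped Classical

noncomputable section

namespace MGFaux

theorem geo {s : ℕ} (hs : 2 ≤ s) (k : ℕ) : ∑ u ∈ range k, s ^ u ≤ s ^ k := by
  induction k with
  | zero => simp
  | succ k ih =>
    rw [sum_range_succ, pow_succ]
    calc ∑ u ∈ range k, s ^ u + s ^ k ≤ s ^ k + s ^ k := Nat.add_le_add_right ih _
      _ = s ^ k * 2 := by ring
      _ ≤ s ^ k * s := Nat.mul_le_mul_left _ hs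

theorem card_small {s : ℕ} (hs : 2 ≤ s) (k : ℕ) :
    (univ.filter (fun U : Finset (Fin s) => U.card < k)).card ≤ s ^ k := by
  have h1 : (univ.filter (fun U : Finset (Fin s) => U.card < k)) =
      (range k).biUnion (fun u => powersetCard u univ) := by
    ext U
    simp only [mem_filter, mem_univ, true_and, mem_biUnion, mem_range, mem_powersetCard]
    constructor
    · intro h
      exact ⟨U.card, h, subset_univ _, rfl⟩
    · rintro ⟨u, hu, -, rfl⟩
      exact hu
  rw [h1]
  refine card_biUnion_le.trans ((sum_le_sum fun u _ => ?_).trans (geo hs k))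
  rw [card_powersetCard, card_univ, Fintype.card_fin]
  exact Nat.choose_le_pow s u

variable {h s : ℕ} (g : Fin h → Prop)

/-- the good samples -/
def Al (x : Fin s → Fin h × Bool) : Finset (Fin s) :=
  univ.filter (fun l => (x l).2 = true ∧ g (x l).1)

theorem card_U (U : Finset (Fin s)) :
    (univ.filter (fun x : Fin s → Fin h × Bool => Al g x = U)).card ≤
      (univ.filter (fun x : Fin s → Fin h × Bool => Al g x = ∅)).card := by
  refine card_le_card_of_injOn (fun x l => if l ∈ U then ((x l).1, false) else x l) ?_ ?_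
  · intro x hx
    simp only [coe_filter, mem_univ, true_and, Set.mem_ofPred_eq] at hx ⊢
    rw [← hx]
    ext l
    simp only [Al, mem_filter, mem_univ, true_and, notMem_empty, iff_false]
    by_cases hl : (x l).2 = true ∧ g (x l).1
    · rw [if_pos hl]
      simp
    · rw [if_neg hl]
      exact hl
  · intro x hx y hy hxy
    simp only [coe_filter, mem_univ, true_and, Set.mem_ofPred_eq] at hx hy
    funext l
    have h1 := congrFun hxy l
    simp only at h1
    by_cases hl : l ∈ U
    · rw [if_pos hl, if_pos hl] at h1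
      have h2 : (x l).2 = true := by
        rw [← hx] at hl
        exact (mem_filter.1 hl).2.1
      have h3 : (y l).2 = true := by
        rw [← hy] at hl
        exact (mem_filter.1 hl).2.1
      exact Prod.ext (Prod.ext_iff.1 h1).1 (h2.trans h3.symm)
    · rw [if_neg hl, if_neg hl] at h1
      exact h1

theorem card_lt (hs : 2 ≤ s) (k : ℕ) :
    (univ.filter (fun x : Fin s → Fin h × Bool => (Al g x).card < k)).card ≤
      s ^ k * (univ.filter (fun x : Fin s → Fin h × Bool => (Al g x).card = 0)).card := by
  have h1 : (univ.filter (fun x : Fin s → Fin h × Bool => (Al g x).card < k)) =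
      (univ.filter (fun U : Finset (Fin s) => U.card < k)).biUnion
        (fun U => univ.filter (fun x : Fin s → Fin h × Bool => Al g x = U)) := by
    ext x
    simp only [mem_filter, mem_univ, true_and, mem_biUnion]
    constructor
    · intro h
      exact ⟨_, h, rfl⟩
    · rintro ⟨U, hU, rfl⟩
      exact hU
  rw [h1]
  refine card_biUnion_le.trans ((sum_le_card_nsmul _ _ _ fun U _ => card_U g U).trans ?_)
  rw [smul_eq_mul]
  simp only [card_eq_zero]
  exact Nat.mul_le_mul_right _ (card_small hs k)

/-- the factor of one pigeon -/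
def ff (k : ℕ) (lam : ℝ) (x : Fin s → Fin h × Bool) : ℝ :=
  (if (Al g x).card < k then lam else 1) * (if (Al g x).card = 0 then 1 / 4 else 1)

theorem sum_ff (hs : 2 ≤ s) {k : ℕ} (hk : 1 ≤ k) :
    ∑ x : Fin s → Fin h × Bool, ff g k (1 + 1 / (2 * (s : ℝ) ^ k)) x ≤
      Fintype.card (Fin s → Fin h × Bool) := by
  set lam : ℝ := 1 + 1 / (2 * (s : ℝ) ^ k) with hlam
  have hG : (0 : ℝ) < (s : ℝ) ^ k := by
    have : (0 : ℝ) < s := by exact_mod_cast (by omega : 0 < s)
    positivity
  have hlam1 : 0 < lam - 1 := by
    rw [hlam]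
    have : (0 : ℝ) < 1 / (2 * (s : ℝ) ^ k) := by positivity
    linarith
  have h1 : ∀ x : Fin s → Fin h × Bool, ff g k lam x ≤
      1 + (lam - 1) * (if (Al g x).card < k then 1 else 0) -
        3 / 4 * (if (Al g x).card = 0 then 1 else 0) := by
    intro x
    unfold ff
    by_cases h0 : (Al g x).card = 0
    · have h2 : (Al g x).card < k := by omega
      rw [if_pos h0, if_pos h0, if_pos h2, if_pos h2]
      linarith
    · rw [if_neg h0, if_neg h0]
      split_ifs <;> linarith
  refine (sum_le_sum fun x _ => h1 x).trans ?_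
  rw [sum_sub_distrib, sum_add_distrib, ← mul_sum, ← mul_sum, sum_const, card_univ, nsmul_eq_mul,
    mul_one, sum_boole, sum_boole]
  have h2 := card_lt g hs k
  have h3 : ((univ.filter (fun x : Fin s → Fin h × Bool => (Al g x).card < k)).card : ℝ) ≤
      (s : ℝ) ^ k * ((univ.filter (fun x : Fin s → Fin h × Bool => (Al g x).card = 0)).card : ℝ) := by
    exact_mod_cast h2
  have h4 := mul_le_mul_of_nonneg_left h3 hlam1.le
  have h5 : (lam - 1) * ((s : ℝ) ^ k *
      ((univ.filter (fun x : Fin s → Fin h × Bool => (Al g x).card = 0)).card : ℝ)) =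
      1 / 2 * ((univ.filter (fun x : Fin s → Fin h × Bool => (Al g x).card = 0)).card : ℝ) := by
    rw [hlam]
    field_simp
    ring
  rw [h5] at h4
  have h6 : (0 : ℝ) ≤
      ((univ.filter (fun x : Fin s → Fin h × Bool => (Al g x).card = 0)).card : ℝ) :=
    Nat.cast_nonneg _
  linarith

end MGFaux

open MGFaux

theorem stmt_MGF : Stmt_MGF := by
  intro m n h s hl P0 A k w t hh hs hk
  set lam : ℝ := 1 + 1 / (2 * (s : ℝ) ^ k) with hlam
  have hlam1 : 1 ≤ lam := by
    rw [hlam]
    have : (0 : ℝ) ≤ 1 / (2 * (s : ℝ) ^ k) := by positivity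
    linarith
  have hal : ∀ (ω : Fin m → Fin s → Fin h × Bool) (i : Fin m),
      alive hl A ω i = (Al (fun x => (i, hl x) ∉ A) (ω i)).card := by
    intro ω i
    unfold alive Al
    congr 1
    ext l
    simp only [mem_filter]
  have hb : (0 : ℝ) < lam ^ w * (1 / 4) ^ t := by positivity
  have key := pr_le_of_prod (ι := Fin m) (α := Fin s → Fin h × Bool)
    (p := fun ω : Fin m → Fin s → Fin h × Bool =>
      w ≤ (univ.filter (fun i => i ∉ P0 ∧ alive hl A ω i < k)).card ∧
      (univ.filter (fun i => i ∉ P0 ∧ alive hl A ω i = 0)).card ≤ t)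
    (fun i x => if i ∈ P0 then 1 else ff (fun x => (i, hl x) ∉ A) k lam x)
    (lam ^ w * (1 / 4) ^ t) hb
    (by
      intro i x
      split_ifs
      · norm_num
      · unfold ff
        apply mul_nonneg <;> split_ifs <;> linarith)
    (by
      rintro ω ⟨h1, h2⟩
      have e1 : ∏ i, (if i ∈ P0 then (1 : ℝ) else ff (fun x => (i, hl x) ∉ A) k lam (ω i)) =
          (∏ i, if i ∉ P0 ∧ alive hl A ω i < k then lam else 1) *
          (∏ i, if i ∉ P0 ∧ alive hl A ω i = 0 then (1 / 4 : ℝ) else 1) := by
        rw [← prod_mul_distrib]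
        refine prod_congr rfl fun i _ => ?_
        by_cases hi : i ∈ P0
        · simp [hi]
        · unfold ff
          rw [if_neg hi]
          simp only [hi, not_false_eq_true, true_and, hal]
      rw [e1, prod_ite, prod_ite]
      simp only [prod_const, one_pow, mul_one]
      apply mul_le_mul (pow_le_pow_right₀ hlam1 h1) _ (by positivity) (by positivity)
      exact pow_le_pow_of_le_one (by norm_num) (by norm_num) h2)
  refine key.trans ?_
  have h3 : (∏ i : Fin m, ((∑ x : Fin s → Fin h × Bool,
      if i ∈ P0 then (1 : ℝ) else ff (fun x => (i, hl x) ∉ A) k lam x) /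
      Fintype.card (Fin s → Fin h × Bool))) ≤ 1 := by
    apply prod_le_one
    · intro i _
      refine div_nonneg (sum_nonneg fun x _ => ?_) (Nat.cast_nonneg _)
      by_cases hi : i ∈ P0
      · rw [if_pos hi]
        norm_num
      · rw [if_neg hi]
        unfold ff
        apply mul_nonneg <;> split_ifs <;> linarith
    · intro i _
      apply div_le_one_of_le₀ _ (Nat.cast_nonneg _)
      by_cases hi : i ∈ P0
      · simp [hi]
      · simp only [hi, if_false]
        exact sum_ff _ hs hk
  refine (div_le_div_of_nonneg_right h3 hb.le).trans (le_of_eq ?_)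
  rw [one_div, one_div, inv_pow, mul_inv, inv_inv, div_eq_mul_inv, mul_comm]

end

end Pool.Agent.Work.MP_833881_lb
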