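import Pool.Agent.Work.MP_833881_lb.RSN

/-!
# Block MUL: few disjoint sets of a small family consist of sampled edges
-/

namespace Pool.Agent.Work.MP_833881_lb

open Finset Pool.Agent.Work.MP_833881_lc
open scoped Classical

noncomputable section

theorem stmt_MUL : Stmt_MUL := by
  intro m n h s hl P0 Q z k hinj hh hz hQ
  have hq0 : (0 : ℝ) ≤ (s : ℝ) / (2 * h) := by positivity
  have h1 : pr (fun ω : Fin m → Fin s → Fin h × Bool => HasDisj Q z (fun A => A ⊆ E1 hl P0 ω)) ≤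
      pr (fun ω : Fin m → Fin s → Fin h × Bool => ∃ R ∈ (Q.powersetCard z).filter
        (fun R => ∀ A ∈ R, ∀ B ∈ R, A ≠ B → Disjoint A B), (R.biUnion id) ⊆ E1 hl P0 ω) := by
    refine pr_mono ?_
    rintro ω ⟨R, hR, hc, hd, hp⟩
    refine ⟨R, Finset.mem_filter.2 ⟨Finset.mem_powersetCard.2 ⟨hR, hc⟩, hd⟩, ?_⟩
    exact Finset.biUnion_subset.2 hp
  refine h1.trans ?_
  have h2 : ∀ R ∈ (Q.powersetCard z).filter (fun R => ∀ A ∈ R, ∀ B ∈ R, A ≠ B → Disjoint A B),
      pr (fun ω : Fin m → Fin s → Fin h × Bool => (R.biUnion id) ⊆ E1 hl P0 ω) ≤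
        (((s : ℝ) / (2 * h)) ^ k) ^ z := by
    intro R hR
    obtain ⟨hR1, hR2⟩ := Finset.mem_filter.1 hR
    obtain ⟨hR3, hR4⟩ := Finset.mem_powersetCard.1 hR1
    refine (stmt_RSN m n h s hl P0 (R.biUnion id) hinj hh).trans ?_
    have hcard : (R.biUnion id).card = z * k := by
      have hd : ∀ A ∈ R, ∀ B ∈ R, A ≠ B → Disjoint (id A) (id B) := hR2
      rw [Finset.card_biUnion hd]
      rw [Finset.sum_congr rfl (fun A hA => show (id A).card = k from hQ A (hR3 hA))]
      rw [Finset.sum_const, hR4, smul_eq_mul]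
    rw [hcard, ← pow_mul, mul_comm z k]
  refine (pr_exists_le_card _ _ _ h2).trans ?_
  have h3 : ((((Q.powersetCard z).filter
      (fun R => ∀ A ∈ R, ∀ B ∈ R, A ≠ B → Disjoint A B)).card : ℕ) : ℝ) ≤ (3 * (Q.card : ℝ) / z) ^ z := by
    refine le_trans ?_ (choose_le_pow Q.card z hz)
    rw [← Finset.card_powersetCard z Q]
    exact_mod_cast Finset.card_le_card (Finset.filter_subset _ _)
  refine (mul_le_mul_of_nonneg_right h3 (by positivity)).trans ?_
  rw [← mul_pow]

end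

end Pool.Agent.Work.MP_833881_lb
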