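import Pool.Agent.Work.MP_833881_lb.Prob

/-! Block NEG. -/

namespace Pool.Agent.Work.MP_833881_lb

open Finset Pool.Agent.Work.MP_833881_lc
open scoped Classical

noncomputable section

namespace NEGaux

variable {m n h s : ℕ}

/-- many disjoint sets all meet the sampled edges -/
theorem many (hR : Stmt_RSN) (hl : Fin h → Fin n) (P0 : Finset (Fin m))
    (hinj : Function.Injective hl) (hh : 1 ≤ h) (M : Finset (Finset (Edge m n))) (u : ℕ)
    (hu : M.card = u) (hdis : ∀ A ∈ M, ∀ B ∈ M, A ≠ B → Disjoint A B)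
    (hc : ∀ A ∈ M, A.card ≤ 2) :
    pr (fun ω : Fin m → Fin s → Fin h × Bool => ∀ A ∈ M, ¬ Disjoint A (E1 hl P0 ω)) ≤
      (2 * ((s : ℝ) / (2 * h))) ^ u := by
  have h1 : ∀ ω : Fin m → Fin s → Fin h × Bool, (∀ A ∈ M, ¬ Disjoint A (E1 hl P0 ω)) →
      ∃ c ∈ M.pi (fun A => A), M.attach.image (fun A => c A.1 A.2) ⊆ E1 hl P0 ω := by
    intro ω hω
    have h2 : ∀ A : Finset (Edge m n), ∀ _ : A ∈ M, ∃ e, e ∈ A ∧ e ∈ E1 hl P0 ω := by
      intro A hA
      have := hω A hA
      rw [Finset.not_disjoint_iff] at this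
      exact this
    choose c hc1 hc2 using h2
    refine ⟨c, ?_, ?_⟩
    · rw [Finset.mem_pi]
      exact hc1
    · intro e he
      rw [Finset.mem_image] at he
      obtain ⟨A, -, rfl⟩ := he
      exact hc2 A.1 A.2
  refine (pr_mono h1).trans ?_
  refine (pr_exists_le_card _ _ (((s : ℝ) / (2 * h)) ^ u) ?_).trans ?_
  · intro c hcM
    rw [Finset.mem_pi] at hcM
    refine (hR m n h s hl P0 _ hinj hh).trans (le_of_eq ?_)
    congr 1
    rw [card_image_of_injOn, card_attach, hu]
    intro A _ B _ hAB
    by_contra hne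
    have hne' : A.1 ≠ B.1 := fun h => hne (Subtype.ext h)
    have h3 := hdis A.1 A.2 B.1 B.2 hne'
    simp only at hAB
    exact (Finset.disjoint_left.1 h3 (hcM A.1 A.2)) (hAB ▸ hcM B.1 B.2)
  · have h3 : ((M.pi (fun A => A)).card : ℝ) ≤ 2 ^ u := by
      rw [Finset.card_pi]
      have h4 : ∏ A ∈ M, A.card ≤ 2 ^ M.card := by
        rw [← prod_const]
        exact prod_le_prod' hc
      rw [hu] at h4
      exact_mod_cast h4
    rw [mul_pow]
    exact mul_le_mul_of_nonneg_right h3 (by positivity)

end NEGaux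

open NEGaux

theorem stmt_NEG (hR : Stmt_RSN) : Stmt_NEG := by
  intro m n h s hl P0 E0 F u hinj hh hu hE0 hF
  set q : ℝ := (s : ℝ) / (2 * h) with hq
  have hq0 : 0 ≤ q := by rw [hq]; positivity
  have hdis1 : ∀ ω : Fin m → Fin s → Fin h × Bool, ∀ e ∈ E1 hl P0 ω, e ∉ E0 := by
    intro ω e he he0
    exact (mem_filter.1 he).2.1 (hE0 e he0)
  set F' : Finset (Finset (Edge m n)) := F.filter (fun A => Disjoint A E0) with hF'
  -- on the event the sets of `F'` meet `E1`
  have hmeet : ∀ ω : Fin m → Fin s → Fin h × Bool,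
      (∀ A ∈ F, ¬ Disjoint A (E0 ∪ E1 hl P0 ω)) → ∀ A ∈ F', ¬ Disjoint A (E1 hl P0 ω) := by
    intro ω hω A hA hd
    obtain ⟨hA1, hA2⟩ := mem_filter.1 hA
    exact hω A hA1 (Finset.disjoint_union_right.2 ⟨hA2, hd⟩)
  obtain ⟨M, hM, hmax⟩ := Finset.exists_max_image
    (F'.powerset.filter (fun M => ∀ A ∈ M, ∀ B ∈ M, A ≠ B → Disjoint A B)) Finset.card
    ⟨∅, by simp⟩
  obtain ⟨hM1, hMd⟩ := mem_filter.1 hM
  rw [mem_powerset] at hM1
  rcases Nat.lt_or_ge M.card u with hlt | hge
  · -- few disjoint sets
    set W : Finset (Edge m n) := M.biUnion id with hW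
    have hWc : W.card ≤ 2 * (u - 1) := by
      calc W.card ≤ M.card * 2 := card_biUnion_le_card_mul _ _ _ fun A hA =>
            hF A (mem_filter.1 (hM1 hA)).1
        _ ≤ (u - 1) * 2 := Nat.mul_le_mul_right _ (by omega)
        _ = 2 * (u - 1) := by ring
    have hmW : ∀ A ∈ F', A ≠ ∅ → ¬ Disjoint A W := by
      intro A hA hne hd
      by_cases hAM : A ∈ M
      · have h1 : A ⊆ W := subset_biUnion_of_mem id hAM
        obtain ⟨e, he⟩ := nonempty_iff_ne_empty.2 hne
        exact Finset.disjoint_left.1 hd he (h1 he)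
      · have h1 : insert A M ∈ F'.powerset.filter
            (fun M => ∀ A ∈ M, ∀ B ∈ M, A ≠ B → Disjoint A B) := by
          rw [mem_filter, mem_powerset]
          refine ⟨insert_subset hA hM1, ?_⟩
          have hAB : ∀ B ∈ M, Disjoint A B := fun B hB =>
            Finset.disjoint_of_subset_right (subset_biUnion_of_mem id hB) hd
          intro B hB C hC hBC
          rcases mem_insert.1 hB with hB' | hB' <;> rcases mem_insert.1 hC with hC' | hC'
          · exact absurd (hB'.trans hC'.symm) hBC
          · rw [hB']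
            exact hAB C hC'
          · rw [hC']
            exact (hAB B hB').symm
          · exact hMd B hB' C hC' hBC
        have h2 := hmax _ h1
        rw [card_insert_of_notMem hAM] at h2
        omega
    -- the forced edges
    set FV : Finset (Edge m n) → Finset (Edge m n) := fun V =>
      univ.filter (fun f => f ∉ V ∧ ∃ g ∈ V, ({f, g} : Finset (Edge m n)) ∈ F') with hFV
    have h1 : ∀ ω : Fin m → Fin s → Fin h × Bool,
        ((∀ A ∈ F, ¬ Disjoint A (E0 ∪ E1 hl P0 ω)) ∧ 3 * u < (NSf E0 (E1 hl P0 ω) F).card) →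
        ∃ V ∈ W.powerset.filter (fun V => u ≤ (FV V).card), FV V ⊆ E1 hl P0 ω := by
      rintro ω ⟨hω, hbig⟩
      have hm := hmeet ω hω
      have hsub : FV (W \ E1 hl P0 ω) ⊆ E1 hl P0 ω := by
        intro f hf
        obtain ⟨-, -, g, hg, hfg⟩ := mem_filter.1 hf
        have h2 := hm _ hfg
        rw [Finset.not_disjoint_iff] at h2
        obtain ⟨e, he, he1⟩ := h2
        rw [mem_insert, mem_singleton] at he
        rcases he with rfl | rfl
        · exact he1
        · exact absurd he1 (mem_sdiff.1 hg).2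
      have hns : NSf E0 (E1 hl P0 ω) F ⊆ (W ∩ E1 hl P0 ω) ∪ FV (W \ E1 hl P0 ω) := by
        intro f hf
        obtain ⟨hf1, T, hT, hTf⟩ := mem_filter.1 hf
        have hfT : f ∈ T := by
          have : f ∈ T ∩ (E0 ∪ E1 hl P0 ω) := by rw [hTf]; exact mem_singleton_self f
          exact (mem_inter.1 this).1
        have hT' : T ∈ F' := by
          rw [hF', mem_filter]
          refine ⟨hT, Finset.disjoint_left.2 fun e he he0 => ?_⟩
          have h3 : e ∈ T ∩ (E0 ∪ E1 hl P0 ω) := mem_inter.2 ⟨he, mem_union_left _ he0⟩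
          rw [hTf, mem_singleton] at h3
          rw [h3] at he0
          exact hdis1 ω f hf1 he0
        have h4 := hmW T hT' (ne_empty_of_mem hfT)
        rw [Finset.not_disjoint_iff] at h4
        obtain ⟨w, hwT, hwW⟩ := h4
        rw [mem_union]
        by_cases hw : w ∈ E1 hl P0 ω
        · left
          have h3 : w ∈ T ∩ (E0 ∪ E1 hl P0 ω) := mem_inter.2 ⟨hwT, mem_union_right _ hw⟩
          rw [hTf, mem_singleton] at h3
          rw [← h3]
          exact mem_inter.2 ⟨hwW, hw⟩
        · right
          have hfw : f ≠ w := by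
            rintro rfl
            exact hw hf1
          have hTe : T = {f, w} := by
            symm
            apply eq_of_subset_of_card_le
            · intro e he
              rw [mem_insert, mem_singleton] at he
              rcases he with rfl | rfl
              · exact hfT
              · exact hwT
            · rw [card_pair hfw]
              exact hF T hT
          rw [hFV]
          simp only [mem_filter, mem_univ, true_and]
          refine ⟨fun hfV => (mem_sdiff.1 hfV).2 hf1, w, mem_sdiff.2 ⟨hwW, hw⟩, ?_⟩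
          rw [← hTe]
          exact hT'
      have hcard : 3 * u < W.card + (FV (W \ E1 hl P0 ω)).card := by
        refine lt_of_lt_of_le hbig ((card_le_card hns).trans ((card_union_le _ _).trans ?_))
        exact Nat.add_le_add_right (card_le_card inter_subset_left) _
      refine ⟨W \ E1 hl P0 ω, ?_, hsub⟩
      rw [mem_filter, mem_powerset]
      exact ⟨sdiff_subset, by omega⟩
    refine (pr_mono h1).trans ?_
    refine (pr_exists_le_card _ _ (q ^ u) ?_).trans ?_
    · intro V hV
      obtain ⟨G, hG, hGc⟩ := exists_subset_card_eq (mem_filter.1 hV).2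
      have h2 := hR m n h s hl P0 G hinj hh
      rw [hGc] at h2
      exact (pr_mono fun ω hω => hG.trans hω).trans h2
    · have h3 : ((W.powerset.filter (fun V => u ≤ (FV V).card)).card : ℝ) ≤ 4 ^ u := by
        have h4 : (W.powerset.filter (fun V => u ≤ (FV V).card)).card ≤ 4 ^ u := by
          calc _ ≤ W.powerset.card := card_filter_le _ _
            _ = 2 ^ W.card := card_powerset _
            _ ≤ 2 ^ (2 * (u - 1)) := Nat.pow_le_pow_right (by norm_num) hWc
            _ = 4 ^ (u - 1) := by rw [pow_mul]; norm_num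
            _ ≤ 4 ^ u := Nat.pow_le_pow_right (by norm_num) (Nat.sub_le _ _)
        exact_mod_cast h4
      have h5 : (0 : ℝ) ≤ (2 * q) ^ u := by positivity
      have h6 := mul_le_mul_of_nonneg_right h3 (pow_nonneg hq0 u)
      rw [← mul_pow] at h6
      linarith
  · -- many disjoint sets
    obtain ⟨M', hM', hM'c⟩ := exists_subset_card_eq hge
    have h1 := many (s := s) hR hl P0 hinj hh M' u hM'c
      (fun A hA B hB => hMd A (hM' hA) B (hM' hB))
      (fun A hA => hF A (mem_filter.1 (hM1 (hM' hA))).1)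
    refine (pr_mono (fun ω hω A hA => hmeet ω hω.1 A (hM1 (hM' hA)))).trans (h1.trans ?_)
    have h5 : (0 : ℝ) ≤ (4 * q) ^ u := by positivity
    linarith

end

end Pool.Agent.Work.MP_833881_lb
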