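import Pool.Agent.Work.MP_833881_lb.Interface

/-!
# Basic tools for `pr`
-/

namespace Pool.Agent.Work.MP_833881_lb

open Finset Pool.Agent.Work.MP_833881_lc
open scoped Classical

noncomputable section

section basic

variable {Ω : Type} [Fintype Ω]

/-- `pr` with any decidability instance. -/
theorem pr_eq (p : Ω → Prop) [inst : DecidablePred p] :
    pr p = ((univ.filter p).card : ℝ) / Fintype.card Ω := by
  unfold pr
  have h : (fun a => Classical.propDecidable (p a)) = inst := Subsingleton.elim _ _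
  rw [h]

theorem pr_nonneg (p : Ω → Prop) : 0 ≤ pr p := by
  unfold pr
  positivity

theorem pr_mono {p q : Ω → Prop} (h : ∀ ω, p ω → q ω) : pr p ≤ pr q := by
  unfold pr
  refine div_le_div_of_nonneg_right ?_ (Nat.cast_nonneg _)
  have : (univ.filter p) ⊆ (univ.filter q) := by
    intro ω hω
    exact Finset.mem_filter.2 ⟨Finset.mem_univ _, h ω (Finset.mem_filter.1 hω).2⟩
  exact_mod_cast Finset.card_le_card this

theorem pr_le_one (p : Ω → Prop) : pr p ≤ 1 := by
  unfold pr
  refine div_le_one_of_le₀ ?_ (Nat.cast_nonneg _)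
  exact_mod_cast Finset.card_le_univ _

theorem pr_false {p : Ω → Prop} (h : ∀ ω, ¬ p ω) : pr p = 0 := by
  unfold pr
  rw [Finset.filter_false_of_mem (fun ω _ => h ω)]
  simp

theorem pr_or (p q : Ω → Prop) : pr (fun ω => p ω ∨ q ω) ≤ pr p + pr q := by
  rw [pr_eq (fun ω => p ω ∨ q ω), pr_eq p, pr_eq q, ← add_div]
  refine div_le_div_of_nonneg_right ?_ (Nat.cast_nonneg _)
  rw [Finset.filter_or]
  exact_mod_cast Finset.card_union_le _ _

/-- Union bound over a finset. -/
theorem pr_exists_le {ι : Type*} (s : Finset ι) (p : ι → Ω → Prop) :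
    pr (fun ω => ∃ i ∈ s, p i ω) ≤ ∑ i ∈ s, pr (p i) := by
  induction s using Finset.induction_on with
  | empty =>
    rw [pr_false (by simp)]
    simp
  | insert a s ha ih =>
    rw [Finset.sum_insert ha]
    refine le_trans ?_ ((pr_or (p a) (fun ω => ∃ i ∈ s, p i ω)).trans (add_le_add_right ih _))
    refine pr_mono ?_
    rintro ω ⟨i, hi, h⟩
    rcases Finset.mem_insert.1 hi with rfl | hi
    · exact Or.inl h
    · exact Or.inr ⟨i, hi, h⟩

/-- Union bound with a uniform bound. -/
theorem pr_exists_le_card {ι : Type*} (s : Finset ι) (p : ι → Ω → Prop) (b : ℝ) (h : ∀ i ∈ s, pr (p i) ≤ b) :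
    pr (fun ω => ∃ i ∈ s, p i ω) ≤ s.card * b := by
  refine (pr_exists_le s p).trans ?_
  refine (Finset.sum_le_card_nsmul s _ b h).trans ?_
  rw [nsmul_eq_mul]

/-- If the probability of the bad event is less than one, some outcome is good. -/
theorem exists_of_pr_lt_one [Nonempty Ω] {p : Ω → Prop} (h : pr p < 1) : ∃ ω, ¬ p ω := by
  by_contra hcon
  push Not at hcon
  unfold pr at h
  rw [Finset.filter_true_of_mem (fun ω _ => hcon ω), Finset.card_univ, div_self] at h
  · exact lt_irrefl _ h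
  · exact_mod_cast Fintype.card_ne_zero

/-- Markov: if `g ≥ 0` and `g ≥ 1` on `p`, then `pr p` is at most the average of `g`. -/
theorem pr_le_avg {p : Ω → Prop} {g : Ω → ℝ} (h0 : ∀ ω, 0 ≤ g ω) (h1 : ∀ ω, p ω → 1 ≤ g ω) :
    pr p ≤ (∑ ω, g ω) / Fintype.card Ω := by
  unfold pr
  refine div_le_div_of_nonneg_right ?_ (Nat.cast_nonneg _)
  calc ((univ.filter p).card : ℝ) = ∑ ω ∈ univ.filter p, (1 : ℝ) := by simp
    _ ≤ ∑ ω ∈ univ.filter p, g ω := Finset.sum_le_sum (fun ω hω => h1 ω (Finset.mem_filter.1 hω).2)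
    _ ≤ ∑ ω, g ω := Finset.sum_le_sum_of_subset_of_nonneg (Finset.filter_subset _ _) (fun ω _ _ => h0 ω)

end basic

section product

variable {ι : Type} [Fintype ι] [DecidableEq ι] {α : Type} [Fintype α]

/-- The average of a product is the product of the averages. -/
theorem avg_prod (f : ι → α → ℝ) :
    (∑ ω : ι → α, ∏ i, f i (ω i)) / Fintype.card (ι → α) = ∏ i, ((∑ x, f i x) / Fintype.card α) := by
  have h1 : ∑ ω : ι → α, ∏ i, f i (ω i) = ∏ i, ∑ x, f i x := by
    rw [Finset.prod_univ_sum, Fintype.piFinset_univ]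
  rw [h1, Finset.prod_div_distrib, Finset.prod_const, Finset.card_univ]
  congr 1
  rw [Fintype.card_fun]
  push_cast
  rfl

/-- Markov for products: if all averages of the factors are at most `1`, the factors are nonnegative and the product is at
least `b > 0` on `p`, then `pr p ≤ 1 / b`. -/
theorem pr_le_of_prod {p : (ι → α) → Prop} (f : ι → α → ℝ) (b : ℝ) (hb : 0 < b)
    (h0 : ∀ i x, 0 ≤ f i x) (h1 : ∀ ω, p ω → b ≤ ∏ i, f i (ω i)) :
    pr p ≤ (∏ i, ((∑ x, f i x) / Fintype.card α)) / b := by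
  have h2 := pr_le_avg (p := p) (g := fun ω => (∏ i, f i (ω i)) / b)
    (fun ω => div_nonneg (Finset.prod_nonneg (fun i _ => h0 i _)) hb.le)
    (fun ω hω => by rw [le_div_iff₀ hb, one_mul]; exact h1 ω hω)
  rw [← Finset.sum_div, div_div, mul_comm b, ← div_div, avg_prod] at h2
  exact h2

/-- The probability that the coordinates satisfy independent conditions. -/
theorem pr_forall (p : ι → α → Prop) :
    pr (fun ω : ι → α => ∀ i, p i (ω i)) = ∏ i, pr (p i) := by
  have h1 := avg_prod (fun i x => if p i x then (1 : ℝ) else 0)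
  have h2 : ∀ ω : ι → α, (∏ i, if p i (ω i) then (1 : ℝ) else 0) = if ∀ i, p i (ω i) then 1 else 0 := by
    intro ω
    by_cases h : ∀ i, p i (ω i)
    · rw [if_pos h]
      exact Finset.prod_eq_one (fun i _ => if_pos (h i))
    · rw [if_neg h]
      push Not at h
      obtain ⟨i, hi⟩ := h
      exact Finset.prod_eq_zero (Finset.mem_univ i) (if_neg hi)
  rw [Finset.sum_congr rfl (fun ω _ => h2 ω)] at h1
  have h3 : ∀ {β : Type} [Fintype β] (q : β → Prop) [DecidablePred q],
      (∑ x : β, if q x then (1 : ℝ) else 0) / Fintype.card β = pr q := by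
    intro β _ q _
    rw [← Finset.sum_filter, pr_eq q]
    simp
  rw [h3] at h1
  rw [h1]
  exact Finset.prod_congr rfl (fun i _ => h3 _)

/-- Prescribed values on a set of coordinates. -/
theorem pr_prescribed [Nonempty α] (C : Finset ι) (v : ι → α) :
    pr (fun ω : ι → α => ∀ i ∈ C, ω i = v i) = (1 / (Fintype.card α : ℝ)) ^ C.card := by
  have h1 := pr_forall (fun (i : ι) (x : α) => i ∈ C → x = v i)
  rw [h1, ← Finset.prod_filter_mul_prod_filter_not univ (fun i => i ∈ C)]
  have h2 : ∏ i ∈ univ.filter (fun i => i ∈ C), pr (fun x : α => i ∈ C → x = v i) =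
      (1 / (Fintype.card α : ℝ)) ^ C.card := by
    rw [Finset.filter_mem_eq_inter, Finset.univ_inter]
    refine (Finset.prod_congr rfl (fun i hi => ?_)).trans (Finset.prod_const _)
    rw [pr_eq (fun x : α => i ∈ C → x = v i)]
    have : (univ.filter (fun x : α => i ∈ C → x = v i)) = {v i} := by
      ext x
      simp [hi]
    rw [this, Finset.card_singleton, Nat.cast_one]
  have h3 : ∏ i ∈ univ.filter (fun i => ¬ i ∈ C), pr (fun x : α => i ∈ C → x = v i) = 1 := by
    refine Finset.prod_eq_one (fun i hi => ?_)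
    have hi' := (Finset.mem_filter.1 hi).2
    rw [pr_eq (fun x : α => i ∈ C → x = v i),
      Finset.filter_true_of_mem (fun x _ h => absurd h hi'), Finset.card_univ, div_self]
    exact_mod_cast Fintype.card_ne_zero
  rw [h2, h3, mul_one]

end product

/-- `C(N, z) ≤ (3 N / z)^z`. -/
theorem choose_le_pow (N z : ℕ) (hz : 1 ≤ z) : (N.choose z : ℝ) ≤ (3 * (N : ℝ) / z) ^ z := by
  have h1 : (N.choose z : ℝ) ≤ (N : ℝ) ^ z / (z.factorial : ℝ) := Nat.choose_le_pow_div z N
  have h2 : (z : ℝ) ^ z / (z.factorial : ℝ) ≤ 3 ^ z := by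
    refine (Real.pow_div_factorial_le_exp (z : ℝ) (Nat.cast_nonneg _) z).trans ?_
    have h4 : Real.exp (z : ℝ) = Real.exp 1 ^ z := by
      rw [← Real.exp_nat_mul, mul_one]
    rw [h4]
    have h5 : Real.exp 1 ≤ 3 := by
      have := Real.exp_one_lt_d9
      linarith
    exact pow_le_pow_left₀ (Real.exp_pos 1).le h5 z
  have hz0 : (0 : ℝ) < z := by exact_mod_cast hz
  have hf : (0 : ℝ) < (z.factorial : ℝ) := by exact_mod_cast Nat.factorial_pos z
  calc (N.choose z : ℝ) ≤ (N : ℝ) ^ z / (z.factorial : ℝ) := h1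
    _ = ((N : ℝ) / z) ^ z * ((z : ℝ) ^ z / (z.factorial : ℝ)) := by
      rw [div_pow]
      field_simp
    _ ≤ ((N : ℝ) / z) ^ z * 3 ^ z := mul_le_mul_of_nonneg_left h2 (by positivity)
    _ = (3 * (N : ℝ) / z) ^ z := by
      rw [← mul_pow]
      congr 1
      ring

end

end Pool.Agent.Work.MP_833881_lb
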