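import Pool.Agent.Work.MP_833881_lb.Prob

/-!
# Block RSN: the probability that all edges of a given set are sampled
-/

namespace Pool.Agent.Work.MP_833881_lb

open Finset Pool.Agent.Work.MP_833881_lc
open scoped Classical

noncomputable section

/-- `pr` is invariant under equivalences. -/
theorem pr_equiv {Ω Ω' : Type} [Fintype Ω] [Fintype Ω'] (e : Ω ≃ Ω') (p : Ω' → Prop) :
    pr (fun ω => p (e ω)) = pr p := by
  rw [pr_eq (fun ω => p (e ω)), pr_eq p, Fintype.card_congr e]
  congr 2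
  refine Finset.card_bij (fun ω _ => e ω) ?_ ?_ ?_
  · intro ω hω
    exact Finset.mem_filter.2 ⟨Finset.mem_univ _, (Finset.mem_filter.1 hω).2⟩
  · intro a _ b _ hab
    exact e.injective hab
  · intro b hb
    exact ⟨e.symm b, Finset.mem_filter.2 ⟨Finset.mem_univ _, by
      rw [e.apply_symm_apply]; exact (Finset.mem_filter.1 hb).2⟩, e.apply_symm_apply b⟩

/-- For a fixed choice of the samples. -/
theorem RSN_fixed {m n h s : ℕ} (hl : Fin h → Fin n) (F : Finset (Edge m n)) (hh : 1 ≤ h)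
    (hinj : Function.Injective hl) (l : {x // x ∈ F} → Fin s) :
    pr (fun ω : Fin m → Fin s → Fin h × Bool =>
      ∀ e : {x // x ∈ F}, (ω e.1.1 (l e)).2 = true ∧ hl (ω e.1.1 (l e)).1 = e.1.2) ≤
      (1 / (2 * (h : ℝ))) ^ F.card := by
  have h0 : (0 : ℝ) ≤ (1 / (2 * (h : ℝ))) ^ F.card := by positivity
  by_cases hi : Function.Injective (fun e : {x // x ∈ F} => (e.1.1, l e))
  swap
  · rw [pr_false]
    · exact h0
    · intro ω hω
      apply hi
      intro a b hab
      simp only [Prod.mk.injEq] at hab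
      have ha := (hω a).2
      have hb := (hω b).2
      rw [hab.1, hab.2, hb] at ha
      exact Subtype.ext (Prod.ext hab.1 ha.symm)
  by_cases hr : ∀ e : {x // x ∈ F}, ∃ x, hl x = e.1.2
  swap
  · push Not at hr
    obtain ⟨e, he⟩ := hr
    rw [pr_false]
    · exact h0
    · intro ω hω
      exact he _ (hω e).2
  choose x hx using hr
  have : Nonempty (Fin h × Bool) := ⟨(⟨0, hh⟩, true)⟩
  let C : Finset (Fin m × Fin s) := univ.image (fun e : {x // x ∈ F} => (e.1.1, l e))
  have hC : C.card = F.card := by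
    rw [Finset.card_image_of_injective _ hi, Finset.card_univ, Fintype.card_coe]
  let v : Fin m × Fin s → Fin h × Bool := fun p =>
    if hp : ∃ e : {x // x ∈ F}, (e.1.1, l e) = p then (x hp.choose, true) else (⟨0, hh⟩, true)
  have hv : ∀ e : {x // x ∈ F}, v (e.1.1, l e) = (x e, true) := by
    intro e
    have hp : ∃ e' : {x // x ∈ F}, (e'.1.1, l e') = (e.1.1, l e) := ⟨e, rfl⟩
    have h1 : hp.choose = e := hi hp.choose_spec
    change (if hp : ∃ e' : {x // x ∈ F}, (e'.1.1, l e') = (e.1.1, l e) then (x hp.choose, true)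
      else (⟨0, hh⟩, true)) = (x e, true)
    rw [dif_pos hp, h1]
  have key := pr_prescribed (ι := Fin m × Fin s) (α := Fin h × Bool) C v
  rw [← pr_equiv (Equiv.curry (Fin m) (Fin s) (Fin h × Bool)).symm] at key
  rw [hC, Fintype.card_prod, Fintype.card_fin, Fintype.card_bool] at key
  have h2 : (1 / (2 * (h : ℝ))) = 1 / (((h * 2 : ℕ) : ℝ)) := by
    push_cast
    rw [mul_comm]
  rw [h2, ← key]
  refine pr_mono ?_
  intro ω hω p hp
  obtain ⟨e, _, rfl⟩ := Finset.mem_image.1 hp
  rw [hv]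
  have h3 := hω e
  change ω e.1.1 (l e) = (x e, true)
  refine Prod.ext ?_ h3.1
  apply hinj
  rw [h3.2, hx]

theorem stmt_RSN : Stmt_RSN := by
  intro m n h s hl P0 F hinj hh
  have h1 : pr (fun ω : Fin m → Fin s → Fin h × Bool => F ⊆ E1 hl P0 ω) ≤
      pr (fun ω : Fin m → Fin s → Fin h × Bool => ∃ l ∈ (univ : Finset ({x // x ∈ F} → Fin s)),
        ∀ e : {x // x ∈ F}, (ω e.1.1 (l e)).2 = true ∧ hl (ω e.1.1 (l e)).1 = e.1.2) := by
    refine pr_mono ?_
    intro ω hω
    have h2 : ∀ e : {x // x ∈ F}, ∃ l, (ω e.1.1 l).2 = true ∧ hl (ω e.1.1 l).1 = e.1.2 := by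
      intro e
      have := hω e.2
      exact (Finset.mem_filter.1 this).2.2
    choose l hl' using h2
    exact ⟨l, Finset.mem_univ _, hl'⟩
  refine h1.trans ?_
  refine (pr_exists_le_card univ _ _ (fun l _ => RSN_fixed hl F hh hinj l)).trans ?_
  rw [Finset.card_univ, Fintype.card_fun, Fintype.card_fin, Fintype.card_coe]
  push_cast
  rw [← mul_pow]
  apply le_of_eq
  congr 1
  ring

end

end Pool.Agent.Work.MP_833881_lb
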