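import Pool.Agent.Work.MP_833881_lb.Prob

/-!
# Block S1A: with probability at least `1/2` at least half of the holes are in `H₁`
-/

namespace Pool.Agent.Work.MP_833881_lb

open Finset Pool.Agent.Work.MP_833881_lc
open scoped Classical

/-- **S1A** -/
theorem stmt_S1A : Stmt_S1A := by
  intro m n hm
  have hne : Nonempty (Fin m) := ⟨⟨0, hm⟩⟩
  obtain ⟨T, hTdef⟩ : ∃ T : (Fin n → Bool × Fin m) → ℕ, T =
    fun ω => (univ.filter (fun j => (ω j).1 = true)).card := ⟨_, rfl⟩
  obtain ⟨σ, hσdef⟩ : ∃ σ : (Fin n → Bool × Fin m) → (Fin n → Bool × Fin m), σ =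
    fun ω j => (!(ω j).1, (ω j).2) := ⟨_, rfl⟩
  have hσ : Function.Injective σ := by
    intro ω ω' h
    funext j
    have h1 := congrFun h j
    rw [hσdef] at h1
    have h2 := (Prod.ext_iff.mp h1).1
    have h3 := (Prod.ext_iff.mp h1).2
    simp only at h2 h3
    exact Prod.ext (Bool.not_inj h2) h3
  have hT : ∀ ω, T (σ ω) + T ω = n := by
    intro ω
    have h1 : T (σ ω) = (univ.filter (fun j => ¬ (ω j).1 = true)).card := by
      rw [hTdef, hσdef]
      simp only
      congr 1
      ext j
      simp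
    rw [h1, hTdef, add_comm]
    simp only
    rw [Finset.card_filter_add_card_filter_not (s := (univ : Finset (Fin n)))
      (fun j => (ω j).1 = true)]
    simp
  have hdis : Disjoint (univ.filter (fun ω => 2 * T ω < n))
      ((univ.filter (fun ω => 2 * T ω < n)).image σ) := by
    rw [Finset.disjoint_left]
    intro ω h1 h2
    obtain ⟨ω', h3, rfl⟩ := Finset.mem_image.mp h2
    have h4 := (Finset.mem_filter.mp h1).2
    have h5 := (Finset.mem_filter.mp h3).2
    have h6 := hT ω'
    omega
  have hcard : 2 * (univ.filter (fun ω => 2 * T ω < n)).card ≤ Fintype.card (Fin n → Bool × Fin m) := by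
    have h1 := Finset.card_le_univ ((univ.filter (fun ω => 2 * T ω < n)) ∪
      ((univ.filter (fun ω => 2 * T ω < n)).image σ))
    rw [Finset.card_union_of_disjoint hdis, Finset.card_image_of_injective _ hσ] at h1
    omega
  have hpos : (0 : ℝ) < Fintype.card (Fin n → Bool × Fin m) := by
    exact_mod_cast Fintype.card_pos
  have hgoal : pr (fun ω => 2 * T ω < n) ≤ 1 / 2 := by
    rw [pr_eq, div_le_iff₀ hpos]
    have h1 : (2 : ℝ) * ((univ.filter (fun ω => 2 * T ω < n)).card : ℝ) ≤
        Fintype.card (Fin n → Bool × Fin m) := by exact_mod_cast hcard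
    linarith
  rw [hTdef] at hgoal
  exact hgoal

end Pool.Agent.Work.MP_833881_lb
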