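import Pool.Agent.Work.MP_833881_lb.Prob

/-!
# Block S1B: the probability that `τ` is not injective
-/

namespace Pool.Agent.Work.MP_833881_lb

open Finset Pool.Agent.Work.MP_833881_lc
open scoped Classical

/-- one pair -/
lemma s1b_pair {m n : ℕ} (hm : 1 ≤ m) (j j' : Fin n) (hj : j ≠ j') :
    pr (fun ω : Fin n → Bool × Fin m => (ω j).2 = (ω j').2) ≤ 1 / m := by
  have hne : Nonempty (Fin m) := ⟨⟨0, hm⟩⟩
  have hinj : ((univ.filter (fun ω : Fin n → Bool × Fin m => (ω j).2 = (ω j').2)) ×ˢ
      (univ : Finset (Fin m))).card ≤ (univ : Finset (Fin n → Bool × Fin m)).card := by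
    refine Finset.card_le_card_of_injOn
      (fun w : (Fin n → Bool × Fin m) × Fin m => Function.update w.1 j' ((w.1 j').1, w.2))
      (fun _ _ => by simp) ?_
    rintro ⟨ω, v⟩ h1 ⟨ω', v'⟩ h2 h
    simp only [Finset.coe_product, Finset.coe_filter, Finset.mem_univ, true_and, Finset.coe_univ,
      Set.mem_prod, Set.mem_ofPred_eq, Set.mem_univ, and_true] at h1 h2
    simp only at h
    have hj' := congrFun h j'
    simp only [Function.update_self] at hj'
    have hv := (Prod.ext_iff.mp hj').2
    have hb := (Prod.ext_iff.mp hj').1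
    simp only at hv hb
    have hother : ∀ k, k ≠ j' → ω k = ω' k := by
      intro k hk
      have := congrFun h k
      rwa [Function.update_of_ne hk, Function.update_of_ne hk] at this
    refine Prod.ext ?_ hv
    funext k
    by_cases hk : k = j'
    · subst hk
      refine Prod.ext hb ?_
      show (ω k).2 = (ω' k).2
      rw [← h1, ← h2, hother j hj]
    · exact hother k hk
  rw [Finset.card_product, Finset.card_univ, Finset.card_univ, Fintype.card_fin] at hinj
  have hpos : (0 : ℝ) < Fintype.card (Fin n → Bool × Fin m) := by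
    exact_mod_cast Fintype.card_pos
  have hm' : (0 : ℝ) < m := by exact_mod_cast hm
  rw [pr_eq, div_le_div_iff₀ hpos hm', one_mul]
  exact_mod_cast hinj

/-- **S1B** -/
theorem stmt_S1B : Stmt_S1B := by
  intro m n hm
  have h1 : pr (fun ω : Fin n → Bool × Fin m => ¬ Function.Injective (fun j => (ω j).2)) ≤
      pr (fun ω : Fin n → Bool × Fin m => ∃ P ∈ (univ : Finset (Fin n)).powersetCard 2,
        ∃ j ∈ P, ∃ j' ∈ P, j ≠ j' ∧ (ω j).2 = (ω j').2) := by
    refine pr_mono ?_
    intro ω hω
    unfold Function.Injective at hω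
    push Not at hω
    obtain ⟨j, j', h2, h3⟩ := hω
    refine ⟨{j, j'}, ?_, j, by simp, j', by simp, h3, h2⟩
    rw [Finset.mem_powersetCard]
    exact ⟨Finset.subset_univ _, Finset.card_pair h3⟩
  refine h1.trans ((pr_exists_le_card _ _ (1 / (m : ℝ)) ?_).trans (le_of_eq ?_))
  · intro P hP
    obtain ⟨a, b, hab, rfl⟩ := Finset.card_eq_two.mp (Finset.mem_powersetCard.mp hP).2
    refine le_trans (pr_mono ?_) (s1b_pair hm a b hab)
    rintro ω ⟨j, hj, j', hj', hne, h⟩
    simp only [Finset.mem_insert, Finset.mem_singleton] at hj hj'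
    rcases hj with rfl | rfl <;> rcases hj' with rfl | rfl
    · exact absurd rfl hne
    · exact h
    · exact h.symm
    · exact absurd rfl hne
  · rw [Finset.card_powersetCard, Finset.card_univ, Fintype.card_fin, Nat.cast_choose_two]
    ring

end Pool.Agent.Work.MP_833881_lb
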