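import Pool.Agent.Work.MP_833881_lb.Prob

/-!
# Block S1K: many forced edges
-/

namespace Pool.Agent.Work.MP_833881_lb

open Finset Pool.Agent.Work.MP_833881_lc
open scoped Classical

namespace S1K

lemma card_filter_inst {α : Type*} (s : Finset α) (p : α → Prop) (i1 i2 : DecidablePred p) :
    (@Finset.filter α p i1 s).card = (@Finset.filter α p i2 s).card := by
  rw [Subsingleton.elim i1 i2]

/-- average of one factor -/
lemma avg_factor (m : ℕ) (hm : 1 ≤ m) (P : Fin m → Prop) [DecidablePred P] (a : ℕ) (ha : 4 ≤ a)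
    (hP : a * (univ.filter (fun i => ¬ P i)).card < m) :
    (∑ x : Bool × Fin m, (if x.1 = false ∧ P x.2 then (1 / 4 : ℝ) else 1)) /
      Fintype.card (Bool × Fin m) ≤ 3 / 4 := by
  have hcard : (Fintype.card (Bool × Fin m) : ℝ) = 2 * m := by
    rw [Fintype.card_prod, Fintype.card_bool, Fintype.card_fin]; push_cast; ring
  have hm0 : (0 : ℝ) < m := by exact_mod_cast hm
  have hsum : ∑ x : Bool × Fin m, (if x.1 = false ∧ P x.2 then (1 / 4 : ℝ) else 1) =
      2 * m - 3 / 4 * ((univ.filter P).card : ℝ) := by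
    rw [Fintype.sum_prod_type, Fintype.sum_bool]
    have h1 : ∑ y : Fin m, (if ((true, y) : Bool × Fin m).1 = false ∧ P ((true, y) : Bool × Fin m).2
        then (1 / 4 : ℝ) else 1) = m := by
      simp
    have h2 : ∑ y : Fin m, (if ((false, y) : Bool × Fin m).1 = false ∧ P ((false, y) : Bool × Fin m).2
        then (1 / 4 : ℝ) else 1) = m - 3 / 4 * ((univ.filter P).card : ℝ) := by
      have h3 : ∀ y : Fin m, (if ((false, y) : Bool × Fin m).1 = false ∧
          P ((false, y) : Bool × Fin m).2 then (1 / 4 : ℝ) else 1) =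
          1 - 3 / 4 * (if P y then 1 else 0) := by
        intro y
        by_cases h : P y
        · simp [h]; norm_num
        · simp [h]
      rw [Finset.sum_congr rfl (fun y _ => h3 y), Finset.sum_sub_distrib, ← Finset.mul_sum]
      simp
    rw [h1, h2]; ring
  rw [hsum, hcard, div_le_iff₀ (by positivity)]
  have h4 : (univ.filter P).card + (univ.filter (fun i => ¬ P i)).card = m := by
    have := Finset.card_filter_add_card_filter_not (s := (univ : Finset (Fin m))) P
    simpa using this
  have h5 : 4 * (univ.filter (fun i => ¬ P i)).card < m :=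
    lt_of_le_of_lt (Nat.mul_le_mul_right _ ha) hP
  have h6 : (3 * m : ℝ) ≤ 4 * ((univ.filter P).card : ℝ) := by
    have : 3 * m ≤ 4 * (univ.filter P).card := by omega
    exact_mod_cast this
  nlinarith

end S1K

theorem stmt_S1K : Stmt_S1K := by
  intro m n A a w t hm ha
  set X : Finset (Fin n) :=
    univ.filter (fun j : Fin n => a * (univ.filter (fun i : Fin m => (i, j) ∉ A)).card < m) with hX
  by_cases hw : X.card < w
  · rw [pr_false (fun ω h => absurd h.1 (not_le.mpr hw))]
    positivity
  push Not at hw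
  have hm0 : (0 : ℝ) < m := by exact_mod_cast hm
  have key := pr_le_of_prod
    (p := fun ω : Fin n → Bool × Fin m => w ≤ X.card ∧
      (univ.filter (fun j : Fin n => (ω j).1 = false ∧ ((ω j).2, j) ∈ A)).card ≤ t)
    (fun (j : Fin n) (x : Bool × Fin m) =>
      if j ∈ X then (if x.1 = false ∧ (x.2, j) ∈ A then (1 / 4 : ℝ) else 1) else 1)
    ((1 / 4 : ℝ) ^ t) (by positivity)
    (fun j x => by split_ifs <;> norm_num)
    (by
      rintro ω ⟨-, ht⟩
      have h1 : ∀ j : Fin n, (if (ω j).1 = false ∧ ((ω j).2, j) ∈ A then (1 / 4 : ℝ) else 1) ≤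
          (if j ∈ X then (if (ω j).1 = false ∧ ((ω j).2, j) ∈ A then (1 / 4 : ℝ) else 1) else 1) := by
        intro j
        split_ifs <;> norm_num
      refine le_trans ?_ (Finset.prod_le_prod (fun j _ => by split_ifs <;> norm_num)
        (fun j _ => h1 j))
      rw [Finset.prod_ite, Finset.prod_const, Finset.prod_const_one, mul_one]
      exact pow_le_pow_of_le_one (by norm_num) (by norm_num) ht)
  refine key.trans ?_
  have h2 : ∏ j : Fin n, ((∑ x : Bool × Fin m,
      (if j ∈ X then (if x.1 = false ∧ (x.2, j) ∈ A then (1 / 4 : ℝ) else 1) else 1)) /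
        Fintype.card (Bool × Fin m)) ≤ (3 / 4 : ℝ) ^ w := by
    have h3 : ∀ j : Fin n, (∑ x : Bool × Fin m,
      (if j ∈ X then (if x.1 = false ∧ (x.2, j) ∈ A then (1 / 4 : ℝ) else 1) else 1)) /
        Fintype.card (Bool × Fin m) ≤ if j ∈ X then (3 / 4 : ℝ) else 1 := by
      intro j
      by_cases hj : j ∈ X
      · simp only [hj, if_true]
        have hj' := (Finset.mem_filter.mp hj).2
        refine S1K.avg_factor m hm (fun i => (i, j) ∈ A) a ha
          (lt_of_le_of_lt (Nat.mul_le_mul_left a (le_of_eq ?_)) hj')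
        exact S1K.card_filter_inst _ _ _ _
      · simp only [hj, if_false]
        rw [Finset.sum_const, Finset.card_univ, nsmul_eq_mul, mul_one]
        exact div_self_le_one _
    refine (Finset.prod_le_prod (fun j _ => div_nonneg (Finset.sum_nonneg (fun x _ => by
      split_ifs <;> norm_num)) (Nat.cast_nonneg _)) (fun j _ => h3 j)).trans ?_
    rw [Finset.prod_ite, Finset.prod_const, Finset.prod_const_one, mul_one,
      Finset.filter_mem_eq_inter, Finset.univ_inter]
    exact pow_le_pow_of_le_one (by norm_num) (by norm_num) hw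
  rw [div_le_iff₀ (by positivity)]
  refine h2.trans (le_of_eq ?_)
  have h5 : (4 : ℝ) ^ t * (1 / 4 : ℝ) ^ t = 1 := by
    rw [← mul_pow]; norm_num
  calc (3 / 4 : ℝ) ^ w = ((4 : ℝ) ^ t * (1 / 4 : ℝ) ^ t) * (3 / 4) ^ w := by rw [h5, one_mul]
    _ = _ := by ring

end Pool.Agent.Work.MP_833881_lb
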