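import Pool.Agent.Work.MP_833881_lb.Prob

/-!
# Block S1M: few disjoint sets of a small family meet the forced edges
-/

namespace Pool.Agent.Work.MP_833881_lb

open Finset Pool.Agent.Work.MP_833881_lc
open scoped Classical

namespace S1M

variable {m n : ℕ}

lemma mem_Mt (ω : Fin n → Bool × Fin m) (e : Edge m n) : e ∈ Mt ω ↔ (ω e.2).2 = e.1 := by
  unfold Mt
  rw [Finset.mem_image]
  constructor
  · rintro ⟨j, -, rfl⟩; rfl
  · intro h; exact ⟨e.2, Finset.mem_univ _, by rw [h]⟩

lemma pr_snd (hm : 1 ≤ m) (i : Fin m) : pr (fun x : Bool × Fin m => x.2 = i) = 1 / m := by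
  rw [pr_eq (fun x : Bool × Fin m => x.2 = i)]
  have h : (univ.filter (fun x : Bool × Fin m => x.2 = i)) = (univ : Finset Bool) ×ˢ {i} := by
    ext ⟨b, y⟩; cases b <;> simp
  rw [h, Finset.card_product, Fintype.card_prod, Fintype.card_bool, Fintype.card_fin]
  have hm0 : (m : ℝ) ≠ 0 := by
    have : (0 : ℝ) < m := by exact_mod_cast hm
    exact this.ne'
  simp
  field_simp

/-- a fixed set of edges -/
lemma pr_subset_Mt (hm : 1 ≤ m) (F : Finset (Edge m n)) :
    pr (fun ω : Fin n → Bool × Fin m => F ⊆ Mt ω) ≤ (1 / (m : ℝ)) ^ F.card := by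
  have hm0 : (0 : ℝ) < m := by exact_mod_cast hm
  by_cases hinj : Set.InjOn (Prod.snd : Edge m n → Fin n) (F : Set (Edge m n))
  · have h1 : pr (fun ω : Fin n → Bool × Fin m => F ⊆ Mt ω) ≤
        pr (fun ω : Fin n → Bool × Fin m => ∀ j, ∀ e ∈ F, e.2 = j → (ω j).2 = e.1) := by
      apply pr_mono
      intro ω h j e he hj
      rw [← hj]
      exact (mem_Mt ω e).mp (h he)
    refine h1.trans ?_
    rw [pr_forall (fun (j : Fin n) (x : Bool × Fin m) => ∀ e ∈ F, e.2 = j → x.2 = e.1)]
    have h2 : ∀ j : Fin n, pr (fun x : Bool × Fin m => ∀ e ∈ F, e.2 = j → x.2 = e.1) ≤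
        if j ∈ F.image Prod.snd then 1 / (m : ℝ) else 1 := by
      intro j
      split_ifs with hj
      · obtain ⟨e, he, rfl⟩ := Finset.mem_image.mp hj
        rw [← pr_snd hm e.1]
        apply pr_mono
        intro x hx
        exact hx e he rfl
      · exact pr_le_one _
    refine (Finset.prod_le_prod (fun j _ => pr_nonneg _) (fun j _ => h2 j)).trans ?_
    rw [Finset.prod_ite, Finset.prod_const, Finset.prod_const_one, mul_one,
      Finset.filter_mem_eq_inter, Finset.univ_inter, Finset.card_image_of_injOn hinj]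
  · rw [pr_false]
    · positivity
    · intro ω h
      apply hinj
      intro e he f hf hef
      have h1 := (mem_Mt ω e).mp (h he)
      have h2 := (mem_Mt ω f).mp (h hf)
      refine Prod.ext ?_ hef
      rw [← h1, ← h2, hef]

end S1M

open S1M in
theorem stmt_S1M : Stmt_S1M := by
  intro m n Q z hm hz hQ
  have hm0 : (0 : ℝ) < m := by exact_mod_cast hm
  have hz0 : (0 : ℝ) < z := by exact_mod_cast hz
  -- the families `R`
  let RR : Finset (Finset (Finset (Edge m n))) :=
    (Q.powersetCard z).filter (fun R => ∀ A ∈ R, ∀ B ∈ R, A ≠ B → Disjoint A B)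
  have h1 : pr (fun ω : Fin n → Bool × Fin m => HasDisj Q z (fun A => ¬ Disjoint A (Mt ω))) ≤
      pr (fun ω : Fin n → Bool × Fin m => ∃ R ∈ RR, ∀ A ∈ R, ¬ Disjoint A (Mt ω)) := by
    apply pr_mono
    rintro ω ⟨R, hR1, hR2, hR3, hR4⟩
    exact ⟨R, Finset.mem_filter.mpr ⟨Finset.mem_powersetCard.mpr ⟨hR1, hR2⟩, hR3⟩, hR4⟩
  refine h1.trans ?_
  have h2 : ∀ R ∈ RR, pr (fun ω : Fin n → Bool × Fin m => ∀ A ∈ R, ¬ Disjoint A (Mt ω)) ≤
      2 ^ z * (1 / (m : ℝ)) ^ z := by
    intro R hR
    obtain ⟨hR1, hR3⟩ := Finset.mem_filter.mp hR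
    obtain ⟨hRQ, hRz⟩ := Finset.mem_powersetCard.mp hR1
    have h3 : pr (fun ω : Fin n → Bool × Fin m => ∀ A ∈ R, ¬ Disjoint A (Mt ω)) ≤
        pr (fun ω : Fin n → Bool × Fin m => ∃ e ∈ R.pi (fun A => A),
          (R.attach.image (fun A => e A.1 A.2)) ⊆ Mt ω) := by
      apply pr_mono
      intro ω h
      have h' : ∀ A : Finset (Edge m n), ∀ hA : A ∈ R, ∃ e ∈ A, e ∈ Mt ω := by
        intro A hA
        have := h A hA
        rw [Finset.disjoint_left] at this
        push Not at this
        exact this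
      choose e he1 he2 using h'
      refine ⟨e, Finset.mem_pi.mpr he1, ?_⟩
      intro f hf
      obtain ⟨A, -, rfl⟩ := Finset.mem_image.mp hf
      exact he2 A.1 A.2
    refine h3.trans ?_
    refine (pr_exists_le_card (R.pi (fun A => A)) _ ((1 / (m : ℝ)) ^ z) ?_).trans ?_
    · intro e he
      rw [Finset.mem_pi] at he
      have hc : (R.attach.image (fun A => e A.1 A.2)).card = z := by
        rw [Finset.card_image_of_injective, Finset.card_attach, hRz]
        intro A B hAB
        by_contra hne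
        have hne' : A.1 ≠ B.1 := fun h => hne (Subtype.ext h)
        have hd := hR3 A.1 A.2 B.1 B.2 hne'
        exact Finset.disjoint_left.mp hd (he A.1 A.2) (by
          have h6 : e A.1 A.2 = e B.1 B.2 := hAB
          rw [h6]; exact he B.1 B.2)
      have h5 := pr_subset_Mt (n := n) hm (R.attach.image (fun A => e A.1 A.2))
      rw [hc] at h5
      exact h5
    · apply mul_le_mul_of_nonneg_right _ (by positivity)
      rw [Finset.card_pi]
      have h4 : ∏ A ∈ R, A.card ≤ 2 ^ z := by
        rw [← hRz]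
        exact Finset.prod_le_pow_card R _ 2 (fun A hA => hQ A (hRQ hA))
      exact_mod_cast h4
  refine (pr_exists_le_card RR _ _ h2).trans ?_
  have h5 : (RR.card : ℝ) ≤ (3 * (Q.card : ℝ) / z) ^ z := by
    refine le_trans ?_ (choose_le_pow Q.card z hz)
    rw [← Finset.card_powersetCard]
    exact_mod_cast Finset.card_le_card (Finset.filter_subset _ _)
  calc (RR.card : ℝ) * (2 ^ z * (1 / (m : ℝ)) ^ z)
      ≤ (3 * (Q.card : ℝ) / z) ^ z * (2 ^ z * (1 / (m : ℝ)) ^ z) :=
        mul_le_mul_of_nonneg_right h5 (by positivity)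
    _ = (6 * (Q.card : ℝ) / (z * m)) ^ z := by
        rw [← mul_pow, ← mul_pow]
        congr 1
        field_simp
        ring

end Pool.Agent.Work.MP_833881_lb
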