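import Pool.Agent.Work.MP_833881_lb.Prob

/-!
# Block ST1 (helper68)
-/

namespace Pool.Agent.Work.MP_833881_lb

open Finset Pool.Agent.Work.MP_833881_lc
open scoped Classical

noncomputable section

namespace ST1

/-- the number of small subsets -/
theorem card_small {α : Type} [Fintype α] (k : ℕ) :
    (univ.filter (fun ξ : Finset α => ξ.card ≤ k)).card ≤ (Fintype.card α + 1) ^ k := by
  have h1 : (univ.filter (fun ξ : Finset α => ξ.card ≤ k)) =
      (range (k + 1)).biUnion (fun i => powersetCard i (univ : Finset α)) := by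
    ext ξ
    simp only [mem_filter, mem_univ, true_and, mem_biUnion, mem_range, mem_powersetCard, subset_univ]
    constructor
    · intro h
      exact ⟨ξ.card, by omega, rfl⟩
    · rintro ⟨i, hi, h⟩
      omega
  rw [h1]
  refine card_biUnion_le.trans ?_
  have h2 : ∀ i ∈ range (k + 1), (powersetCard i (univ : Finset α)).card ≤
      Fintype.card α ^ i * 1 ^ (k - i) * k.choose i := by
    intro i hi
    rw [card_powersetCard, card_univ, one_pow, mul_one]
    have h3 : 1 ≤ k.choose i := Nat.choose_pos (by have := mem_range.1 hi; omega)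
    exact (Nat.choose_le_pow _ _).trans (Nat.le_mul_of_pos_right _ h3)
  refine (sum_le_sum h2).trans ?_
  have h4 := add_pow (Fintype.card α) 1 k
  simp only [Nat.cast_id] at h4
  rw [h4]

/-- numerical facts -/
theorem num (C : ℕ) : ∃ a0 : ℕ, ∀ a : ℕ, a0 ≤ a →
    (131072 : ℝ) * (a : ℝ) ^ (32 * C + 1) * (3 / 4) ^ a ≤ 1 := by
  have h1 := tendsto_pow_const_mul_const_pow_of_abs_lt_one (32 * C + 1) (r := (3 / 4 : ℝ))
    (by rw [abs_of_pos (by norm_num)]; norm_num)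
  have h2 := (h1.eventually (gt_mem_nhds (show (0 : ℝ) < 1 / 131072 by norm_num)))
  obtain ⟨a0, h3⟩ := Filter.eventually_atTop.1 h2
  refine ⟨a0, fun a ha => ?_⟩
  have h4 := h3 a ha
  rw [mul_assoc]
  linarith

/-- few edges of `U` hit -/
theorem disj_of_card {m n : ℕ} (V : Finset (Edge m n)) (M : Finset (Edge m n)) (z : ℕ)
    (h : z ≤ (V ∩ M).card) :
    HasDisj (V.image (fun e => ({e} : Finset (Edge m n)))) z (fun A => ¬ Disjoint A M) := by
  obtain ⟨S, hS, hSc⟩ := exists_subset_card_eq h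
  refine ⟨S.image (fun e => ({e} : Finset (Edge m n))), image_subset_image (hS.trans inter_subset_left),
    ?_, ?_, ?_⟩
  · rw [card_image_of_injective _ singleton_injective, hSc]
  · intro A hA B hB hAB
    obtain ⟨e, he, rfl⟩ := mem_image.1 hA
    obtain ⟨f, hf, rfl⟩ := mem_image.1 hB
    rw [disjoint_singleton]
    rintro rfl
    exact hAB rfl
  · intro A hA
    obtain ⟨e, he, rfl⟩ := mem_image.1 hA
    rw [disjoint_singleton_left, not_not]
    exact (mem_inter.1 (hS he)).2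

end ST1

open ST1 in
theorem stmt_ST1 (hA : Stmt_S1A) (hB : Stmt_S1B) (hK : Stmt_S1K) (hM : Stmt_S1M) : Stmt_ST1 := by
  intro C hC
  obtain ⟨a0, ha0⟩ := num C
  refine ⟨max a0 (C + 24), ?_⟩
  intro a n ha han hna L U hL hSp
  have haC : C + 24 ≤ a := le_trans (le_max_right _ _) ha
  have hnum := ha0 a (le_trans (le_max_left _ _) ha)
  have ha1 : 1 ≤ a := by omega
  have hnpos : 1 ≤ n := le_trans (Nat.one_le_pow _ _ ha1) han
  have hn2 : 2 ≤ n := by
    have : 2 ^ 6 ≤ a ^ 6 := Nat.pow_le_pow_left (by omega) 6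
    omega
  set z : ℕ := n / a ^ 3 with hz
  set w : ℕ := n / a ^ 2 with hw
  have hz3 : a ^ 3 ≤ z := by
    rw [hz, Nat.le_div_iff_mul_le (by positivity)]
    calc a ^ 3 * a ^ 3 = a ^ 6 := by ring
      _ ≤ n := han
  have hza : a ≤ z := le_trans (Nat.le_self_pow (by norm_num) a) hz3
  have hzC : C + 1 ≤ z := by omega
  have hz1 : 1 ≤ z := by omega
  have hwz : a * z ≤ w := by
    rw [hw, Nat.le_div_iff_mul_le (by positivity)]
    calc a * z * a ^ 2 = z * a ^ 3 := by ring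
      _ ≤ n := by rw [hz]; exact Nat.div_mul_le_self _ _
  have hz2 : n ≤ 2 * (z * a ^ 3) := by
    have h1 := Nat.lt_div_mul_add (a := n) (b := a ^ 3) (by positivity)
    have h2 : a ^ 3 ≤ z * a ^ 3 := Nat.le_mul_of_pos_left _ (by omega)
    rw [← hz] at h1
    omega
  have hm1 : 1 ≤ n ^ 2 := Nat.one_le_pow _ _ hnpos
  -- real versions
  have har : (24 : ℝ) ≤ a := by exact_mod_cast (by omega : 24 ≤ a)
  have hap : (0 : ℝ) < a := by linarith
  have hnr : (2 : ℝ) ≤ n := by exact_mod_cast hn2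
  have hnp : (0 : ℝ) < n := by linarith
  have hzr : (1 : ℝ) ≤ z := by exact_mod_cast hz1
  have hLr : (L.card : ℝ) ≤ 2 ^ z := by exact_mod_cast hL
  -- the basic bound
  have hbase : ((1 : ℝ) / a) ^ z ≤ 1 / (8 * n) := by
    rw [div_pow, one_pow]
    apply one_div_le_one_div_of_le (by positivity)
    have h1 : (a : ℝ) ^ (C + 1) ≤ (a : ℝ) ^ z := pow_le_pow_right₀ (by linarith) hzC
    have h2 : (n : ℝ) ≤ (a : ℝ) ^ C := by exact_mod_cast hna
    calc (8 : ℝ) * n ≤ a * (a : ℝ) ^ C :=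
          mul_le_mul (by linarith) h2 hnp.le hap.le
      _ = (a : ℝ) ^ (C + 1) := by ring
      _ ≤ (a : ℝ) ^ z := h1
  set Xi : Finset (Finset (Edge (n ^ 2) n)) := univ.filter (fun ξ => ξ.card ≤ 8 * z) with hXi
  have hXic : (Xi.card : ℝ) ≤ ((a : ℝ) ^ (32 * C)) ^ z := by
    have h1 := card_small (α := Edge (n ^ 2) n) (8 * z)
    have h2 : Fintype.card (Edge (n ^ 2) n) = n ^ 3 := by
      rw [Fintype.card_prod, Fintype.card_fin, Fintype.card_fin]
      ring
    rw [h2] at h1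
    have h3 : n ^ 3 + 1 ≤ n ^ 4 := by
      have : n ^ 4 = n * n ^ 3 := by ring
      have h5 : 1 ≤ n ^ 3 := Nat.one_le_pow _ _ hnpos
      nlinarith
    have h4 : (n ^ 3 + 1) ^ (8 * z) ≤ (a ^ (32 * C)) ^ z := by
      calc (n ^ 3 + 1) ^ (8 * z) ≤ (n ^ 4) ^ (8 * z) := Nat.pow_le_pow_left h3 _
        _ = n ^ (32 * z) := by rw [← pow_mul]; congr 1; ring
        _ ≤ (a ^ C) ^ (32 * z) := Nat.pow_le_pow_left hna _
        _ = (a ^ (32 * C)) ^ z := by rw [← pow_mul, ← pow_mul]; congr 1; ring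
    exact_mod_cast h1.trans h4
  -- event 2
  have hE2 : pr (fun ω : Fin n → Bool × Fin (n ^ 2) => ∃ D ∈ L, ∃ ξ ∈ Xi,
      w ≤ (univ.filter (fun j : Fin n =>
        a * (univ.filter (fun i : Fin (n ^ 2) => (i, j) ∉ Pos D ξ)).card < n ^ 2)).card ∧
      (univ.filter (fun j : Fin n => (ω j).1 = false ∧ ((ω j).2, j) ∈ Pos D ξ)).card ≤ 8 * z) ≤
      1 / (8 * n) := by
    have h1 := pr_exists_le_card L (fun D (ω : Fin n → Bool × Fin (n ^ 2)) => ∃ ξ ∈ Xi,
      w ≤ (univ.filter (fun j : Fin n =>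
        a * (univ.filter (fun i : Fin (n ^ 2) => (i, j) ∉ Pos D ξ)).card < n ^ 2)).card ∧
      (univ.filter (fun j : Fin n => (ω j).1 = false ∧ ((ω j).2, j) ∈ Pos D ξ)).card ≤ 8 * z)
      (Xi.card * (4 ^ (8 * z) * (3 / 4) ^ w)) (fun D _ => pr_exists_le_card Xi _ _
        (fun ξ _ => hK (n ^ 2) n (Pos D ξ) a w (8 * z) hm1 (by omega)))
    refine h1.trans (le_trans ?_ hbase)
    have h2 : ((3 : ℝ) / 4) ^ w ≤ ((3 / 4) ^ a) ^ z := by
      rw [← pow_mul]
      exact pow_le_pow_of_le_one (by norm_num) (by norm_num) hwz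
    have h3 : (4 : ℝ) ^ (8 * z) = (65536 : ℝ) ^ z := by
      rw [pow_mul]; norm_num
    calc (L.card : ℝ) * (Xi.card * (4 ^ (8 * z) * (3 / 4) ^ w))
        ≤ 2 ^ z * (((a : ℝ) ^ (32 * C)) ^ z * ((65536 : ℝ) ^ z * ((3 / 4) ^ a) ^ z)) := by
          rw [h3]; gcongr
      _ = (131072 * (a : ℝ) ^ (32 * C) * (3 / 4) ^ a) ^ z := by
          rw [← mul_pow, ← mul_pow, ← mul_pow]
          congr 1
          ring
      _ ≤ (1 / (a : ℝ)) ^ z := by
          apply pow_le_pow_left₀ (by positivity)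
          rw [le_div_iff₀ hap]
          calc (131072 : ℝ) * (a : ℝ) ^ (32 * C) * (3 / 4) ^ a * a
              = 131072 * (a : ℝ) ^ (32 * C + 1) * (3 / 4) ^ a := by ring
            _ ≤ 1 := hnum
  -- events 3, 4
  have hQ : ∀ (Q : Finset (Finset (Edge (n ^ 2) n))), Q.card * a ^ 5 ≤ n ^ 3 →
      (6 * (Q.card : ℝ) / (z * (n ^ 2 : ℕ))) ^ z ≤ (12 / (a : ℝ) ^ 2) ^ z := by
    intro Q hQ
    apply pow_le_pow_left₀ (by positivity)
    rw [div_le_div_iff₀ (by positivity) (by positivity)]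
    have h1 : (Q.card : ℝ) * (a : ℝ) ^ 5 ≤ (n : ℝ) ^ 3 := by exact_mod_cast hQ
    have h2 : (n : ℝ) ≤ 2 * (z * (a : ℝ) ^ 3) := by exact_mod_cast hz2
    push_cast
    have h3 : (Q.card : ℝ) * (a : ℝ) ^ 5 ≤ 2 * (z * (a : ℝ) ^ 3) * (n : ℝ) ^ 2 := by
      calc (Q.card : ℝ) * (a : ℝ) ^ 5 ≤ (n : ℝ) ^ 3 := h1
        _ = n * (n : ℝ) ^ 2 := by ring
        _ ≤ _ := by gcongr
    have h4 : 0 ≤ (2 * (z : ℝ) * (n : ℝ) ^ 2 - Q.card * (a : ℝ) ^ 2) * (a : ℝ) ^ 3 := by
      nlinarith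
    have h5 : 0 ≤ 2 * (z : ℝ) * (n : ℝ) ^ 2 - Q.card * (a : ℝ) ^ 2 :=
      nonneg_of_mul_nonneg_left h4 (by positivity)
    nlinarith
  have hfin : (2 : ℝ) ^ z * (12 / (a : ℝ) ^ 2) ^ z ≤ 1 / (8 * n) := by
    refine le_trans ?_ hbase
    rw [← mul_pow]
    apply pow_le_pow_left₀ (by positivity)
    rw [← mul_div_assoc, div_le_div_iff₀ (by positivity) hap]
    nlinarith
  have hE3 : pr (fun ω : Fin n → Bool × Fin (n ^ 2) => ∃ D ∈ L,
      HasDisj (QU D (U D)) z (fun A => ¬ Disjoint A (Mt ω))) ≤ 1 / (8 * n) := by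
    have h1 := pr_exists_le_card L (fun D (ω : Fin n → Bool × Fin (n ^ 2)) =>
      HasDisj (QU D (U D)) z (fun A => ¬ Disjoint A (Mt ω))) ((12 / (a : ℝ) ^ 2) ^ z) (fun D hD => by
        refine (hM (n ^ 2) n (QU D (U D)) z hm1 hz1 ?_).trans (hQ _ (hSp.2 D hD).2)
        intro A hA
        obtain ⟨t, ht, rfl⟩ := mem_image.1 hA
        exact card_image_le.trans (mem_filter.1 ht).2.1.le)
    refine h1.trans (le_trans ?_ hfin)
    gcongr
  have hE4 : pr (fun ω : Fin n → Bool × Fin (n ^ 2) => ∃ D ∈ L,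
      z ≤ (U D ∩ Mt ω).card) ≤ 1 / (8 * n) := by
    have h1 := pr_exists_le_card L (fun D (ω : Fin n → Bool × Fin (n ^ 2)) =>
      z ≤ (U D ∩ Mt ω).card) ((12 / (a : ℝ) ^ 2) ^ z) (fun D hD => by
        refine (pr_mono (fun ω h => disj_of_card (U D) (Mt ω) z h)).trans
          ((hM (n ^ 2) n _ z hm1 hz1 ?_).trans (hQ _ ?_))
        · intro A hA
          obtain ⟨e, he, rfl⟩ := mem_image.1 hA
          rw [card_singleton]; omega
        · have h2 := (hSp.2 D hD).1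
          have h3 : ((U D).image (fun e => ({e} : Finset (Edge (n ^ 2) n)))).card ≤ (U D).card :=
            card_image_le
          calc _ ≤ (U D).card * a ^ 5 := Nat.mul_le_mul_right _ h3
            _ ≤ n ^ 2 := h2
            _ ≤ n ^ 3 := Nat.pow_le_pow_right hnpos (by norm_num))
    refine h1.trans (le_trans ?_ hfin)
    gcongr
  have hE0 := hA (n ^ 2) n hm1
  have hE1 := hB (n ^ 2) n hm1
  have hE1' : ((n : ℝ) * (n - 1)) / (2 * (n ^ 2 : ℕ)) = 1 / 2 - 1 / (2 * n) := by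
    push_cast
    field_simp
  rw [hE1'] at hE1
  have : Nonempty (Fin n → Bool × Fin (n ^ 2)) := ⟨fun _ => (true, ⟨0, by omega⟩)⟩
  obtain ⟨ω, hω⟩ := exists_of_pr_lt_one (p := fun ω : Fin n → Bool × Fin (n ^ 2) =>
      (2 * (univ.filter (fun j => (ω j).1 = true)).card < n) ∨
      ((¬ Function.Injective (fun j => (ω j).2)) ∨
      ((∃ D ∈ L, ∃ ξ ∈ Xi,
        w ≤ (univ.filter (fun j : Fin n =>
          a * (univ.filter (fun i : Fin (n ^ 2) => (i, j) ∉ Pos D ξ)).card < n ^ 2)).card ∧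
        (univ.filter (fun j : Fin n => (ω j).1 = false ∧ ((ω j).2, j) ∈ Pos D ξ)).card ≤ 8 * z) ∨
      ((∃ D ∈ L, HasDisj (QU D (U D)) z (fun A => ¬ Disjoint A (Mt ω))) ∨
      (∃ D ∈ L, z ≤ (U D ∩ Mt ω).card))))) (by
    have h1 := pr_or (fun ω : Fin n → Bool × Fin (n ^ 2) =>
      ∃ D ∈ L, HasDisj (QU D (U D)) z (fun A => ¬ Disjoint A (Mt ω)))
      (fun ω => ∃ D ∈ L, z ≤ (U D ∩ Mt ω).card)
    have h2 := (pr_or (fun ω : Fin n → Bool × Fin (n ^ 2) => ∃ D ∈ L, ∃ ξ ∈ Xi,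
        w ≤ (univ.filter (fun j : Fin n =>
          a * (univ.filter (fun i : Fin (n ^ 2) => (i, j) ∉ Pos D ξ)).card < n ^ 2)).card ∧
        (univ.filter (fun j : Fin n => (ω j).1 = false ∧ ((ω j).2, j) ∈ Pos D ξ)).card ≤ 8 * z) _).trans
      (add_le_add_right h1 _)
    have h3 := (pr_or (fun ω : Fin n → Bool × Fin (n ^ 2) =>
      ¬ Function.Injective (fun j => (ω j).2)) _).trans (add_le_add_right h2 _)
    have h4 := (pr_or (fun ω : Fin n → Bool × Fin (n ^ 2) =>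
      2 * (univ.filter (fun j => (ω j).1 = true)).card < n) _).trans (add_le_add_right h3 _)
    refine h4.trans_lt ?_
    have h5 : (1 : ℝ) / (2 * n) = 4 * (1 / (8 * n)) := by
      field_simp
      norm_num
    have h6 : (0 : ℝ) < 1 / (8 * n) := by positivity
    linarith)
  simp only [not_or, not_exists, not_and, not_lt, not_not, not_le] at hω
  obtain ⟨w0, w1, w2, w3, w4⟩ := hω
  refine ⟨ω, w0, w1, ?_, fun D hD => ⟨w3 D hD, w4 D hD⟩⟩
  intro D hD ξ hξ
  by_contra hcon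
  rw [not_or, not_lt, not_lt] at hcon
  have := w2 D hD ξ (mem_filter.2 ⟨mem_univ _, hξ⟩) hcon.1
  omega

end

end Pool.Agent.Work.MP_833881_lb
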