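import Pool.Agent.Work.MP_833881_lb.ST2A

/-!
# Block ST2: the choice of the samples
-/

namespace Pool.Agent.Work.MP_833881_lb

open Finset Pool.Agent.Work.MP_833881_lc
open scoped Classical

noncomputable section

namespace ST2

section events

variable {C a n : ℕ}

/-- a set of `z` sampled edges gives `z` disjoint singletons -/
theorem hasDisj_of_card {m k z : ℕ} (V E : Finset (Edge m k)) (h : z ≤ (V ∩ E).card) :
    HasDisj (V.image (fun e => ({e} : Finset (Edge m k)))) z (fun A => A ⊆ E) := by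
  obtain ⟨T, hT, hcard⟩ := Finset.exists_subset_card_eq h
  refine ⟨T.image (fun e => ({e} : Finset (Edge m k))), ?_, ?_, ?_, ?_⟩
  · exact Finset.image_subset_image (hT.trans Finset.inter_subset_left)
  · rw [Finset.card_image_of_injective _ Finset.singleton_injective, hcard]
  · intro A hA B hB hAB
    obtain ⟨x, _, rfl⟩ := Finset.mem_image.1 hA
    obtain ⟨y, _, rfl⟩ := Finset.mem_image.1 hB
    rw [Finset.disjoint_singleton]
    rintro rfl
    exact hAB rfl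
  · intro A hA
    obtain ⟨x, hx, rfl⟩ := Finset.mem_image.1 hA
    exact Finset.singleton_subset_iff.2 (Finset.mem_inter.1 (hT hx)).2

theorem NT_card {m k : ℕ} (D : Line (Edge m k)) (hD : ∀ t ∈ D, t.card ≤ 2) (ξ1 ξ0 : Finset (Edge m k)) :
    ∀ A ∈ NT D ξ1 ξ0, A.card ≤ 2 := by
  intro A hA
  unfold NT at hA
  obtain ⟨t, ht, rfl⟩ := Finset.mem_image.1 hA
  refine Finset.card_image_le.trans ((Finset.card_filter_le _ _).trans ?_)
  exact hD t (Finset.mem_filter.1 ht).1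

end events

end ST2

open ST2 in
/-- **ST2** -/
theorem stmt_ST2 (hMUL : Stmt_MUL) (hEXP : Stmt_EXP) (hDEG : Stmt_DEG) (hMGF : Stmt_MGF)
    (hNEG : Stmt_NEG) (hHOL : Stmt_HOL) : Stmt_ST2 := by
  intro C hC
  obtain ⟨a0, ha0⟩ := growth C (rr C + cc C + 2) hC
  refine ⟨a0, ?_⟩
  intro a n ha h6 hn L U hL hSp h hl P0 E0 hinj hh hP0 hE0
  have hP : Par C a n := ⟨hC, ha0 a ha, h6, hn⟩
  have hage := hP.a_ge
  have hnge := hP.n_ge
  have hsge := hP.s_ge
  have hZa := hP.Za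
  have hh1 : 1 ≤ h := by omega
  have hhn : h ≤ n := by
    have := Fintype.card_le_of_injective hl hinj
    simpa using this
  have hLR : ((L.card : ℕ) : ℝ) ≤ 2 ^ (n / a ^ 3) := by exact_mod_cast hL
  have hXi := count_xi hP
  have hcc1 : 1 ≤ rr C + cc C := by unfold cc; omega
  have hhR : (0 : ℝ) < h := by exact_mod_cast hh1
  have _hne : Nonempty (Fin h) := ⟨⟨0, by omega⟩⟩
  have _hne2 : Nonempty (Fin (n ^ 2) → Fin (sa C a) → Fin h × Bool) :=
    ⟨fun _ _ => (Classical.arbitrary _, true)⟩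
  have hmgf0 : ∀ (x y z u : ℕ), (0 : ℝ) ≤ 4 ^ x / (1 + 1 / (2 * (y : ℝ) ^ z)) ^ u := by
    intro x y z u
    positivity
  -- the eight bad events
  have h1 : pr (fun ω : Fin (n ^ 2) → Fin (sa C a) → Fin h × Bool =>
      ∃ i, alive hl (∅ : Finset (Edge (n ^ 2) n)) ω i < rr C + cc C) ≤ 1 / 10 :=
    (hDEG (n ^ 2) n h (sa C a) hl (rr C + cc C) hh1 (by omega) hcc1).trans (num_deg hP)
  have h2 : pr (fun ω : Fin (n ^ 2) → Fin (sa C a) → Fin h × Bool =>
      ∃ q ∈ Finset.Icc 1 (SS C a n), ∃ A : Finset (Fin (n ^ 2)), A.card = q ∧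
        (univ.filter (fun j => ∃ i ∈ A, ∃ l, (ω i l).2 = true ∧ hl (ω i l).1 = j)).card + cc C * q <
          ∑ i ∈ A, alive hl (∅ : Finset (Edge (n ^ 2) n)) ω i) ≤ 1 / 10 := by
    refine (pr_exists_le _ _).trans ?_
    have hx : (1 : ℝ) / a ≤ 1 / 20 := by
      have : (20 : ℝ) ≤ a := by exact_mod_cast (by omega : 20 ≤ a)
      exact one_div_le_one_div_of_le (by norm_num) this
    have hx0 : (0 : ℝ) ≤ 1 / a := by positivity
    refine (Finset.sum_le_sum (g := fun q => (1 / (a : ℝ)) ^ q) ?_).trans ?_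
    · intro q hq
      have hq2 := (Finset.mem_Icc.1 hq).2
      refine (hEXP (n ^ 2) n h (sa C a) hl (cc C) q hinj hh1).trans ?_
      exact pow_le_pow_left₀ (by positivity) (num_exp hP h q hh hq2) _
    · refine (geom _ hx0 (by linarith) _).trans ?_
      linarith
  have hXcard : (0 : ℝ) ≤ 2 ^ (32 * sa C a * (n / a ^ 3)) := by positivity
  set Ξ : Finset (Finset (Edge (n ^ 2) n)) := univ.filter (fun ξ => ξ.card ≤ 8 * (n / a ^ 3)) with hΞ
  have hLX : (((L ×ˢ Ξ).card : ℕ) : ℝ) ≤ 2 ^ (n / a ^ 3) * 2 ^ (32 * sa C a * (n / a ^ 3)) := by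
    rw [Finset.card_product, Nat.cast_mul]
    exact mul_le_mul hLR hXi (Nat.cast_nonneg _) (by positivity)
  have hHolNum : ∀ N : ℕ, n ^ 2 ≤ 2 * a * N →
      (2 : ℝ) ^ (n / a ^ 3) * 2 ^ (32 * sa C a * (n / a ^ 3)) * h *
      (2 ^ (3 * SS C a n - 1) * (1 - 1 / (4 * (h : ℝ))) ^ N) ≤ 1 / 10 :=
    fun N hN => num_hol hP h N hh hhn hN
  have hfac : (0 : ℝ) ≤ 1 - 1 / (4 * (h : ℝ)) := by
    have h4 : (1 : ℝ) ≤ h := by exact_mod_cast hh1
    rw [sub_nonneg, div_le_one (by positivity)]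
    linarith
  have hone : (1 : ℝ) ≤ 2 ^ (n / a ^ 3) * 2 ^ (32 * sa C a * (n / a ^ 3)) := by
    have h4 : (1 : ℝ) ≤ 2 ^ (n / a ^ 3) := one_le_pow₀ (by norm_num)
    have h5 : (1 : ℝ) ≤ 2 ^ (32 * sa C a * (n / a ^ 3)) := one_le_pow₀ (by norm_num)
    nlinarith
  have h3 : pr (fun ω : Fin (n ^ 2) → Fin (sa C a) → Fin h × Bool =>
      ∃ x ∈ (univ : Finset (Fin h)),
        ((E1 hl P0 ω).filter (fun e => e.2 = hl x ∧ e ∉ (∅ : Finset (Edge (n ^ 2) n)))).card ≤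
          3 * SS C a n - 1) ≤ 1 / 10 := by
    have hN : ∀ x : Fin h, n ^ 2 - n ≤ (univ.filter (fun i : Fin (n ^ 2) => i ∉ P0 ∧
        (i, hl x) ∉ (∅ : Finset (Edge (n ^ 2) n)))).card := by
      intro x
      have h4 : (univ.filter (fun i : Fin (n ^ 2) => i ∉ P0 ∧ (i, hl x) ∉ (∅ : Finset (Edge (n ^ 2) n)))) =
          P0ᶜ := by
        ext i
        simp
      rw [h4, Finset.card_compl, Fintype.card_fin]
      omega
    have hN2 : n ^ 2 ≤ 2 * a * (n ^ 2 - n) := by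
      have h4 : 2 * n ≤ n ^ 2 := by
        rw [pow_two]
        exact Nat.mul_le_mul_right _ (by omega)
      have h5 : n ^ 2 ≤ 2 * (n ^ 2 - n) := by omega
      calc n ^ 2 ≤ 2 * (n ^ 2 - n) := h5
        _ ≤ 2 * a * (n ^ 2 - n) := Nat.mul_le_mul_right _ (by omega)
    refine le_trans (pr_exists_le_card _ _
      (2 ^ (3 * SS C a n - 1) * (1 - 1 / (4 * (h : ℝ))) ^ (n ^ 2 - n)) ?_) ?_
    · intro x _
      exact hHOL (n ^ 2) n h (sa C a) hl P0 ∅ x (n ^ 2 - n) (3 * SS C a n - 1) (by omega) (hN x)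
    · rw [Finset.card_univ, Fintype.card_fin]
      refine le_trans ?_ (hHolNum _ hN2)
      have h5 : (0 : ℝ) ≤ 2 ^ (3 * SS C a n - 1) * (1 - 1 / (4 * (h : ℝ))) ^ (n ^ 2 - n) :=
        mul_nonneg (by positivity) (pow_nonneg hfac _)
      apply mul_le_mul_of_nonneg_right _ h5
      exact le_mul_of_one_le_left hhR.le hone
  have h4 : pr (fun ω : Fin (n ^ 2) → Fin (sa C a) → Fin h × Bool =>
      ∃ p ∈ L ×ˢ Ξ,
        n / a ^ 2 ≤ (univ.filter (fun i => i ∉ P0 ∧ alive hl (Pos p.1 p.2) ω i < rr C + cc C)).card ∧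
        (univ.filter (fun i => i ∉ P0 ∧ alive hl (Pos p.1 p.2) ω i = 0)).card ≤ 24 * (n / a ^ 3)) ≤ 1 / 10 := by
    refine le_trans (pr_exists_le_card _ _
      (4 ^ (24 * (n / a ^ 3)) / (1 + 1 / (2 * (sa C a : ℝ) ^ (rr C + cc C))) ^ (n / a ^ 2)) ?_) ?_
    · intro p _
      exact hMGF (n ^ 2) n h (sa C a) hl P0 (Pos p.1 p.2) (rr C + cc C)
        (n / a ^ 2) (24 * (n / a ^ 3)) hh1 (by omega) hcc1
    · refine le_trans ?_ (num_mgf hP)
      exact mul_le_mul_of_nonneg_right hLX (hmgf0 _ _ _ _)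
  have h5 : pr (fun ω : Fin (n ^ 2) → Fin (sa C a) → Fin h × Bool =>
      ∃ p ∈ L ×ˢ (Ξ ×ˢ Ξ),
        (∀ A ∈ NT p.1 p.2.1 p.2.2, ¬ Disjoint A (E0 ∪ E1 hl P0 ω)) ∧
          3 * (n / a ^ 2 / 3) < (NSf E0 (E1 hl P0 ω) (NT p.1 p.2.1 p.2.2)).card) ≤ 1 / 10 := by
    have hW3 : 1 ≤ n / a ^ 2 / 3 := by
      have h5 : a * (n / a ^ 3) ≤ n / a ^ 2 := hP.aZ
      have h6 : a * 1 ≤ a * (n / a ^ 3) := Nat.mul_le_mul_left _ (by omega)
      omega
    refine le_trans (pr_exists_le_card _ _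
      ((2 * ((sa C a : ℝ) / (2 * h))) ^ (n / a ^ 2 / 3) + (4 * ((sa C a : ℝ) / (2 * h))) ^ (n / a ^ 2 / 3)) ?_) ?_
    · intro p hp
      exact hNEG (n ^ 2) n h (sa C a) hl P0 E0 (NT p.1 p.2.1 p.2.2)
        (n / a ^ 2 / 3) hinj hh1 hW3 hE0 (NT_card _ (hSp.1 p.1 (Finset.mem_product.1 hp).1) _ _)
    · refine le_trans ?_ (num_neg hP h hh)
      apply mul_le_mul_of_nonneg_right _ (by positivity)
      rw [Finset.card_product, Finset.card_product, Nat.cast_mul, Nat.cast_mul]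
      exact mul_le_mul hLR (mul_le_mul hXi hXi (Nat.cast_nonneg _) (by positivity))
        (by positivity) (by positivity)
  have h6' : pr (fun ω : Fin (n ^ 2) → Fin (sa C a) → Fin h × Bool =>
      ∃ p ∈ (L ×ˢ Ξ) ×ˢ (univ : Finset (Fin h)),
        n ^ 2 ≤ 2 * a * (univ.filter (fun i : Fin (n ^ 2) => i ∉ P0 ∧ (i, hl p.2) ∉ Pos p.1.1 p.1.2)).card ∧
        ((E1 hl P0 ω).filter (fun e => e.2 = hl p.2 ∧ e ∉ Pos p.1.1 p.1.2)).card ≤
          3 * SS C a n - 1) ≤ 1 / 10 := by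
    -- a common lower bound for `N`
    obtain ⟨N0, hN0, hN0'⟩ : ∃ N0 : ℕ, n ^ 2 ≤ 2 * a * N0 ∧ ∀ N : ℕ, n ^ 2 ≤ 2 * a * N → N0 ≤ N := by
      have hex : ∃ N : ℕ, n ^ 2 ≤ 2 * a * N := ⟨n ^ 2, Nat.le_mul_of_pos_left _ (by omega)⟩
      exact ⟨Nat.find hex, Nat.find_spec hex, fun N hN => Nat.find_min' hex hN⟩
    refine le_trans (pr_exists_le_card _ _ (2 ^ (3 * SS C a n - 1) * (1 - 1 / (4 * (h : ℝ))) ^ N0) ?_) ?_
    · intro p _
      by_cases hp : n ^ 2 ≤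
          2 * a * (univ.filter (fun i : Fin (n ^ 2) => i ∉ P0 ∧ (i, hl p.2) ∉ Pos p.1.1 p.1.2)).card
      · refine le_trans (pr_mono (fun ω hω => hω.2)) ?_
        exact hHOL (n ^ 2) n h (sa C a) hl P0 (Pos p.1.1 p.1.2) p.2 N0 (3 * SS C a n - 1) (by omega)
          (hN0' _ hp)
      · rw [pr_false (fun ω hω => hp hω.1)]
        exact mul_nonneg (by positivity) (pow_nonneg hfac _)
    · refine le_trans ?_ (hHolNum _ hN0)
      apply mul_le_mul_of_nonneg_right _ (mul_nonneg (by positivity) (pow_nonneg hfac _))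
      rw [Finset.card_product, Nat.cast_mul, Finset.card_univ, Fintype.card_fin]
      exact mul_le_mul_of_nonneg_right hLX hhR.le
  have h7 : pr (fun ω : Fin (n ^ 2) → Fin (sa C a) → Fin h × Bool =>
      ∃ D ∈ L, HasDisj ((QU D (U D)).filter (fun A => A.card = 2)) (n / a ^ 3)
        (fun A => A ⊆ E1 hl P0 ω)) ≤ 1 / 10 := by
    refine (pr_exists_le _ _).trans ?_
    by_cases hLe : L = ∅
    · subst hLe
      simp
    -- the largest family
    have hb : ∀ D ∈ L, pr (fun ω : Fin (n ^ 2) → Fin (sa C a) → Fin h × Bool =>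
        HasDisj ((QU D (U D)).filter (fun A => A.card = 2)) (n / a ^ 3) (fun A => A ⊆ E1 hl P0 ω)) ≤
        (1 / 10) / 2 ^ (n / a ^ 3) := by
      intro D hD
      rw [le_div_iff₀ (by positivity), mul_comm]
      refine le_trans (mul_le_mul_of_nonneg_left (hMUL (n ^ 2) n h (sa C a) hl P0
        ((QU D (U D)).filter (fun A => A.card = 2)) (n / a ^ 3) 2 hinj hh1 (by omega)
        (fun A hA => (Finset.mem_filter.1 hA).2)) (by positivity)) ?_
      refine num_mul2 hP h _ hh ?_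
      refine le_trans (Nat.mul_le_mul_right _ (Finset.card_filter_le _ _)) (hSp.2 D hD).2
    refine (Finset.sum_le_card_nsmul L _ _ hb).trans ?_
    rw [nsmul_eq_mul]
    have h8 : ((L.card : ℕ) : ℝ) * (1 / 10 / 2 ^ (n / a ^ 3)) ≤
        2 ^ (n / a ^ 3) * (1 / 10 / 2 ^ (n / a ^ 3)) := mul_le_mul_of_nonneg_right hLR (by positivity)
    refine h8.trans (le_of_eq ?_)
    rw [mul_div_cancel₀]
    positivity
  have h8 : pr (fun ω : Fin (n ^ 2) → Fin (sa C a) → Fin h × Bool =>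
      ∃ D ∈ L, HasDisj ((U D).image (fun e => ({e} : Finset (Edge (n ^ 2) n)))) (n / a ^ 3)
        (fun A => A ⊆ E1 hl P0 ω)) ≤ 1 / 10 := by
    refine (pr_exists_le _ _).trans ?_
    have hb : ∀ D ∈ L, pr (fun ω : Fin (n ^ 2) → Fin (sa C a) → Fin h × Bool =>
        HasDisj ((U D).image (fun e => ({e} : Finset (Edge (n ^ 2) n)))) (n / a ^ 3)
          (fun A => A ⊆ E1 hl P0 ω)) ≤ (1 / 10) / 2 ^ (n / a ^ 3) := by
      intro D hD
      rw [le_div_iff₀ (by positivity), mul_comm]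
      refine le_trans (mul_le_mul_of_nonneg_left (hMUL (n ^ 2) n h (sa C a) hl P0
        ((U D).image (fun e => ({e} : Finset (Edge (n ^ 2) n)))) (n / a ^ 3) 1 hinj hh1 (by omega)
        (fun A hA => by
          obtain ⟨x, _, rfl⟩ := Finset.mem_image.1 hA
          exact Finset.card_singleton x)) (by positivity)) ?_
      refine num_mul1 hP h _ hh ?_
      refine le_trans (Nat.mul_le_mul_right _ Finset.card_image_le) (hSp.2 D hD).1
    refine (Finset.sum_le_card_nsmul L _ _ hb).trans ?_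
    rw [nsmul_eq_mul]
    have h8 : ((L.card : ℕ) : ℝ) * (1 / 10 / 2 ^ (n / a ^ 3)) ≤
        2 ^ (n / a ^ 3) * (1 / 10 / 2 ^ (n / a ^ 3)) := mul_le_mul_of_nonneg_right hLR (by positivity)
    refine h8.trans (le_of_eq ?_)
    rw [mul_div_cancel₀]
    positivity
  -- union bound
  have hall := (pr_or _ _).trans (add_le_add ((pr_or _ _).trans (add_le_add ((pr_or _ _).trans
    (add_le_add h1 h2)) ((pr_or _ _).trans (add_le_add h3 h4)))) ((pr_or _ _).trans (add_le_add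
    ((pr_or _ _).trans (add_le_add h5 h6')) ((pr_or _ _).trans (add_le_add h7 h8)))))
  obtain ⟨ω, hω⟩ := exists_of_pr_lt_one (lt_of_le_of_lt hall (by norm_num))
  push Not at hω
  obtain ⟨⟨⟨g1, g2⟩, g3, g4⟩, ⟨g5, g6⟩, g7, g8⟩ := hω
  have hSS1 : 1 ≤ SS C a n := by
    unfold SS
    have h9 : a * (n / a ^ 3) ≤ n / a ^ 2 := hP.aZ
    have h10 : 1 ≤ n / a ^ 2 := by
      have h11 : a * 1 ≤ a * (n / a ^ 3) := Nat.mul_le_mul_left _ (by omega)
      omega
    have : 0 < 12 * (sa C a + 2) * (n / a ^ 2) := by positivity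
    omega
  refine ⟨ω, g1, ?_, ?_, ?_, ?_, ?_, ?_⟩
  · intro A hA
    by_cases hA0 : A.card = 0
    · rw [Finset.card_eq_zero.1 hA0]
      simp
    · have h9 := g2 A.card (Finset.mem_Icc.2 ⟨by omega, hA⟩) A rfl
      exact h9
  · intro x
    have h9 := g3 x (Finset.mem_univ _)
    have h10 : (E1 hl P0 ω).filter (fun e => e.2 = hl x ∧ e ∉ (∅ : Finset (Edge (n ^ 2) n))) =
        (E1 hl P0 ω).filter (fun e => e.2 = hl x) := by
      apply Finset.filter_congr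
      intro e _
      simp
    rw [h10] at h9
    omega
  · intro D hD ξ hξ
    by_cases h9 : n / a ^ 2 ≤
        (univ.filter (fun i => i ∉ P0 ∧ alive hl (Pos D ξ) ω i < rr C + cc C)).card
    · right
      exact g4 (D, ξ) (Finset.mem_product.2 ⟨hD, Finset.mem_filter.2 ⟨Finset.mem_univ _, hξ⟩⟩) h9
    · left
      omega
  · intro D hD ξ1 ξ0 hξ1 hξ0
    by_cases h9 : ∃ A ∈ NT D ξ1 ξ0, Disjoint A (E0 ∪ E1 hl P0 ω)
    · exact Or.inl h9
    · right
      have h10 := g5 (D, (ξ1, ξ0)) (Finset.mem_product.2 ⟨hD, Finset.mem_product.2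
        ⟨Finset.mem_filter.2 ⟨Finset.mem_univ _, hξ1⟩, Finset.mem_filter.2 ⟨Finset.mem_univ _, hξ0⟩⟩⟩)
        (fun A hA hd => h9 ⟨A, hA, hd⟩)
      refine le_trans h10 ?_
      exact Nat.mul_div_le _ _
  · intro D hD ξ hξ x hx
    have h9 := g6 ((D, ξ), x) (Finset.mem_product.2 ⟨Finset.mem_product.2
      ⟨hD, Finset.mem_filter.2 ⟨Finset.mem_univ _, hξ⟩⟩, Finset.mem_univ _⟩) hx
    have h9' : 3 * SS C a n - 1 <
      ((E1 hl P0 ω).filter (fun e => e.2 = hl x ∧ e ∉ Pos D ξ)).card := h9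
    omega
  · intro D hD
    refine ⟨g7 D hD, ?_⟩
    by_contra hcon
    exact g8 D hD (hasDisj_of_card (U D) (E1 hl P0 ω) (by omega))

end

end Pool.Agent.Work.MP_833881_lb
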