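import Pool.Agent.Work.MP_833881_lb.Interface
import Pool.Agent.Work.MP_833881_lb.Prob

/-!
# Block ST2: the numerical estimates
-/

namespace Pool.Agent.Work.MP_833881_lb

open Finset Pool.Agent.Work.MP_833881_lc
open scoped Classical

noncomputable section

namespace ST2

/-- powers of the number of samples are small -/
theorem growth (C K : ℕ) (hC : 1 ≤ C) : ∃ a0 : ℕ, ∀ a : ℕ, a0 ≤ a → 1000 * (sa C a + 2) ^ K ≤ a := by
  have h1 : Filter.Tendsto (fun t : ℕ => (t : ℝ) ^ K / (2 : ℝ) ^ t) Filter.atTop (nhds 0) :=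
    tendsto_pow_const_div_const_pow_of_one_lt K (by norm_num)
  have hpos : (0 : ℝ) < 1 / (1000 * (22 * (C : ℝ)) ^ K) := by
    have : (0 : ℝ) < C := by exact_mod_cast hC
    positivity
  have h2 : ∀ᶠ t : ℕ in Filter.atTop, (t : ℝ) ^ K / (2 : ℝ) ^ t < 1 / (1000 * (22 * (C : ℝ)) ^ K) :=
    h1.eventually (gt_mem_nhds hpos)
  obtain ⟨t0, ht0⟩ := Filter.eventually_atTop.mp h2
  refine ⟨2 ^ (t0 + 1), fun a ha => ?_⟩
  have ha0 : a ≠ 0 := by
    have : 0 < 2 ^ (t0 + 1) := by positivity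
    omega
  have ht : t0 + 1 ≤ Nat.log 2 a := Nat.le_log_of_pow_le (by norm_num) ha
  have hle : 2 ^ (Nat.log 2 a) ≤ a := Nat.pow_log_le_self 2 ha0
  have h3 := ht0 (Nat.log 2 a) (by omega)
  have h4 : sa C a + 2 ≤ 22 * C * Nat.log 2 a := by
    unfold sa
    have h5 : 1 ≤ Nat.log 2 a := by omega
    nlinarith
  have h5 : (1000 : ℝ) * (22 * (C : ℝ) * (Nat.log 2 a : ℝ)) ^ K ≤ (2 : ℝ) ^ (Nat.log 2 a) := by
    have hC0 : (0 : ℝ) < C := by exact_mod_cast hC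
    rw [div_lt_div_iff₀ (by positivity) (by positivity), one_mul] at h3
    rw [mul_pow]
    have : (1000 : ℝ) * ((22 * (C : ℝ)) ^ K * (Nat.log 2 a : ℝ) ^ K) =
      (Nat.log 2 a : ℝ) ^ K * (1000 * (22 * (C : ℝ)) ^ K) := by ring
    rw [this]
    exact h3.le
  have h6 : 1000 * (22 * C * Nat.log 2 a) ^ K ≤ 2 ^ (Nat.log 2 a) := by exact_mod_cast h5
  calc 1000 * (sa C a + 2) ^ K ≤ 1000 * (22 * C * Nat.log 2 a) ^ K :=
        Nat.mul_le_mul_left _ (Nat.pow_le_pow_left h4 K)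
    _ ≤ 2 ^ (Nat.log 2 a) := h6
    _ ≤ a := hle

/-- the parameters -/
structure Par (C a n : ℕ) : Prop where
  hC : 1 ≤ C
  big : 1000 * (sa C a + 2) ^ (rr C + cc C + 2) ≤ a
  h6 : a ^ 6 ≤ n
  hn : n ≤ a ^ C

section nums

variable {C a n : ℕ}

theorem Par.s_ge (hP : Par C a n) : 10 ≤ sa C a := by
  have := hP.hC
  unfold sa
  nlinarith [Nat.zero_le (Nat.log 2 a), Nat.zero_le (C * Nat.log 2 a)]

theorem Par.a2 (hP : Par C a n) : 1000 * (sa C a + 2) ^ 2 ≤ a := by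
  refine le_trans (Nat.mul_le_mul_left _ ?_) hP.big
  exact Nat.pow_le_pow_right (by omega) (by omega)

theorem Par.a1 (hP : Par C a n) : 1000 * (sa C a + 2) ≤ a := by
  refine le_trans (Nat.mul_le_mul_left _ ?_) hP.a2
  rw [pow_two]
  exact Nat.le_mul_of_pos_left _ (by omega)

theorem Par.a_ge (hP : Par C a n) : 12000 ≤ a := by
  have h1 := hP.a1
  have h2 := hP.s_ge
  omega

theorem Par.G (hP : Par C a n) : 1000 * (sa C a + 2) ^ 2 * sa C a ^ (rr C + cc C) ≤ a := by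
  refine le_trans ?_ hP.big
  rw [mul_assoc]
  apply Nat.mul_le_mul_left
  rw [Nat.add_comm (rr C + cc C) 2, pow_add (sa C a + 2)]
  apply Nat.mul_le_mul_left
  exact Nat.pow_le_pow_left (by omega) _

theorem Par.Wn (_ : Par C a n) : n / a ^ 2 * a ^ 2 ≤ n := Nat.div_mul_le_self _ _

theorem Par.Zle (_ : Par C a n) : n / a ^ 3 * a ^ 3 ≤ n := Nat.div_mul_le_self _ _

theorem Par.aZ (hP : Par C a n) : a * (n / a ^ 3) ≤ n / a ^ 2 := by
  have ha : 0 < a := by have := hP.a_ge; omega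
  rw [Nat.le_div_iff_mul_le (by positivity)]
  calc a * (n / a ^ 3) * a ^ 2 = n / a ^ 3 * a ^ 3 := by ring
    _ ≤ n := hP.Zle

theorem Par.Za (hP : Par C a n) : a ≤ n / a ^ 3 := by
  have ha : 0 < a := by have := hP.a_ge; omega
  rw [Nat.le_div_iff_mul_le (by positivity)]
  calc a * a ^ 3 = a ^ 4 := by ring
    _ ≤ a ^ 6 := Nat.pow_le_pow_right ha (by norm_num)
    _ ≤ n := hP.h6

theorem Par.Zn (hP : Par C a n) : n ≤ 2 * a ^ 3 * (n / a ^ 3) := by
  have ha : 0 < a := by have := hP.a_ge; omega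
  have h1 : n < a ^ 3 * (n / a ^ 3) + a ^ 3 := by
    have h2 := Nat.div_add_mod n (a ^ 3)
    have h3 : n % a ^ 3 < a ^ 3 := Nat.mod_lt _ (by positivity)
    omega
  have h2 : 1 ≤ n / a ^ 3 := by have := hP.Za; omega
  have h3 : a ^ 3 ≤ a ^ 3 * (n / a ^ 3) := Nat.le_mul_of_pos_right _ h2
  have h4 : 2 * a ^ 3 * (n / a ^ 3) = a ^ 3 * (n / a ^ 3) + a ^ 3 * (n / a ^ 3) := by ring
  omega

theorem Par.pow_lt (_ : Par C a n) : a ^ (10 * C) ≤ 2 ^ (sa C a) := by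
  have h1 : a ≤ 2 ^ (Nat.log 2 a + 1) := (Nat.lt_pow_succ_log_self (by norm_num) a).le
  calc a ^ (10 * C) ≤ (2 ^ (Nat.log 2 a + 1)) ^ (10 * C) := Nat.pow_le_pow_left h1 _
    _ = 2 ^ (sa C a) := by rw [← pow_mul]; unfold sa; congr 1; ring

theorem Par.pow_ge (hP : Par C a n) : 2 ^ (sa C a) ≤ a ^ (20 * C) := by
  have ha := hP.a_ge
  have h1 : 2 ^ (Nat.log 2 a) ≤ a := Nat.pow_log_le_self 2 (by omega)
  have h2 : 2 ^ (Nat.log 2 a + 1) ≤ a ^ 2 := by
    rw [pow_succ, pow_two]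
    exact Nat.mul_le_mul h1 (by omega)
  calc 2 ^ (sa C a) = (2 ^ (Nat.log 2 a + 1)) ^ (10 * C) := by
        rw [← pow_mul]; unfold sa; congr 1; ring
    _ ≤ (a ^ 2) ^ (10 * C) := Nat.pow_le_pow_left h2 _
    _ = a ^ (20 * C) := by rw [← pow_mul]; congr 1; ring

theorem Par.n2s (hP : Par C a n) : n ≤ 2 ^ (sa C a) := by
  refine hP.hn.trans (le_trans ?_ hP.pow_lt)
  exact Nat.pow_le_pow_right (by have := hP.a_ge; omega) (by omega)

theorem Par.n_ge (hP : Par C a n) : a ≤ n := by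
  refine le_trans ?_ hP.h6
  exact Nat.le_self_pow (by norm_num) a

theorem Par.M4 (hP : Par C a n) : n ^ 2 * n + 1 ≤ 2 ^ (4 * sa C a) := by
  have h1 := hP.n_ge
  have h2 := hP.a_ge
  have h3 : n ^ 2 * n + 1 ≤ n ^ 4 := by
    have : n ^ 4 = n * (n ^ 2 * n) := by ring
    rw [this]
    have hn0 : 0 < n := by omega
    have h4 : 1 ≤ n ^ 2 * n := Nat.succ_le_of_lt (by positivity)
    nlinarith
  refine h3.trans ?_
  rw [Nat.mul_comm 4, pow_mul]
  exact Nat.pow_le_pow_left hP.n2s 4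

/-- DEG -/
theorem num_deg (hP : Par C a n) :
    ((n ^ 2 : ℕ) : ℝ) * (sa C a : ℝ) ^ (rr C + cc C) / 2 ^ (sa C a) ≤ 1 / 10 := by
  have h1 : 10 * (n ^ 2 * sa C a ^ (rr C + cc C)) ≤ 2 ^ (sa C a) := by
    have ha := hP.a_ge
    have hC := hP.hC
    have hk : sa C a ^ (rr C + cc C) ≤ a := by
      refine le_trans (Nat.le_mul_of_pos_left _ ?_) hP.G
      positivity
    have hn2 : n ^ 2 ≤ a ^ (2 * C) := by
      rw [Nat.mul_comm, pow_mul]
      exact Nat.pow_le_pow_left hP.hn 2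
    calc 10 * (n ^ 2 * sa C a ^ (rr C + cc C)) ≤ a * (a ^ (2 * C) * a) :=
          Nat.mul_le_mul (by omega) (Nat.mul_le_mul hn2 hk)
      _ = a ^ (2 * C + 2) := by ring
      _ ≤ a ^ (10 * C) := Nat.pow_le_pow_right (by omega) (by omega)
      _ ≤ 2 ^ (sa C a) := hP.pow_lt
  have h2 : (10 : ℝ) * (((n ^ 2 : ℕ) : ℝ) * (sa C a : ℝ) ^ (rr C + cc C)) ≤ 2 ^ (sa C a) := by
    exact_mod_cast h1
  rw [div_le_div_iff₀ (by positivity) (by norm_num)]
  linarith

/-- EXP -/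
theorem num_exp (hP : Par C a n) (h q : ℕ) (hh : n ≤ 2 * h) (hq : q ≤ SS C a n) :
    ((n ^ 2 : ℕ) : ℝ) * 2 ^ (sa C a) * ((sa C a : ℝ) * q / (2 * h)) ^ (cc C) ≤ 1 / a := by
  have ha := hP.a_ge
  have ha0 : (0 : ℝ) < a := by exact_mod_cast (by omega : 0 < a)
  have hn0 : 0 < n := by have := hP.n_ge; omega
  have hh0 : (0 : ℝ) < 2 * h := by
    have : 0 < 2 * h := by omega
    exact_mod_cast this
  have h1 : sa C a * q * a ≤ n := by
    have h2 : 12 * (sa C a * (sa C a + 2)) ≤ a := by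
      refine le_trans ?_ hP.a2
      nlinarith [Nat.zero_le (sa C a)]
    calc sa C a * q * a ≤ sa C a * (12 * (sa C a + 2) * (n / a ^ 2)) * a := by
          apply Nat.mul_le_mul_right
          apply Nat.mul_le_mul_left
          exact hq
      _ = 12 * (sa C a * (sa C a + 2)) * ((n / a ^ 2) * a) := by ring
      _ ≤ a * ((n / a ^ 2) * a) := Nat.mul_le_mul_right _ h2
      _ = n / a ^ 2 * a ^ 2 := by ring
      _ ≤ n := hP.Wn
  have h2 : (sa C a : ℝ) * q / (2 * h) ≤ 1 / a := by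
    rw [div_le_div_iff₀ hh0 ha0, one_mul]
    have : sa C a * q * a ≤ 2 * h := h1.trans hh
    exact_mod_cast this
  have h3 : ((sa C a : ℝ) * q / (2 * h)) ^ (cc C) ≤ (1 / (a : ℝ)) ^ (cc C) :=
    pow_le_pow_left₀ (by positivity) h2 _
  have h4 : n ^ 2 * 2 ^ (sa C a) ≤ a ^ (22 * C) := by
    have hn2 : n ^ 2 ≤ a ^ (2 * C) := by
      rw [Nat.mul_comm, pow_mul]
      exact Nat.pow_le_pow_left hP.hn 2
    calc n ^ 2 * 2 ^ (sa C a) ≤ a ^ (2 * C) * a ^ (20 * C) := Nat.mul_le_mul hn2 hP.pow_ge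
      _ = a ^ (22 * C) := by rw [← pow_add]; congr 1; ring
  have h5 : ((n ^ 2 : ℕ) : ℝ) * 2 ^ (sa C a) ≤ (a : ℝ) ^ (22 * C) := by exact_mod_cast h4
  calc ((n ^ 2 : ℕ) : ℝ) * 2 ^ (sa C a) * ((sa C a : ℝ) * q / (2 * h)) ^ (cc C)
      ≤ (a : ℝ) ^ (22 * C) * (1 / (a : ℝ)) ^ (cc C) := mul_le_mul h5 h3 (by positivity) (by positivity)
    _ = 1 / a := by
      unfold cc
      rw [pow_succ, ← mul_assoc, ← mul_pow, mul_one_div_cancel ha0.ne', one_pow, one_mul]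

theorem geom (x : ℝ) (hx0 : 0 ≤ x) (hx : x ≤ 1 / 2) (S : ℕ) : ∑ q ∈ Finset.Icc 1 S, x ^ q ≤ 2 * x := by
  have h : ∑ q ∈ Finset.Icc 1 S, x ^ q + 2 * x ^ (S + 1) ≤ 2 * x := by
    induction S with
    | zero => simp
    | succ S ih =>
      rw [Finset.sum_Icc_succ_top (by omega)]
      have h1 : x ^ (S + 1 + 1) ≤ x ^ (S + 1) * (1 / 2) := by
        rw [pow_succ x (S + 1)]
        exact mul_le_mul_of_nonneg_left hx (pow_nonneg hx0 _)
      linarith
  have h2 := pow_nonneg hx0 (S + 1)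
  linarith

/-- HOL -/
theorem num_hol (hP : Par C a n) (h N : ℕ) (hh : n ≤ 2 * h) (hh' : h ≤ n) (hN : n ^ 2 ≤ 2 * a * N) :
    (2 : ℝ) ^ (n / a ^ 3) * 2 ^ (32 * sa C a * (n / a ^ 3)) * h *
      (2 ^ (3 * SS C a n - 1) * (1 - 1 / (4 * (h : ℝ))) ^ N) ≤ 1 / 10 := by
  have ha := hP.a_ge
  have hn0 : 0 < n := by have := hP.n_ge; omega
  have hh0 : 0 < h := by omega
  have hhR : (0 : ℝ) < h := by exact_mod_cast hh0
  have haR : (0 : ℝ) < a := by exact_mod_cast (by omega : 0 < a)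
  have hnR : (0 : ℝ) < n := by exact_mod_cast hn0
  set E : ℕ := n / (8 * a) with hE
  -- the exponential
  have h1 : (1 - 1 / (4 * (h : ℝ))) ^ N ≤ (1 / 2) ^ E := by
    have h2 : 1 - 1 / (4 * (h : ℝ)) ≤ Real.exp (-(1 / (4 * (h : ℝ)))) := Real.one_sub_le_exp_neg _
    have h3 : 0 ≤ 1 - 1 / (4 * (h : ℝ)) := by
      have h4 : (1 : ℝ) ≤ h := by exact_mod_cast hh0
      rw [sub_nonneg, div_le_one (by positivity)]
      linarith
    have h4 : (E : ℝ) ≤ N * (1 / (4 * (h : ℝ))) := by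
      have h5 : E * (8 * a) ≤ n := Nat.div_mul_le_self _ _
      have h5' : (E : ℝ) * (8 * a) ≤ n := by exact_mod_cast h5
      have h6 : (n : ℝ) ^ 2 ≤ 2 * a * N := by exact_mod_cast hN
      have h7 : (h : ℝ) ≤ n := by exact_mod_cast hh'
      rw [mul_one_div, le_div_iff₀ (by positivity)]
      -- E * (4 h) ≤ N
      have h8 : (E : ℝ) * (8 * a) * n ≤ 2 * a * N := by
        calc (E : ℝ) * (8 * a) * n ≤ n * n := mul_le_mul_of_nonneg_right h5' hnR.le
          _ = (n : ℝ) ^ 2 := by ring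
          _ ≤ _ := h6
      have h9 : (E : ℝ) * 4 * n ≤ N := by
        have h10 : 2 * (a : ℝ) * ((E : ℝ) * 4 * n) ≤ 2 * a * N := by
          calc 2 * (a : ℝ) * ((E : ℝ) * 4 * n) = (E : ℝ) * (8 * a) * n := by ring
            _ ≤ _ := h8
        exact le_of_mul_le_mul_left h10 (by positivity)
      calc (E : ℝ) * (4 * h) = (E : ℝ) * 4 * h := by ring
        _ ≤ (E : ℝ) * 4 * n := mul_le_mul_of_nonneg_left h7 (by positivity)
        _ ≤ N := h9
    calc (1 - 1 / (4 * (h : ℝ))) ^ N ≤ (Real.exp (-(1 / (4 * (h : ℝ))))) ^ N :=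
          pow_le_pow_left₀ h3 h2 N
      _ = Real.exp (-(N * (1 / (4 * (h : ℝ))))) := by
          rw [← Real.exp_nat_mul]; congr 1; ring
      _ ≤ Real.exp (-(E : ℝ)) := Real.exp_le_exp.mpr (by linarith)
      _ = (Real.exp (-1)) ^ E := by
          rw [← Real.exp_nat_mul]; congr 1; ring
      _ ≤ (1 / 2) ^ E := by
          apply pow_le_pow_left₀ (Real.exp_pos _).le
          have := Real.exp_neg_one_lt_half
          linarith
  -- exponents
  have hexp : n / a ^ 3 + 32 * sa C a * (n / a ^ 3) + sa C a + (3 * SS C a n - 1) + 4 ≤ E := by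
    set W := n / a ^ 2 with hW
    set Z := n / a ^ 3 with hZ
    set s := sa C a with hs
    have hEW : a * W ≤ 8 * (E + 1) := by
      have h2 : n < E * (8 * a) + 8 * a := by
        have h3 := Nat.div_add_mod n (8 * a)
        have h4 : n % (8 * a) < 8 * a := Nat.mod_lt _ (by omega)
        have h5 : 8 * a * (n / (8 * a)) = E * (8 * a) := by rw [hE]; ring
        omega
      have h3 : W * a ^ 2 ≤ n := hP.Wn
      have h4 : a * (a * W) < a * (8 * (E + 1)) := by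
        calc a * (a * W) = W * a ^ 2 := by ring
          _ ≤ n := h3
          _ < E * (8 * a) + 8 * a := h2
          _ = a * (8 * (E + 1)) := by ring
      exact (Nat.lt_of_mul_lt_mul_left h4).le
    have hZW : Z ≤ W := le_trans (Nat.le_mul_of_pos_left _ (by omega)) hP.aZ
    have hsW : s ≤ W := by
      have h2 := hP.Za
      have h3 := hP.a1
      omega
    have hW1 : 1 ≤ W := by
      have h2 := hP.Za
      omega
    have hSS : SS C a n = 12 * (s + 2) * W := rfl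
    have h5 : 1000 * (s + 2) * W ≤ a * W := Nat.mul_le_mul_right _ hP.a1
    have h6 : 32 * s * Z ≤ 32 * s * W := Nat.mul_le_mul_left _ hZW
    have h7 : 8 * (Z + 32 * s * Z + s + (3 * SS C a n - 1) + 4 + 1) ≤ 1000 * (s + 2) * W := by
      have h8 : 3 * SS C a n - 1 ≤ 36 * (s + 2) * W := by
        rw [hSS]
        have : 3 * (12 * (s + 2) * W) = 36 * (s + 2) * W := by ring
        omega
      have h9 : 5 ≤ 5 * W := by omega
      calc 8 * (Z + 32 * s * Z + s + (3 * SS C a n - 1) + 4 + 1)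
          ≤ 8 * (W + 32 * s * W + W + 36 * (s + 2) * W + 5 * W) := by omega
        _ = (544 * s + 632) * W := by ring
        _ ≤ 1000 * (s + 2) * W := Nat.mul_le_mul_right _ (by omega)
    omega
  have hh2 : (h : ℝ) ≤ 2 ^ (sa C a) := by
    have : h ≤ 2 ^ (sa C a) := hh'.trans hP.n2s
    exact_mod_cast this
  calc (2 : ℝ) ^ (n / a ^ 3) * 2 ^ (32 * sa C a * (n / a ^ 3)) * h *
      (2 ^ (3 * SS C a n - 1) * (1 - 1 / (4 * (h : ℝ))) ^ N)
      ≤ (2 : ℝ) ^ (n / a ^ 3) * 2 ^ (32 * sa C a * (n / a ^ 3)) * 2 ^ (sa C a) *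
      (2 ^ (3 * SS C a n - 1) * (1 / 2) ^ E) := by
        apply mul_le_mul
        · exact mul_le_mul_of_nonneg_left hh2 (by positivity)
        · exact mul_le_mul_of_nonneg_left h1 (by positivity)
        · apply mul_nonneg (by positivity)
          apply pow_nonneg
          have h4 : (1 : ℝ) ≤ h := by exact_mod_cast hh0
          rw [sub_nonneg, div_le_one (by positivity)]
          linarith
        · positivity
    _ = 2 ^ (n / a ^ 3 + 32 * sa C a * (n / a ^ 3) + sa C a + (3 * SS C a n - 1)) * (1 / 2) ^ E := by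
        rw [pow_add, pow_add, pow_add]; ring
    _ ≤ 2 ^ (n / a ^ 3 + 32 * sa C a * (n / a ^ 3) + sa C a + (3 * SS C a n - 1)) *
        (1 / 2) ^ (n / a ^ 3 + 32 * sa C a * (n / a ^ 3) + sa C a + (3 * SS C a n - 1) + 4) := by
        apply mul_le_mul_of_nonneg_left _ (by positivity)
        exact pow_le_pow_of_le_one (by norm_num) (by norm_num) hexp
    _ = 1 / 16 := by
        rw [pow_add (1 / 2 : ℝ), ← mul_assoc, ← mul_pow]
        norm_num
    _ ≤ 1 / 10 := by norm_num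

/-- MGF -/
theorem num_mgf (hP : Par C a n) :
    (2 : ℝ) ^ (n / a ^ 3) * 2 ^ (32 * sa C a * (n / a ^ 3)) *
      (4 ^ (24 * (n / a ^ 3)) / (1 + 1 / (2 * (sa C a : ℝ) ^ (rr C + cc C))) ^ (n / a ^ 2)) ≤ 1 / 10 := by
  have ha := hP.a_ge
  have hs := hP.s_ge
  set W := n / a ^ 2 with hW
  set Z := n / a ^ 3 with hZ
  set s := sa C a with hs'
  set G : ℕ := s ^ (rr C + cc C) with hG
  have hG0 : 0 < G := by rw [hG]; positivity
  have hGR : (s : ℝ) ^ (rr C + cc C) = (G : ℝ) := by rw [hG]; push_cast; rfl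
  rw [hGR]
  have hGR0 : (0 : ℝ) < G := by exact_mod_cast hG0
  have h1 : (2 : ℝ) ^ (W / (2 * G)) ≤ (1 + 1 / (2 * (G : ℝ))) ^ W := by
    have h2 : (2 : ℝ) ≤ (1 + 1 / (2 * (G : ℝ))) ^ (2 * G) := by
      have h3 := one_add_mul_le_pow (a := 1 / (2 * (G : ℝ))) (by
        have : 0 < 1 / (2 * (G : ℝ)) := by positivity
        linarith) (2 * G)
      refine le_trans (le_of_eq ?_) h3
      push_cast
      rw [mul_one_div_cancel (by positivity)]
      norm_num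
    calc (2 : ℝ) ^ (W / (2 * G)) ≤ ((1 + 1 / (2 * (G : ℝ))) ^ (2 * G)) ^ (W / (2 * G)) :=
          pow_le_pow_left₀ (by norm_num) h2 _
      _ = (1 + 1 / (2 * (G : ℝ))) ^ (2 * G * (W / (2 * G))) := by rw [← pow_mul]
      _ ≤ (1 + 1 / (2 * (G : ℝ))) ^ W := by
          apply pow_le_pow_right₀
          · have : 0 < 1 / (2 * (G : ℝ)) := by positivity
            linarith
          · exact Nat.mul_div_le _ _
  have hexp : Z + 32 * s * Z + 48 * Z + 4 ≤ W / (2 * G) := by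
    rw [Nat.le_div_iff_mul_le (by positivity)]
    have h2 : a * Z ≤ W := hP.aZ
    have hZ1 : 1 ≤ Z := by have := hP.Za; omega
    have h3 : 1000 * (s + 2) ^ 2 * G ≤ a := hP.G
    have h4 : Z + 32 * s * Z + 48 * Z + 4 ≤ 53 * (s + 2) ^ 2 * Z := by
      have h5 : Z + 32 * s * Z + 48 * Z + 4 ≤ (32 * s + 53) * Z := by
        have : (32 * s + 53) * Z = Z + 32 * s * Z + 48 * Z + 4 * Z := by ring
        omega
      refine h5.trans (Nat.mul_le_mul_right _ ?_)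
      nlinarith [Nat.zero_le s]
    calc (Z + 32 * s * Z + 48 * Z + 4) * (2 * G) ≤ 53 * (s + 2) ^ 2 * Z * (2 * G) :=
          Nat.mul_le_mul_right _ h4
      _ = 106 * ((s + 2) ^ 2 * G * Z) := by ring
      _ ≤ 1000 * ((s + 2) ^ 2 * G * Z) := Nat.mul_le_mul_right _ (by norm_num)
      _ = 1000 * (s + 2) ^ 2 * G * Z := by ring
      _ ≤ a * Z := Nat.mul_le_mul_right _ h3
      _ ≤ W := h2
  have h3 : (4 : ℝ) ^ (24 * Z) = 2 ^ (48 * Z) := by
    rw [show (4 : ℝ) = 2 ^ 2 by norm_num, ← pow_mul]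
    congr 1; ring
  rw [h3, ← mul_div_assoc, div_le_div_iff₀ (by positivity) (by norm_num)]
  calc (2 : ℝ) ^ Z * 2 ^ (32 * s * Z) * 2 ^ (48 * Z) * 10
      ≤ (2 : ℝ) ^ Z * 2 ^ (32 * s * Z) * 2 ^ (48 * Z) * 2 ^ 4 := by
        apply mul_le_mul_of_nonneg_left (by norm_num) (by positivity)
    _ = 2 ^ (Z + 32 * s * Z + 48 * Z + 4) := by rw [pow_add, pow_add, pow_add]
    _ ≤ 2 ^ (W / (2 * G)) := pow_le_pow_right₀ (by norm_num) hexp
    _ ≤ (1 + 1 / (2 * (G : ℝ))) ^ W := h1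
    _ = 1 * (1 + 1 / (2 * (G : ℝ))) ^ W := (one_mul _).symm

/-- NEG -/
theorem num_neg (hP : Par C a n) (h : ℕ) (hh : n ≤ 2 * h) :
    (2 : ℝ) ^ (n / a ^ 3) * (2 ^ (32 * sa C a * (n / a ^ 3)) * 2 ^ (32 * sa C a * (n / a ^ 3))) *
      ((2 * ((sa C a : ℝ) / (2 * h))) ^ (n / a ^ 2 / 3) + (4 * ((sa C a : ℝ) / (2 * h))) ^ (n / a ^ 2 / 3)) ≤
      1 / 10 := by
  have ha := hP.a_ge
  have hn0 : a ≤ n := hP.n_ge
  have hh0 : (0 : ℝ) < 2 * h := by
    have : 0 < 2 * h := by omega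
    exact_mod_cast this
  set W := n / a ^ 2 with hW
  set Z := n / a ^ 3 with hZ
  set s := sa C a with hs'
  have h1 : 4 * ((s : ℝ) / (2 * h)) ≤ 1 / 2 := by
    rw [← mul_div_assoc, div_le_div_iff₀ hh0 (by norm_num)]
    have h2 : 4 * s * 2 ≤ 1 * (2 * h) := by
      have h3 := hP.a1
      omega
    exact_mod_cast h2
  have h0 : 0 ≤ (s : ℝ) / (2 * h) := by positivity
  have h2 : (4 * ((s : ℝ) / (2 * h))) ^ (W / 3) ≤ (1 / 2) ^ (W / 3) :=
    pow_le_pow_left₀ (by positivity) h1 _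
  have h3 : (2 * ((s : ℝ) / (2 * h))) ^ (W / 3) ≤ (1 / 2) ^ (W / 3) :=
    pow_le_pow_left₀ (by positivity) (by linarith) _
  have hexp : Z + 64 * s * Z + 5 ≤ W / 3 := by
    rw [Nat.le_div_iff_mul_le (by norm_num)]
    have h4 : a * Z ≤ W := hP.aZ
    have hZ1 : 1 ≤ Z := by have := hP.Za; omega
    calc (Z + 64 * s * Z + 5) * 3 ≤ (Z + 64 * s * Z + 5 * Z) * 3 := by
          apply Nat.mul_le_mul_right
          omega
      _ = (192 * s + 18) * Z := by ring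
      _ ≤ a * Z := Nat.mul_le_mul_right _ (by have := hP.a1; omega)
      _ ≤ W := h4
  calc (2 : ℝ) ^ Z * (2 ^ (32 * s * Z) * 2 ^ (32 * s * Z)) *
      ((2 * ((s : ℝ) / (2 * h))) ^ (W / 3) + (4 * ((s : ℝ) / (2 * h))) ^ (W / 3))
      ≤ (2 : ℝ) ^ Z * (2 ^ (32 * s * Z) * 2 ^ (32 * s * Z)) * ((1 / 2) ^ (W / 3) + (1 / 2) ^ (W / 3)) := by
        apply mul_le_mul_of_nonneg_left (add_le_add h3 h2) (by positivity)
    _ = 2 * (2 ^ (Z + 64 * s * Z) * (1 / 2) ^ (W / 3)) := by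
        have h5 : (64 * s * Z) = 32 * s * Z + 32 * s * Z := by ring
        rw [h5, pow_add, pow_add]; ring
    _ ≤ 2 * (2 ^ (Z + 64 * s * Z) * (1 / 2) ^ (Z + 64 * s * Z + 5)) := by
        apply mul_le_mul_of_nonneg_left _ (by norm_num)
        apply mul_le_mul_of_nonneg_left _ (by positivity)
        exact pow_le_pow_of_le_one (by norm_num) (by norm_num) hexp
    _ = 1 / 16 := by
        rw [pow_add (1 / 2 : ℝ), ← mul_assoc (2 ^ (Z + 64 * s * Z) : ℝ), ← mul_pow]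
        norm_num
    _ ≤ 1 / 10 := by norm_num

/-- MUL, pairs -/
theorem num_mul2 (hP : Par C a n) (h Q : ℕ) (hh : n ≤ 2 * h) (hQ : Q * a ^ 5 ≤ n ^ 3) :
    (2 : ℝ) ^ (n / a ^ 3) * (3 * (Q : ℝ) / (n / a ^ 3 : ℕ) * ((sa C a : ℝ) / (2 * h)) ^ 2) ^ (n / a ^ 3) ≤
      1 / 10 := by
  have ha := hP.a_ge
  have hn0 : a ≤ n := hP.n_ge
  have hhn : 0 < 2 * h := by omega
  have hh0 : (0 : ℝ) < 2 * h := by exact_mod_cast hhn
  set Z := n / a ^ 3 with hZ
  set s := sa C a with hs'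
  have hZ1 : 1 ≤ Z := by have := hP.Za; omega
  have hZ0 : (0 : ℝ) < (Z : ℝ) := by exact_mod_cast hZ1
  have h1 : 60 * Q * s ^ 2 ≤ Z * (2 * h) ^ 2 := by
    have h2 : 60 * Q * s ^ 2 * a ^ 5 ≤ Z * (2 * h) ^ 2 * a ^ 5 := by
      calc 60 * Q * s ^ 2 * a ^ 5 = 60 * s ^ 2 * (Q * a ^ 5) := by ring
        _ ≤ 60 * s ^ 2 * n ^ 3 := Nat.mul_le_mul_left _ hQ
        _ = 60 * s ^ 2 * n ^ 2 * n := by ring
        _ ≤ 60 * s ^ 2 * n ^ 2 * (2 * a ^ 3 * Z) := Nat.mul_le_mul_left _ hP.Zn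
        _ = (120 * s ^ 2) * (a ^ 3 * n ^ 2 * Z) := by ring
        _ ≤ a ^ 2 * (a ^ 3 * n ^ 2 * Z) := by
            apply Nat.mul_le_mul_right
            have h3 : 120 * s ^ 2 ≤ a := by
              refine le_trans ?_ hP.a2
              nlinarith [Nat.zero_le s]
            refine h3.trans ?_
            exact Nat.le_self_pow (by norm_num) a
        _ = Z * n ^ 2 * a ^ 5 := by ring
        _ ≤ Z * (2 * h) ^ 2 * a ^ 5 := by
            apply Nat.mul_le_mul_right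
            apply Nat.mul_le_mul_left
            exact Nat.pow_le_pow_left hh 2
    exact Nat.le_of_mul_le_mul_right h2 (by positivity)
  have h2 : 3 * (Q : ℝ) / (Z : ℝ) * ((s : ℝ) / (2 * h)) ^ 2 ≤ 1 / 20 := by
    rw [div_pow, div_mul_div_comm, div_le_div_iff₀ (by positivity) (by norm_num)]
    have h3 : (60 : ℝ) * Q * s ^ 2 ≤ Z * (2 * h) ^ 2 := by exact_mod_cast h1
    linarith
  rw [← mul_pow]
  calc (2 * (3 * (Q : ℝ) / (Z : ℝ) * ((s : ℝ) / (2 * h)) ^ 2)) ^ Z ≤ (1 / 10) ^ Z := by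
        apply pow_le_pow_left₀ (by positivity)
        linarith
    _ ≤ (1 / 10) ^ 1 := pow_le_pow_of_le_one (by norm_num) (by norm_num) hZ1
    _ = 1 / 10 := pow_one _

/-- MUL, single edges -/
theorem num_mul1 (hP : Par C a n) (h Q : ℕ) (hh : n ≤ 2 * h) (hQ : Q * a ^ 5 ≤ n ^ 2) :
    (2 : ℝ) ^ (n / a ^ 3) * (3 * (Q : ℝ) / (n / a ^ 3 : ℕ) * ((sa C a : ℝ) / (2 * h)) ^ 1) ^ (n / a ^ 3) ≤
      1 / 10 := by
  have ha := hP.a_ge
  have hn0 : a ≤ n := hP.n_ge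
  have hhn : 0 < 2 * h := by omega
  have hh0 : (0 : ℝ) < 2 * h := by exact_mod_cast hhn
  set Z := n / a ^ 3 with hZ
  set s := sa C a with hs'
  have hZ1 : 1 ≤ Z := by have := hP.Za; omega
  have hZ0 : (0 : ℝ) < (Z : ℝ) := by exact_mod_cast hZ1
  have h1 : 60 * Q * s ≤ Z * (2 * h) := by
    have h2 : 60 * Q * s * a ^ 5 ≤ Z * (2 * h) * a ^ 5 := by
      calc 60 * Q * s * a ^ 5 = 60 * s * (Q * a ^ 5) := by ring
        _ ≤ 60 * s * n ^ 2 := Nat.mul_le_mul_left _ hQ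
        _ = 60 * s * n * n := by ring
        _ ≤ 60 * s * n * (2 * a ^ 3 * Z) := Nat.mul_le_mul_left _ hP.Zn
        _ = (120 * s) * (a ^ 3 * n * Z) := by ring
        _ ≤ a ^ 2 * (a ^ 3 * n * Z) := by
            apply Nat.mul_le_mul_right
            have h3 : 120 * s ≤ a := by
              have := hP.a1
              omega
            refine h3.trans ?_
            exact Nat.le_self_pow (by norm_num) a
        _ = Z * n * a ^ 5 := by ring
        _ ≤ Z * (2 * h) * a ^ 5 := by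
            apply Nat.mul_le_mul_right
            apply Nat.mul_le_mul_left
            exact hh
    exact Nat.le_of_mul_le_mul_right h2 (by positivity)
  have h2 : 3 * (Q : ℝ) / (Z : ℝ) * ((s : ℝ) / (2 * h)) ^ 1 ≤ 1 / 20 := by
    rw [pow_one, div_mul_div_comm, div_le_div_iff₀ (by positivity) (by norm_num)]
    have h3 : (60 : ℝ) * Q * s ≤ Z * (2 * h) := by exact_mod_cast h1
    linarith
  rw [← mul_pow]
  calc (2 * (3 * (Q : ℝ) / (Z : ℝ) * ((s : ℝ) / (2 * h)) ^ 1)) ^ Z ≤ (1 / 10) ^ Z := by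
        apply pow_le_pow_left₀ (by positivity)
        linarith
    _ ≤ (1 / 10) ^ 1 := pow_le_pow_of_le_one (by norm_num) (by norm_num) hZ1
    _ = 1 / 10 := pow_one _

/-- the number of small subsets -/
theorem count_small {β : Type} [Fintype β] (T : ℕ) :
    (univ.filter (fun ξ : Finset β => ξ.card ≤ T)).card ≤ (Fintype.card β + 1) ^ T := by
  have hsub : (univ.filter (fun ξ : Finset β => ξ.card ≤ T)) ⊆
      (univ : Finset (Fin T → Option β)).image (fun f => univ.filter (fun b => ∃ i, f i = some b)) := by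
    intro ξ hξ
    have hξ' : ξ.card ≤ T := (Finset.mem_filter.1 hξ).2
    refine Finset.mem_image.2 ⟨fun i => if hi : i.1 < ξ.card then some (ξ.equivFin.symm ⟨i.1, hi⟩).1 else none,
      Finset.mem_univ _, ?_⟩
    ext b
    rw [Finset.mem_filter]
    constructor
    · rintro ⟨_, i, hi⟩
      have hi : (if hi : i.1 < ξ.card then some (ξ.equivFin.symm ⟨i.1, hi⟩).1 else none) = some b := hi
      by_cases h : i.1 < ξ.card
      · rw [dif_pos h] at hi
        have := Option.some.inj hi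
        rw [← this]
        exact (ξ.equivFin.symm ⟨i.1, h⟩).2
      · rw [dif_neg h] at hi
        exact absurd hi (by simp)
    · intro hb
      refine ⟨Finset.mem_univ _, ⟨(ξ.equivFin ⟨b, hb⟩).1, lt_of_lt_of_le (ξ.equivFin ⟨b, hb⟩).2 hξ'⟩, ?_⟩
      show (if hi : (ξ.equivFin ⟨b, hb⟩).1 < ξ.card then some (ξ.equivFin.symm ⟨(ξ.equivFin ⟨b, hb⟩).1, hi⟩).1
        else none) = some b
      rw [dif_pos (ξ.equivFin ⟨b, hb⟩).2]
      simp
  refine (Finset.card_le_card hsub).trans (Finset.card_image_le.trans ?_)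
  rw [Finset.card_univ, Fintype.card_fun, Fintype.card_option, Fintype.card_fin]

/-- the number of partial assignments -/
theorem count_xi (hP : Par C a n) :
    (((univ.filter (fun ξ : Finset (Edge (n ^ 2) n) => ξ.card ≤ 8 * (n / a ^ 3))).card : ℕ) : ℝ) ≤
      2 ^ (32 * sa C a * (n / a ^ 3)) := by
  have h1 := count_small (β := Edge (n ^ 2) n) (8 * (n / a ^ 3))
  rw [Fintype.card_prod, Fintype.card_fin, Fintype.card_fin] at h1
  have h2 : (univ.filter (fun ξ : Finset (Edge (n ^ 2) n) => ξ.card ≤ 8 * (n / a ^ 3))).card ≤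
      2 ^ (32 * sa C a * (n / a ^ 3)) := by
    refine h1.trans ?_
    calc (n ^ 2 * n + 1) ^ (8 * (n / a ^ 3)) ≤ (2 ^ (4 * sa C a)) ^ (8 * (n / a ^ 3)) :=
          Nat.pow_le_pow_left hP.M4 _
      _ = 2 ^ (32 * sa C a * (n / a ^ 3)) := by rw [← pow_mul]; congr 1; ring
  exact_mod_cast h2

end nums

end ST2

end

end Pool.Agent.Work.MP_833881_lb
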