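import Pool.Agent.Work.MP_833881_lb.Interface

/-!
# Block WLD: existence of a world
-/

namespace Pool.Agent.Work.MP_833881_lb

open Finset Pool.Agent.Work.MP_833881_lc
open scoped Classical

noncomputable section

/-- A maximal family of pairwise disjoint members. -/
theorem WLD_max {α : Type} [DecidableEq α] (F : Finset (Finset α)) (hne : ∀ A ∈ F, A.Nonempty) :
    ∃ R ⊆ F, (∀ A ∈ R, ∀ B ∈ R, A ≠ B → Disjoint A B) ∧ ∀ A ∈ F, ¬ Disjoint A (R.biUnion id) := by
  let P : Finset (Finset (Finset α)) := F.powerset.filter (fun R => ∀ A ∈ R, ∀ B ∈ R, A ≠ B → Disjoint A B)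
  have hP : P.Nonempty := ⟨∅, Finset.mem_filter.2 ⟨Finset.mem_powerset.2 (Finset.empty_subset _),
    fun A hA => absurd hA (Finset.notMem_empty _)⟩⟩
  obtain ⟨R, hR, hmax⟩ := Finset.exists_max_image P Finset.card hP
  obtain ⟨hR1, hR2⟩ := Finset.mem_filter.1 hR
  rw [Finset.mem_powerset] at hR1
  refine ⟨R, hR1, hR2, fun A hA hd => ?_⟩
  have hdB : ∀ B ∈ R, Disjoint A B := fun B hB =>
    hd.mono_right (Finset.subset_biUnion_of_mem id hB)
  have hAR : A ∉ R := by
    intro h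
    have h1 := hdB A h
    rw [disjoint_self] at h1
    exact (hne A hA).ne_empty h1
  have h2 := hmax (insert A R) (Finset.mem_filter.2 ⟨Finset.mem_powerset.2
    (Finset.insert_subset hA hR1), ?_⟩)
  · rw [Finset.card_insert_of_notMem hAR] at h2
    omega
  · intro B hB B' hB' hBB
    rcases Finset.mem_insert.1 hB with hB1 | hB1
    · rcases Finset.mem_insert.1 hB' with hB2 | hB2
      · exact absurd (hB1.trans hB2.symm) hBB
      · rw [hB1]
        exact hdB B' hB2
    · rcases Finset.mem_insert.1 hB' with hB2 | hB2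
      · rw [hB2]
        exact (hdB B hB1).symm
      · exact hR2 B hB1 B' hB2 hBB

/-- Disjoint sets that meet `V`. -/
theorem WLD_meet {α : Type} (R : Finset (Finset α)) (V : Finset α)
    (hd : ∀ A ∈ R, ∀ B ∈ R, A ≠ B → Disjoint A B) (hV : ∀ A ∈ R, ¬ Disjoint A V) : R.card ≤ V.card := by
  have h1 : ∀ A : {x // x ∈ R}, ∃ x, x ∈ A.1 ∧ x ∈ V := fun A => Finset.not_disjoint_iff.1 (hV A.1 A.2)
  choose g hg using h1
  rw [← Finset.card_attach]
  refine Finset.card_le_card_of_injOn g (fun A _ => (hg A).2) ?_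
  intro A _ B _ hAB
  by_contra hne
  exact Finset.disjoint_left.1 (hd A.1 A.2 B.1 B.2 (fun h => hne (Subtype.ext h))) (hg A).1
    (by rw [hAB]; exact (hg B).1)

/-- If there are not `z` disjoint sets with property `p`, a disjoint family with property `p` is small. -/
theorem WLD_disj {m n : ℕ} (Q R : Finset (Finset (Edge m n))) (z : ℕ) (p : Finset (Edge m n) → Prop)
    (h : ¬ HasDisj Q z p) (hR : R ⊆ Q) (hd : ∀ A ∈ R, ∀ B ∈ R, A ≠ B → Disjoint A B) (hp : ∀ A ∈ R, p A) :
    R.card < z := by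
  by_contra hcon
  push Not at hcon
  obtain ⟨R', hR'1, hR'2⟩ := Finset.exists_subset_card_eq hcon
  exact h ⟨R', hR'1.trans hR, hR'2, fun A hA B hB => hd A (hR'1 hA) B (hR'1 hB), fun A hA => hp A (hR'1 hA)⟩

/-- The covering set. -/
theorem WLD_cover {m n : ℕ} (D : Line (Edge m n)) (U E0 E1 M : Finset (Edge m n)) (z : ℕ)
    (hD : ∀ t ∈ D, t.card ≤ 2) (hE0 : E0 ⊆ M)
    (h1 : ¬ HasDisj (QU D U) z (fun A => ¬ Disjoint A M)) (h2 : (U ∩ M).card < z)
    (h3 : ¬ HasDisj ((QU D U).filter (fun A => A.card = 2)) z (fun A => A ⊆ E1)) (h4 : (U ∩ E1).card < z) :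
    ∃ H : Finset (Edge m n), H.card ≤ 8 * z ∧ ∀ t ∈ D, ∀ l ∈ t, ∀ l' ∈ t, l.1 ≠ l'.1 →
      l.1 ∈ E0 ∪ E1 → l'.1 ∈ E0 ∪ E1 → l.1 ∈ H ∨ l'.1 ∈ H := by
  let F : Finset (Finset (Edge m n)) := (E0 ∪ E1).powerset.filter (fun A =>
    ∃ t ∈ D, ∃ l ∈ t, ∃ l' ∈ t, l.1 ≠ l'.1 ∧ A = {l.1, l'.1})
  have hFne : ∀ A ∈ F, A.Nonempty := by
    intro A hA
    obtain ⟨_, t, _, l, _, l', _, _, rfl⟩ := Finset.mem_filter.1 hA
    exact Finset.insert_nonempty _ _
  have hFc : ∀ A ∈ F, A.card = 2 := by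
    intro A hA
    obtain ⟨_, t, _, l, _, l', _, hne, rfl⟩ := Finset.mem_filter.1 hA
    exact Finset.card_pair hne
  obtain ⟨R, hRF, hRd, hRm⟩ := WLD_max F hFne
  refine ⟨R.biUnion id, ?_, ?_⟩
  · have hb : (R.biUnion id).card ≤ R.card * 2 :=
      Finset.card_biUnion_le_card_mul _ _ _ (fun A hA => (hFc A (hRF hA)).le)
    obtain ⟨Ra, hRa⟩ : ∃ Ra, Ra = R.filter (fun A => ¬ Disjoint A (U ∩ M)) := ⟨_, rfl⟩
    obtain ⟨Rb, hRb⟩ : ∃ Rb, Rb = R.filter (fun A => ¬ Disjoint A (U ∩ E1)) := ⟨_, rfl⟩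
    obtain ⟨Rc, hRc⟩ : ∃ Rc, Rc = R.filter (fun A => Disjoint A U ∧ ¬ Disjoint A M) := ⟨_, rfl⟩
    obtain ⟨Rd, hRd'⟩ : ∃ Rd, Rd = R.filter (fun A => Disjoint A U ∧ A ⊆ E1) := ⟨_, rfl⟩
    have ma : ∀ A, A ∈ Ra ↔ A ∈ R ∧ ¬ Disjoint A (U ∩ M) := fun A => by rw [hRa, Finset.mem_filter]
    have mb : ∀ A, A ∈ Rb ↔ A ∈ R ∧ ¬ Disjoint A (U ∩ E1) := fun A => by rw [hRb, Finset.mem_filter]
    have mc : ∀ A, A ∈ Rc ↔ A ∈ R ∧ Disjoint A U ∧ ¬ Disjoint A M := fun A => by rw [hRc, Finset.mem_filter]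
    have md : ∀ A, A ∈ Rd ↔ A ∈ R ∧ Disjoint A U ∧ A ⊆ E1 := fun A => by rw [hRd', Finset.mem_filter]
    clear hRa hRb hRc hRd'
    have hcov : R ⊆ (Ra ∪ Rb) ∪ (Rc ∪ Rd) := by
      intro A hA
      have hAE : A ⊆ E0 ∪ E1 := Finset.mem_powerset.1 (Finset.mem_filter.1 (hRF hA)).1
      by_cases hU : Disjoint A U
      · refine Finset.mem_union_right _ ?_
        by_cases hM : Disjoint A M
        · refine Finset.mem_union_right _ ((md A).2 ⟨hA, hU, ?_⟩)
          intro x hx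
          rcases Finset.mem_union.1 (hAE hx) with hx0 | hx1
          · exact absurd (hE0 hx0) (Finset.disjoint_left.1 hM hx)
          · exact hx1
        · exact Finset.mem_union_left _ ((mc A).2 ⟨hA, hU, hM⟩)
      · refine Finset.mem_union_left _ ?_
        obtain ⟨x, hxA, hxU⟩ := Finset.not_disjoint_iff.1 hU
        rcases Finset.mem_union.1 (hAE hxA) with hx0 | hx1
        · exact Finset.mem_union_left _ ((ma A).2 ⟨hA, Finset.not_disjoint_iff.2
            ⟨x, hxA, Finset.mem_inter.2 ⟨hxU, hE0 hx0⟩⟩⟩)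
        · exact Finset.mem_union_right _ ((mb A).2 ⟨hA, Finset.not_disjoint_iff.2
            ⟨x, hxA, Finset.mem_inter.2 ⟨hxU, hx1⟩⟩⟩)
    have hQ : ∀ A ∈ R, Disjoint A U → A ∈ QU D U := by
      intro A hA hU
      obtain ⟨_, t, ht, l, hl, l', hl', hne, hAe⟩ := Finset.mem_filter.1 (hRF hA)
      have hll : l ≠ l' := fun h => hne (by rw [h])
      have ht2 : t = {l, l'} := by
        symm
        refine Finset.eq_of_subset_of_card_le ?_ ?_
        · intro x hx
          rcases Finset.mem_insert.1 hx with rfl | hx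
          · exact hl
          · rw [Finset.mem_singleton.1 hx]
            exact hl'
        · rw [Finset.card_pair hll]
          exact hD t ht
      have hAU : l.1 ∉ U ∧ l'.1 ∉ U := by
        rw [hAe] at hU
        exact ⟨Finset.disjoint_left.1 hU (Finset.mem_insert_self _ _),
          Finset.disjoint_left.1 hU (Finset.mem_insert_of_mem (Finset.mem_singleton_self _))⟩
      refine Finset.mem_image.2 ⟨t, Finset.mem_filter.2 ⟨ht, ?_, ?_⟩, ?_⟩
      · rw [ht2, Finset.card_pair hll]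
      · intro x hx
        rw [ht2] at hx
        rcases Finset.mem_insert.1 hx with rfl | hx
        · exact hAU.1
        · rw [Finset.mem_singleton.1 hx]
          exact hAU.2
      · rw [ht2, hAe, Finset.image_insert, Finset.image_singleton]
    have ha : Ra.card < z := lt_of_le_of_lt
      (WLD_meet Ra (U ∩ M) (fun A hA B hB => hRd A ((ma A).1 hA).1 B ((ma B).1 hB).1)
        (fun A hA => ((ma A).1 hA).2)) h2
    have hb' : Rb.card < z := lt_of_le_of_lt
      (WLD_meet Rb (U ∩ E1) (fun A hA B hB => hRd A ((mb A).1 hA).1 B ((mb B).1 hB).1)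
        (fun A hA => ((mb A).1 hA).2)) h4
    have hc : Rc.card < z := WLD_disj _ Rc z _ h1
      (fun A hA => hQ A ((mc A).1 hA).1 ((mc A).1 hA).2.1)
      (fun A hA B hB => hRd A ((mc A).1 hA).1 B ((mc B).1 hB).1)
      (fun A hA => ((mc A).1 hA).2.2)
    have hd : Rd.card < z := WLD_disj _ Rd z _ h3
      (fun A hA => Finset.mem_filter.2 ⟨hQ A ((md A).1 hA).1 ((md A).1 hA).2.1, hFc A (hRF ((md A).1 hA).1)⟩)
      (fun A hA B hB => hRd A ((md A).1 hA).1 B ((md B).1 hB).1)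
      (fun A hA => ((md A).1 hA).2.2)
    have h5 := (Finset.card_le_card hcov).trans (Finset.card_union_le _ _)
    have h6 := Finset.card_union_le Ra Rb
    have h7 := Finset.card_union_le Rc Rd
    omega
  · intro t ht l hl l' hl' hne hlE hlE'
    have hA : ({l.1, l'.1} : Finset (Edge m n)) ∈ F := by
      refine Finset.mem_filter.2 ⟨Finset.mem_powerset.2 ?_, t, ht, l, hl, l', hl', hne, rfl⟩
      intro x hx
      rcases Finset.mem_insert.1 hx with rfl | hx
      · exact hlE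
      · rw [Finset.mem_singleton.1 hx]
        exact hlE'
    obtain ⟨x, hx1, hx2⟩ := Finset.not_disjoint_iff.1 (hRm _ hA)
    rcases Finset.mem_insert.1 hx1 with rfl | hx1
    · exact Or.inl hx2
    · rw [Finset.mem_singleton.1 hx1] at hx2
      exact Or.inr hx2

/-- The number of void-free samples outside `A` and the number of distinct sampled holes. -/
theorem WLD_alive {m n h s : ℕ} (hl : Fin h → Fin n) (P0 : Finset (Fin m)) (ω : Fin m → Fin s → Fin h × Bool)
    (A : Finset (Edge m n)) (i : Fin m) (c : ℕ)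
    (hc : alive hl (∅ : Finset (Edge m n)) ω i ≤ (opts (E1 hl P0 ω) i).card + c) :
    alive hl A ω i ≤ ((opts (E1 hl P0 ω) i).filter (fun j => (i, j) ∉ A)).card + c := by
  have h1 : alive hl (∅ : Finset (Edge m n)) ω i = alive hl A ω i +
      (univ.filter (fun l => (ω i l).2 = true ∧ (i, hl (ω i l).1) ∈ A)).card := by
    unfold alive
    rw [← Finset.card_union_of_disjoint]
    · congr 1
      ext l
      simp only [Finset.mem_filter, Finset.mem_union, Finset.mem_univ, true_and, Finset.notMem_empty,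
        not_false_eq_true, and_true]
      constructor
      · intro hl1
        by_cases hA : (i, hl (ω i l).1) ∈ A
        · exact Or.inr ⟨hl1, hA⟩
        · exact Or.inl ⟨hl1, hA⟩
      · rintro (hl1 | hl1)
        · exact hl1.1
        · exact hl1.1
    · rw [Finset.disjoint_left]
      intro l hl1 hl2
      exact (Finset.mem_filter.1 hl1).2.2 (Finset.mem_filter.1 hl2).2.2
  have h2 : ((opts (E1 hl P0 ω) i).filter (fun j => (i, j) ∈ A)).card ≤
      (univ.filter (fun l => (ω i l).2 = true ∧ (i, hl (ω i l).1) ∈ A)).card := by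
    have h3 : ((opts (E1 hl P0 ω) i).filter (fun j => (i, j) ∈ A)) ⊆
        (univ.filter (fun l => (ω i l).2 = true ∧ (i, hl (ω i l).1) ∈ A)).image (fun l => hl (ω i l).1) := by
      intro j hj
      obtain ⟨hj1, hj2⟩ := Finset.mem_filter.1 hj
      obtain ⟨_, l, hl1, hl2⟩ := (Finset.mem_filter.1 (Finset.mem_filter.1 hj1).2).2
      simp only at hl1 hl2
      refine Finset.mem_image.2 ⟨l, Finset.mem_filter.2 ⟨Finset.mem_univ _, hl1, ?_⟩, hl2⟩
      rw [hl2]
      exact hj2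
    exact (Finset.card_le_card h3).trans Finset.card_image_le
  have h3 := Finset.card_filter_add_card_filter_not (s := opts (E1 hl P0 ω) i) (fun j => (i, j) ∈ A)
  omega

theorem stmt_WLD (hST1 : Stmt_ST1) (hST2 : Stmt_ST2) : Stmt_WLD := by
  intro C hC
  obtain ⟨a1, ha1⟩ := hST1 C hC
  obtain ⟨a2, ha2⟩ := hST2 C hC
  refine ⟨max (max a1 a2) 2, fun a n haa h6 hnC L U hL hsp => ?_⟩
  have ha1' : a1 ≤ a := (le_max_left _ _).trans ((le_max_left _ _).trans haa)
  have ha2' : a2 ≤ a := (le_max_right _ _).trans ((le_max_left _ _).trans haa)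
  have haT : 2 ≤ a := (le_max_right _ _).trans haa
  obtain ⟨ω1, hA, hB, hCC, hDD⟩ := ha1 a n ha1' h6 hnC L U hL hsp
  -- sizes
  have hn2 : a ^ 2 ≤ n := (Nat.pow_le_pow_right (by omega) (by norm_num)).trans h6
  have hw1 : 1 ≤ n / a ^ 2 := (Nat.one_le_div_iff (by positivity)).2 hn2
  have hSS1 : 1 ≤ SS C a n := by
    unfold SS
    have : 1 ≤ 12 * (sa C a + 2) := by omega
    exact Nat.mul_pos this hw1
  have h2an : 2 * a ≤ n := by nlinarith
  -- the free holes
  let H1 : Finset (Fin n) := univ.filter (fun j => (ω1 j).1 = true)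
  let h : ℕ := H1.card
  let hl : Fin h → Fin n := fun x => H1.orderEmbOfFin rfl x
  have hlinj : Function.Injective hl := (H1.orderEmbOfFin rfl).injective
  have hlmem : ∀ x, hl x ∈ H1 := fun x => Finset.orderEmbOfFin_mem H1 rfl x
  have hlsurj : ∀ j ∈ H1, ∃ x, hl x = j := by
    intro j hj
    have h1 : j ∈ Set.range (H1.orderEmbOfFin rfl) := by
      rw [Finset.range_orderEmbOfFin]
      exact hj
    exact h1
  have hn2h : n ≤ 2 * h := hA
  let E0 : Finset (Edge (n ^ 2) n) := M0 ω1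
  let P0 : Finset (Fin (n ^ 2)) := E0.image Prod.fst
  have hE0 : ∀ e, e ∈ E0 ↔ (ω1 e.2).1 = false ∧ (ω1 e.2).2 = e.1 := by
    intro e
    constructor
    · intro he
      obtain ⟨j, hj, hje⟩ := Finset.mem_image.1 he
      rw [← hje]
      exact ⟨(Finset.mem_filter.1 hj).2, rfl⟩
    · intro he
      exact Finset.mem_image.2 ⟨e.2, Finset.mem_filter.2 ⟨Finset.mem_univ _, he.1⟩, Prod.ext he.2 rfl⟩
  have hE0c : E0.card ≤ n := by
    refine Finset.card_image_le.trans ((Finset.card_filter_le _ _).trans ?_)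
    rw [Finset.card_univ, Fintype.card_fin]
  have hP0c : P0.card ≤ n := Finset.card_image_le.trans hE0c
  have hP0 : ∀ e ∈ E0, e.1 ∈ P0 := fun e he => Finset.mem_image_of_mem _ he
  obtain ⟨ω2, h21, h22, h23, h24, h25, h26, h27⟩ := ha2 a n ha2' h6 hnC L U hL hsp h hl P0 E0 hlinj hn2h hP0c hP0
  have hH1 : ∀ j, j ∉ E0.image Prod.snd → ∃ x, hl x = j := by
    intro j hj
    apply hlsurj
    refine Finset.mem_filter.2 ⟨Finset.mem_univ _, ?_⟩
    by_contra hcon
    have h1 : (ω1 j).1 = false := by simpa using hcon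
    exact hj (Finset.mem_image.2 ⟨((ω1 j).2, j), (hE0 _).2 ⟨h1, rfl⟩, rfl⟩)
  -- options and samples
  have hopt : ∀ i j, j ∈ opts (E1 hl P0 ω2) i ↔ i ∉ P0 ∧ ∃ l, (ω2 i l).2 = true ∧ hl (ω2 i l).1 = j := by
    intro i j
    unfold opts E1
    simp only [Finset.mem_filter, Finset.mem_univ, true_and]
  have hoptle : ∀ i, (opts (E1 hl P0 ω2) i).card ≤ alive hl (∅ : Finset (Edge (n ^ 2) n)) ω2 i := by
    intro i
    have h1 : opts (E1 hl P0 ω2) i ⊆ (univ.filter (fun l => (ω2 i l).2 = true ∧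
        (i, hl (ω2 i l).1) ∉ (∅ : Finset (Edge (n ^ 2) n)))).image (fun l => hl (ω2 i l).1) := by
      intro j hj
      obtain ⟨_, l, hl1, hl2⟩ := (hopt i j).1 hj
      exact Finset.mem_image.2 ⟨l, Finset.mem_filter.2 ⟨Finset.mem_univ _, hl1, Finset.notMem_empty _⟩, hl2⟩
    exact (Finset.card_le_card h1).trans Finset.card_image_le
  have hrep : ∀ i, i ∉ P0 → alive hl (∅ : Finset (Edge (n ^ 2) n)) ω2 i ≤
      (opts (E1 hl P0 ω2) i).card + cc C := by
    intro i hi
    have h1 := h22 {i} (by rw [Finset.card_singleton]; exact hSS1)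
    rw [Finset.sum_singleton, Finset.card_singleton, mul_one] at h1
    refine h1.trans (Nat.add_le_add_right (Finset.card_le_card ?_) _)
    intro j hj
    obtain ⟨_, i', hi', l, hl1, hl2⟩ := Finset.mem_filter.1 hj
    rw [Finset.mem_singleton] at hi'
    subst hi'
    exact (hopt i' j).2 ⟨hi, l, hl1, hl2⟩
  refine ⟨E0, E1 hl P0 ω2, ?_⟩
  refine ⟨?_, ?_, ?_, ?_, ?_, ?_, ?_, ?_, ?_, ?_⟩
  · -- mat
    intro e he f hf hef
    obtain ⟨he1, he2⟩ := (hE0 e).1 he
    obtain ⟨hf1, hf2⟩ := (hE0 f).1 hf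
    rcases hef with h1 | h1
    · have h2 : e.2 = f.2 := hB (by
        change (ω1 e.2).2 = (ω1 f.2).2
        rw [he2, hf2, h1])
      exact Prod.ext h1 h2
    · refine Prod.ext ?_ h1
      rw [← he2, ← hf2, h1]
  · -- sep
    intro e he f hf
    obtain ⟨_, hf1, l, hf2, hf3⟩ := Finset.mem_filter.1 hf
    refine ⟨fun h1 => hf1 (by rw [← h1]; exact hP0 e he), fun h1 => ?_⟩
    have h2 := hlmem (ω2 f.1 l).1
    rw [hf3, ← h1] at h2
    have h3 := (Finset.mem_filter.1 h2).2
    rw [((hE0 e).1 he).1] at h3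
    exact absurd h3 (by decide)
  · -- deg_le
    intro i
    have h1 : opts (E1 hl P0 ω2) i ⊆ (univ : Finset (Fin (sa C a))).image (fun l => hl (ω2 i l).1) := by
      intro j hj
      obtain ⟨_, l, _, hl2⟩ := (hopt i j).1 hj
      exact Finset.mem_image.2 ⟨l, Finset.mem_univ _, hl2⟩
    refine (Finset.card_le_card h1).trans (Finset.card_image_le.trans ?_)
    rw [Finset.card_univ, Fintype.card_fin]
  · -- deg_ge
    intro i hi
    have h1 := hrep i hi
    have h2 := h21 i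
    omega
  · -- hole_ge
    intro j hj
    obtain ⟨x, rfl⟩ := hH1 j hj
    exact h23 x
  · -- exp
    intro A hA'
    have h1 : ∑ i ∈ A, (opts (E1 hl P0 ω2) i).card = ∑ i ∈ A.filter (fun i => i ∉ P0),
        (opts (E1 hl P0 ω2) i).card := by
      rw [Finset.sum_filter]
      refine Finset.sum_congr rfl (fun i _ => ?_)
      by_cases hi : i ∈ P0
      · rw [if_neg (not_not.2 hi), Finset.card_eq_zero, Finset.eq_empty_iff_forall_notMem]
        intro j hj
        exact ((hopt i j).1 hj).1 hi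
      · rw [if_pos hi]
    have h2 := h22 (A.filter (fun i => i ∉ P0)) ((Finset.card_filter_le _ _).trans hA')
    have h3 : ∑ i ∈ A.filter (fun i => i ∉ P0), (opts (E1 hl P0 ω2) i).card ≤
        ∑ i ∈ A.filter (fun i => i ∉ P0), alive hl (∅ : Finset (Edge (n ^ 2) n)) ω2 i :=
      Finset.sum_le_sum (fun i _ => hoptle i)
    have h4 : (univ.filter (fun j => ∃ i ∈ A.filter (fun i => i ∉ P0), ∃ l, (ω2 i l).2 = true ∧
        hl (ω2 i l).1 = j)).card ≤ (A.biUnion (opts (E1 hl P0 ω2))).card := by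
      refine Finset.card_le_card ?_
      intro j hj
      obtain ⟨_, i, hi, l, hl1, hl2⟩ := Finset.mem_filter.1 hj
      obtain ⟨hi1, hi2⟩ := Finset.mem_filter.1 hi
      exact Finset.mem_biUnion.2 ⟨i, hi1, (hopt i j).2 ⟨hi2, l, hl1, hl2⟩⟩
    have h5 : cc C * (A.filter (fun i => i ∉ P0)).card ≤ cc C * A.card :=
      Nat.mul_le_mul_left _ (Finset.card_filter_le _ _)
    rw [h1]
    omega
  · -- posP
    intro D hD ξ hξ
    have hD' : D ∈ L := hD
    rcases h24 D hD' ξ hξ with h1 | h1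
    · left
      refine lt_of_le_of_lt (Finset.card_le_card ?_) h1
      intro i hi
      obtain ⟨_, hi1, hi2⟩ := Finset.mem_filter.1 hi
      refine Finset.mem_filter.2 ⟨Finset.mem_univ _, hi1, ?_⟩
      have h2 := WLD_alive hl P0 ω2 (Pos D ξ) i (cc C) (hrep i hi1)
      omega
    · right
      refine lt_of_lt_of_le h1 (Finset.card_le_card ?_)
      intro i hi
      obtain ⟨_, hi1, hi2⟩ := Finset.mem_filter.1 hi
      refine Finset.mem_filter.2 ⟨Finset.mem_univ _, hi1, ?_⟩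
      intro j hj
      obtain ⟨_, l, hl1, hl2⟩ := (hopt i j).1 hj
      by_contra hcon
      have h3 : l ∈ univ.filter (fun l => (ω2 i l).2 = true ∧ (i, hl (ω2 i l).1) ∉ Pos D ξ) := by
        refine Finset.mem_filter.2 ⟨Finset.mem_univ _, hl1, ?_⟩
        rw [hl2]
        exact hcon
      have h4 := Finset.card_pos.2 ⟨l, h3⟩
      unfold alive at hi2
      omega
  · -- posH
    intro D hD ξ hξ
    have hD' : D ∈ L := hD
    rcases hCC D hD' ξ hξ with h1 | h1
    · left
      refine lt_of_le_of_lt (Finset.card_le_card ?_) h1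
      intro j hj
      obtain ⟨_, hj1, hj2⟩ := Finset.mem_filter.1 hj
      refine Finset.mem_filter.2 ⟨Finset.mem_univ _, ?_⟩
      obtain ⟨x, rfl⟩ := hH1 j hj1
      by_contra hcon
      push Not at hcon
      have h2 : (univ.filter (fun i : Fin (n ^ 2) => (i, hl x) ∉ Pos D ξ)).card ≤
          (univ.filter (fun i : Fin (n ^ 2) => i ∉ P0 ∧ (i, hl x) ∉ Pos D ξ)).card + P0.card := by
        refine (Finset.card_le_card ?_).trans (Finset.card_union_le _ _)
        intro i hi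
        by_cases hiP : i ∈ P0
        · exact Finset.mem_union_right _ hiP
        · exact Finset.mem_union_left _ (Finset.mem_filter.2 ⟨Finset.mem_univ _, hiP,
            (Finset.mem_filter.1 hi).2⟩)
      have h3 : n ^ 2 ≤ 2 * a * (univ.filter (fun i : Fin (n ^ 2) => i ∉ P0 ∧ (i, hl x) ∉ Pos D ξ)).card := by
        nlinarith
      have h4 := h26 D hD' ξ hξ x h3
      omega
    · right
      refine lt_of_lt_of_le h1 ?_
      refine Finset.card_le_card_of_injOn (fun j => ((ω1 j).2, j)) ?_ ?_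
      · intro j hj
        obtain ⟨_, hj1, hj2⟩ := Finset.mem_filter.1 hj
        exact Finset.mem_filter.2 ⟨(hE0 _).2 ⟨hj1, rfl⟩, hj2⟩
      · intro j _ j' _ hjj
        exact (Prod.mk.inj hjj).2
  · -- neg
    intro D hD ξ1 ξ0 hξ1 hξ0
    exact h25 D hD ξ1 ξ0 hξ1 hξ0
  · -- cover
    intro D hD
    have hD' : D ∈ L := hD
    refine WLD_cover D (U D) E0 (E1 hl P0 ω2) (Mt ω1) (n / a ^ 3) (hsp.1 D hD') ?_ (hDD D hD').1 (hDD D hD').2
      (h27 D hD').1 (h27 D hD').2
    intro e he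
    obtain ⟨j, _, hje⟩ := Finset.mem_image.1 he
    exact Finset.mem_image.2 ⟨j, Finset.mem_univ _, hje⟩

end

end Pool.Agent.Work.MP_833881_lb
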